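import Pool.Agent.NGR.Defs

open Finset
open scoped Classical

noncomputable section

namespace NGR

open Complex in
theorem ang_lift {A : Type*} [TopologicalSpace A] [SimplyConnectedSpace A]
    [LocallyPathConnectedSpace A] (F : A → ℂ) (hF : Continuous F) (h0 : ∀ x, F x ≠ 0) :
    ∃ L : A → ℂ, Continuous L ∧ ∀ x, Complex.exp (L x) = F x := by
  obtain ⟨x₀⟩ : Nonempty A := inferInstance
  rcases Complex.isCoveringMapOn_exp.existsUnique_continuousMap_lifts
    (⟨F, hF⟩ : C(A, ℂ)) (a₀ := x₀) (Complex.exp_log (h0 x₀)) (fun x => h0 x) with ⟨f, ⟨-, hf⟩, -⟩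
  exact ⟨f, f.continuous, fun x => congrFun hf x⟩

theorem ang_uniq (l l' : ℝ → ℂ) (hl : Continuous l) (hl' : Continuous l')
    (h : ∀ s, Complex.exp (l s) = Complex.exp (l' s)) : l 1 - l 0 = l' 1 - l' 0 := by
  have hc : Complex.exp (l' 0 - l 0) = 1 := by
    rw [Complex.exp_sub, h 0, div_self (Complex.exp_ne_zero _)]
  have hcov := Complex.isCoveringMap_exp
  have := hcov.eq_of_comp_eq (A := ℝ) (g₁ := fun s => l s + (l' 0 - l 0)) (g₂ := l')
    (by fun_prop) hl' (by
      funext s
      simp only [Function.comp]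
      apply Subtype.ext
      simp only
      rw [Complex.exp_add, hc, mul_one, h s]) 0 (by simp)
  have h1 := congrFun this 1
  rw [← h1]
  ring

/-- variation of the logarithm of `g - y` -/
def angLam (g : ℝ → ℂ) (y : ℂ) : ℂ :=
  if h : ∃ l : ℝ → ℂ, Continuous l ∧ ∀ s, Complex.exp (l s) = g s - y then
    h.choose 1 - h.choose 0 else 0

theorem angLam_eq (g : ℝ → ℂ) (y : ℂ) (l : ℝ → ℂ) (hl : Continuous l)
    (h : ∀ s, Complex.exp (l s) = g s - y) : angLam g y = l 1 - l 0 := by
  have hex : ∃ l : ℝ → ℂ, Continuous l ∧ ∀ s, Complex.exp (l s) = g s - y := ⟨l, hl, h⟩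
  unfold angLam
  rw [dif_pos hex]
  apply ang_uniq _ _ hex.choose_spec.1 hl
  intro s
  rw [hex.choose_spec.2 s, h s]

theorem ang_rel (g g' : ℝ → ℂ) (hg : Continuous g) (hg' : Continuous g')
    (h : ∀ s t, g s ≠ g' t) :
    angLam g (g' 1) - angLam g (g' 0) = angLam g' (g 1) - angLam g' (g 0) := by
  obtain ⟨L, hL, hLe⟩ := ang_lift (fun x : ℝ × ℝ => g x.1 - g' x.2) (by fun_prop)
    (fun x => sub_ne_zero.mpr (h x.1 x.2))
  have e1 : angLam g (g' 1) = L (1, 1) - L (0, 1) :=
    angLam_eq g (g' 1) (fun s => L (s, 1)) (by fun_prop) (fun s => hLe (s, 1))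
  have e2 : angLam g (g' 0) = L (1, 0) - L (0, 0) :=
    angLam_eq g (g' 0) (fun s => L (s, 0)) (by fun_prop) (fun s => hLe (s, 0))
  have key : ∀ a t, Complex.exp (L (a, t) + Real.pi * Complex.I) = g' t - g a := by
    intro a t
    rw [Complex.exp_add, Complex.exp_pi_mul_I, hLe (a, t)]
    ring
  have e3 : angLam g' (g 1) = (L (1, 1) + Real.pi * Complex.I) -
      (L (1, 0) + Real.pi * Complex.I) :=
    angLam_eq g' (g 1) (fun t => L (1, t) + Real.pi * Complex.I) (by fun_prop) (fun t => key 1 t)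
  have e4 : angLam g' (g 0) = (L (0, 1) + Real.pi * Complex.I) -
      (L (0, 0) + Real.pi * Complex.I) :=
    angLam_eq g' (g 0) (fun t => L (0, t) + Real.pi * Complex.I) (by fun_prop) (fun t => key 0 t)
  rw [e1, e2, e3, e4]
  ring

theorem ang_int (g : ℝ → ℂ) (hg : Continuous g) (y : ℂ) (hy : ∀ s, g s ≠ y) (c₁ c₀ : ℂ)
    (h₁ : Complex.exp c₁ = g 1 - y) (h₀ : Complex.exp c₀ = g 0 - y) :
    ∃ n : ℤ, angLam g y = c₁ - c₀ + n * (2 * Real.pi * Complex.I) := by
  obtain ⟨l, hl, hle⟩ := ang_lift (fun s : ℝ => g s - y) (by fun_prop)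
    (fun s => sub_ne_zero.mpr (hy s))
  rw [angLam_eq g y l hl hle]
  have h : Complex.exp (l 1 - l 0) = Complex.exp (c₁ - c₀) := by
    rw [Complex.exp_sub, Complex.exp_sub, h₁, h₀, hle 1, hle 0]
  obtain ⟨n, hn⟩ := Complex.exp_eq_exp_iff_exists_int.mp h
  exact ⟨n, hn⟩

/-- ANG: nine paths in the plane. -/
theorem no_k33 (A B : Fin 3 → ℂ) (γ : ∀ i j, Path (A i) (B j))
    (h : ∀ i i' j j', i ≠ i' → j ≠ j' → ∀ s t, γ i j s ≠ γ i' j' t) : False := by
  have hex : ∀ i : Fin 3, ∃ k, k ≠ i := fun i => ⟨i + 1, by fin_cases i <;> decide⟩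
  set G : Fin 3 → Fin 3 → ℝ → ℂ := fun i j => (γ i j).extend with hG
  have hGc : ∀ i j, Continuous (G i j) := fun i j => (γ i j).continuous_extend
  have hG0 : ∀ i j, G i j 0 = A i := fun i j => (γ i j).extend_zero
  have hG1 : ∀ i j, G i j 1 = B j := fun i j => (γ i j).extend_one
  have hGr : ∀ i j s, ∃ s', G i j s = γ i j s' := fun i j s => ⟨_, rfl⟩
  have hGG : ∀ i i' j j', i ≠ i' → j ≠ j' → ∀ s t, G i j s ≠ G i' j' t := by
    intro i i' j j' hi hj s t
    obtain ⟨s', hs⟩ := hGr i j s
    obtain ⟨t', ht⟩ := hGr i' j' t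
    rw [hs, ht]
    exact h i i' j j' hi hj s' t'
  have hGB : ∀ i j l, l ≠ j → ∀ s, G i j s ≠ B l := by
    intro i j l hl s
    obtain ⟨k, hk⟩ := hex i
    have := hGG i k j l hk.symm hl.symm s 1
    rwa [hG1] at this
  have hGA : ∀ i j k, k ≠ i → ∀ s, G i j s ≠ A k := by
    intro i j k hk s
    obtain ⟨l, hl⟩ := hex j
    have := hGG i k j l hk.symm hl.symm s 0
    rwa [hG0] at this
  have hAA : ∀ i k, i ≠ k → A i - A k ≠ 0 := by
    intro i k hik
    have := hGA i 0 k hik.symm 0
    rw [hG0] at this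
    exact sub_ne_zero.mpr this
  have hBB : ∀ j l, j ≠ l → B j - B l ≠ 0 := by
    intro j l hjl
    have := hGB 0 j l hjl.symm 1
    rw [hG1] at this
    exact sub_ne_zero.mpr this
  have hAB : ∀ i l, A i - B l ≠ 0 := by
    intro i l
    obtain ⟨j, hj⟩ := hex l
    have := hGB i j l hj.symm 0
    rw [hG0] at this
    exact sub_ne_zero.mpr this
  -- logarithms
  set LA : Fin 3 → Fin 3 → ℂ := fun i k => if i < k then Complex.log (A i - A k)
    else Complex.log (A k - A i) + Real.pi * Complex.I with hLA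
  set LB : Fin 3 → Fin 3 → ℂ := fun j l => if j < l then Complex.log (B j - B l)
    else Complex.log (B l - B j) + Real.pi * Complex.I with hLB
  set M : Fin 3 → Fin 3 → ℂ := fun i l => Complex.log (A i - B l) with hM
  have hLAe : ∀ i k, i ≠ k → Complex.exp (LA i k) = A i - A k := by
    intro i k hik
    simp only [hLA]
    split_ifs with hc
    · exact Complex.exp_log (hAA i k hik)
    · rw [Complex.exp_add, Complex.exp_pi_mul_I, Complex.exp_log (hAA k i hik.symm)]
      ring
  have hLBe : ∀ j l, j ≠ l → Complex.exp (LB j l) = B j - B l := by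
    intro i k hik
    simp only [hLB]
    split_ifs with hc
    · exact Complex.exp_log (hBB i k hik)
    · rw [Complex.exp_add, Complex.exp_pi_mul_I, Complex.exp_log (hBB k i hik.symm)]
      ring
  have hMe : ∀ i l, Complex.exp (M i l) = A i - B l := fun i l => Complex.exp_log (hAB i l)
  have hMe' : ∀ i l, Complex.exp (M i l + Real.pi * Complex.I) = B l - A i := by
    intro i l
    rw [Complex.exp_add, Complex.exp_pi_mul_I, hMe]
    ring
  have hLAs : ∀ i k, i < k → LA k i - LA i k = Real.pi * Complex.I := by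
    intro i k hik
    simp only [hLA]
    rw [if_pos hik, if_neg (not_lt.mpr hik.le)]
    ring
  have hLBs : ∀ i k, i < k → LB k i - LB i k = Real.pi * Complex.I := by
    intro i k hik
    simp only [hLB]
    rw [if_pos hik, if_neg (not_lt.mpr hik.le)]
    ring
  -- integers
  have hnB : ∀ i j l, ∃ n : ℤ, l ≠ j → angLam (G i j) (B l) =
      LB j l - M i l + n * (2 * Real.pi * Complex.I) := by
    intro i j l
    by_cases hl : l = j
    · exact ⟨0, fun hh => absurd hl hh⟩
    · obtain ⟨n, hn⟩ := ang_int (G i j) (hGc i j) (B l) (hGB i j l hl) (LB j l) (M i l)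
        (by rw [hG1]; exact hLBe j l (Ne.symm hl)) (by rw [hG0]; exact hMe i l)
      exact ⟨n, fun _ => hn⟩
  have hnA : ∀ i j k, ∃ n : ℤ, k ≠ i → angLam (G i j) (A k) =
      (M k j + Real.pi * Complex.I) - LA i k + n * (2 * Real.pi * Complex.I) := by
    intro i j k
    by_cases hk : k = i
    · exact ⟨0, fun hh => absurd hk hh⟩
    · obtain ⟨n, hn⟩ := ang_int (G i j) (hGc i j) (A k) (hGA i j k hk)
        (M k j + Real.pi * Complex.I) (LA i k)
        (by rw [hG1]; exact hMe' k j) (by rw [hG0]; exact hLAe i k (Ne.symm hk))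
      exact ⟨n, fun _ => hn⟩
  choose nB hnB using hnB
  choose nA hnA using hnA
  have hpi : (2 * Real.pi * Complex.I : ℂ) ≠ 0 := Complex.two_pi_I_ne_zero
  have key : ∀ i k j l, i < k → j ≠ l →
      nB i j l - nA i j k - nB k l j + nA k l i = if j < l then 1 else 0 := by
    intro i k j l hik hjl
    have hr := ang_rel (G i j) (G k l) (hGc i j) (hGc k l) (hGG i k j l hik.ne hjl)
    rw [hG1, hG0, hG1, hG0, hnB i j l hjl.symm, hnA i j k hik.ne', hnB k l j hjl,
      hnA k l i hik.ne] at hr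
    have hA := hLAs i k hik
    rcases lt_or_gt_of_ne hjl with hlt | hgt
    · have hB := hLBs j l hlt
      rw [if_pos hlt]
      have e : ((nB i j l - nA i j k - nB k l j + nA k l i : ℤ) : ℂ) * (2 * Real.pi * Complex.I)
          = ((1 : ℤ) : ℂ) * (2 * Real.pi * Complex.I) := by
        push_cast
        linear_combination hr + hA + hB
      exact_mod_cast mul_right_cancel₀ hpi e
    · have hB := hLBs l j hgt
      rw [if_neg (not_lt.mpr hgt.le)]
      have e : ((nB i j l - nA i j k - nB k l j + nA k l i : ℤ) : ℂ) * (2 * Real.pi * Complex.I)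
          = ((0 : ℤ) : ℂ) * (2 * Real.pi * Complex.I) := by
        push_cast
        linear_combination hr + hA - hB
      exact_mod_cast mul_right_cancel₀ hpi e
  have k1 := key 0 1 0 1 (by decide) (by decide)
  have k2 := key 0 1 0 2 (by decide) (by decide)
  have k3 := key 0 1 1 0 (by decide) (by decide)
  have k4 := key 0 1 1 2 (by decide) (by decide)
  have k5 := key 0 1 2 0 (by decide) (by decide)
  have k6 := key 0 1 2 1 (by decide) (by decide)
  have k7 := key 0 2 0 1 (by decide) (by decide)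
  have k8 := key 0 2 0 2 (by decide) (by decide)
  have k9 := key 0 2 1 0 (by decide) (by decide)
  have k10 := key 0 2 1 2 (by decide) (by decide)
  have k11 := key 0 2 2 0 (by decide) (by decide)
  have k12 := key 0 2 2 1 (by decide) (by decide)
  have k13 := key 1 2 0 1 (by decide) (by decide)
  have k14 := key 1 2 0 2 (by decide) (by decide)
  have k15 := key 1 2 1 0 (by decide) (by decide)
  have k16 := key 1 2 1 2 (by decide) (by decide)
  have k17 := key 1 2 2 0 (by decide) (by decide)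
  have k18 := key 1 2 2 1 (by decide) (by decide)
  simp only [show ((0 : Fin 3) < 1) = True by simp, show ((0 : Fin 3) < 2) = True by simp,
    show ((1 : Fin 3) < 2) = True by simp, show ((1 : Fin 3) < 0) = False by simp,
    show ((2 : Fin 3) < 0) = False by simp, show ((2 : Fin 3) < 1) = False by simp,
    if_true, if_false] at k1 k2 k3 k4 k5 k6 k7 k8 k9 k10 k11 k12 k13 k14 k15 k16 k17 k18
  omega

end NGR
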