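import Pool.Agent.NGR.Defs

open Finset
open scoped Classical

noncomputable section

namespace NGR

variable {V : Type} [Fintype V]

private theorem avg_sum_prod {ι Ω : Type} [Fintype ι] [DecidableEq ι] [Fintype Ω]
    (f : ι → Ω → ℝ) :
    ∑ a : ι → Ω, ∏ k, f k (a k) = ∏ k, ∑ x, f k x := by
  rw [Finset.prod_univ_sum, Fintype.piFinset_univ]

private theorem avg_two {ι Ω : Type} [Fintype ι] [DecidableEq ι] [Fintype Ω]
    (f : ι → Ω → ℝ) (i i' : ι)
    (h : i ≠ i') (hf : ∀ k, k ≠ i → k ≠ i' → ∑ x, f k x = 1) (F : Ω → Ω → ℝ) :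
    ∑ a : ι → Ω, (∏ k, f k (a k)) * F (a i) (a i') =
      ∑ x, ∑ y, f i x * f i' y * F x y := by
  have h1 : ∀ a : ι → Ω, (∏ k, f k (a k)) * F (a i) (a i') =
      ∑ x, ∑ y, (∏ k, (f k (a k) * (if k = i then (if a k = x then 1 else 0) else 1) *
        (if k = i' then (if a k = y then 1 else 0) else 1))) * F x y := by
    intro a
    have h2 : ∀ x y, (∏ k, (f k (a k) * (if k = i then (if a k = x then (1 : ℝ) else 0) else 1) *
        (if k = i' then (if a k = y then (1 : ℝ) else 0) else 1))) * F x y =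
        if a i' = y then (if a i = x then (∏ k, f k (a k)) * F x y else 0) else 0 := by
      intro x y
      rw [Finset.prod_mul_distrib, Finset.prod_mul_distrib, Finset.prod_ite_eq' univ i
        (fun k => if a k = x then (1 : ℝ) else 0), Finset.prod_ite_eq' univ i'
        (fun k => if a k = y then (1 : ℝ) else 0)]
      simp only [Finset.mem_univ, if_true]
      split_ifs <;> ring
    simp only [h2, Finset.sum_ite_eq, Finset.mem_univ, if_true]
  rw [Finset.sum_congr rfl (fun a _ => h1 a), Finset.sum_comm]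
  apply Finset.sum_congr rfl
  intro x _
  rw [Finset.sum_comm]
  apply Finset.sum_congr rfl
  intro y _
  rw [← Finset.sum_mul]
  congr 1
  rw [avg_sum_prod (fun k z => f k z * (if k = i then (if z = x then (1 : ℝ) else 0) else 1) *
        (if k = i' then (if z = y then (1 : ℝ) else 0) else 1)),
    Finset.prod_eq_mul i i' h]
  · congr 1
    · simp [h]
    · simp [h.symm]
  · intro c _ hc
    simp only [hc.1, hc.2, if_false, mul_one]
    exact hf c hc.1 hc.2
  · intro hc; exact absurd (Finset.mem_univ _) hc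
  · intro hc; exact absurd (Finset.mem_univ _) hc

private theorem avg_n1 (R : ℕ → ℕ → Prop) [∀ t t', Decidable (R t t')] (n : ℕ) :
    0 ≤ ∑ t ∈ range n, ∑ t' ∈ range n, if R t t' then (1 : ℝ) else 0 := by
  refine Finset.sum_nonneg fun _ _ => Finset.sum_nonneg fun _ _ => ?_
  split_ifs <;> norm_num

private theorem avg_n2 (R : ℕ → ℕ → Prop) [∀ t t', Decidable (R t t')] (n t t' : ℕ) (ht : t < n)
    (ht' : t' < n) (hR : R t t') :
    1 ≤ ∑ t ∈ range n, ∑ t' ∈ range n, if R t t' then (1 : ℝ) else 0 := by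
  have e1 : ∑ t' ∈ range n, (if R t t' then (1 : ℝ) else 0) ≤
      ∑ t ∈ range n, ∑ t' ∈ range n, if R t t' then (1 : ℝ) else 0 := by
    apply Finset.single_le_sum (f := fun t => ∑ t' ∈ range n, if R t t' then (1 : ℝ) else 0)
    · intro x _
      refine Finset.sum_nonneg fun _ _ => ?_
      split_ifs <;> norm_num
    · exact Finset.mem_range.2 ht
  have e2 : (if R t t' then (1 : ℝ) else 0) ≤ ∑ t' ∈ range n, if R t t' then (1 : ℝ) else 0 := by
    apply Finset.single_le_sum (f := fun t' => if R t t' then (1 : ℝ) else 0)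
    · intro x _
      split_ifs <;> norm_num
    · exact Finset.mem_range.2 ht'
  rw [if_pos hR] at e2
  exact e2.trans e1

omit [Fintype V] in
private theorem avg_Nm_nonneg (G : SimpleGraph V) (X : V → V → V → V → Prop) (l : ℕ)
    (P Q : ℕ → V) : 0 ≤ Nm G X l P Q := by
  unfold Nm
  exact add_nonneg (avg_n1 (fun t t' => P t = Q t') (l + 1))
    (avg_n1 (fun t t' => G.Adj (P t) (P (t + 1)) ∧ G.Adj (Q t') (Q (t' + 1)) ∧
      X (P t) (P (t + 1)) (Q t') (Q (t' + 1))) l)

omit [Fintype V] in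
private theorem avg_Nm_one (G : SimpleGraph V) (X : V → V → V → V → Prop) (l : ℕ)
    (P Q : ℕ → V) (h : Meet G X l P Q) : 1 ≤ Nm G X l P Q := by
  unfold Nm
  have m1 := avg_n1 (fun t t' => P t = Q t') (l + 1)
  have m2 := avg_n1 (fun t t' => G.Adj (P t) (P (t + 1)) ∧ G.Adj (Q t') (Q (t' + 1)) ∧
      X (P t) (P (t + 1)) (Q t') (Q (t' + 1))) l
  rcases h with ⟨t, t', h1, h2, h3⟩ | ⟨t, t', h1, h2, h3⟩
  · have m3 := avg_n2 (fun t t' => P t = Q t') (l + 1) t t' (by omega) (by omega) h3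
    exact le_add_of_le_of_nonneg m3 m2
  · have m3 := avg_n2 (fun t t' => G.Adj (P t) (P (t + 1)) ∧ G.Adj (Q t') (Q (t' + 1)) ∧
      X (P t) (P (t + 1)) (Q t') (Q (t' + 1))) l t t' h1 h2 h3
    exact le_add_of_nonneg_of_le m1 m3

/-- AVG: the averaged van Kampen property. -/
theorem avg (G : SimpleGraph V) (X : V → V → V → V → Prop) (h : VK G X) (l : ℕ)
    {Om : Type} [Fintype Om] (P : Om → ℕ → V)
    (rho sig : V → ℝ) (hr0 : ∀ v, 0 ≤ rho v) (hs0 : ∀ v, 0 ≤ sig v)
    (hr1 : ∑ v, rho v = 1) (hs1 : ∑ v, sig v = 1)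
    (q : V → V → Om → ℝ) (hq0 : ∀ x y w, 0 ≤ q x y w)
    (hq1 : ∀ x y, rho x ≠ 0 → sig y ≠ 0 → ∑ w, q x y w = 1)
    (hqs : ∀ x y w, q x y w ≠ 0 → LazyWalk G l (P w) ∧ P w 0 = x ∧ P w l = y) (Q : Om → ℝ)
    (hQ : ∀ w, Q w = ∑ x, ∑ y, rho x * sig y * q x y w) :
    1 ≤ 36 * ∑ w, ∑ w', Q w * Q w' * Nm G X l (P w) (P w') := by
  set T : Finset (Fin 3 × Fin 3 × Fin 3 × Fin 3) :=
    univ.filter (fun t => t.1 ≠ t.2.1 ∧ t.2.2.1 ≠ t.2.2.2) with hT
  have hTc : T.card = 36 := by rw [hT]; decide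
  set Wt : (Fin 3 → V) → (Fin 3 → V) → (Fin 3 × Fin 3 → Om) → ℝ := fun a b w =>
    (∏ k, rho (a k)) * ((∏ k, sig (b k)) * ∏ e, q (a e.1) (b e.2) (w e)) with hWt
  have hW0 : ∀ a b w, 0 ≤ Wt a b w := by
    intro a b w
    exact mul_nonneg (Finset.prod_nonneg fun _ _ => hr0 _)
      (mul_nonneg (Finset.prod_nonneg fun _ _ => hs0 _) (Finset.prod_nonneg fun _ _ => hq0 _ _ _))
  -- total weight
  have htot : ∑ a, ∑ b, ∑ w, Wt a b w = 1 := by
    have e1 : ∀ a b, ∑ w, Wt a b w = (∏ k, rho (a k)) * ∏ k, sig (b k) := by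
      intro a b
      simp only [hWt]
      rw [← Finset.mul_sum, ← Finset.mul_sum]
      by_cases h1 : (∏ k, rho (a k)) = 0
      · rw [h1, zero_mul, zero_mul]
      by_cases h2 : (∏ k, sig (b k)) = 0
      · rw [h2, zero_mul, mul_zero]
      rw [avg_sum_prod (fun e : Fin 3 × Fin 3 => q (a e.1) (b e.2))]
      have h4 : ∏ k : Fin 3 × Fin 3, ∑ x, q (a k.1) (b k.2) x = 1 := by
        apply Finset.prod_eq_one
        intro e _
        exact hq1 _ _ (fun h3 => h1 (Finset.prod_eq_zero (Finset.mem_univ e.1) h3))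
          (fun h3 => h2 (Finset.prod_eq_zero (Finset.mem_univ e.2) h3))
      rw [h4, mul_one]
    simp only [e1]
    simp only [← Finset.mul_sum]
    rw [avg_sum_prod (fun _ => sig), hs1]
    simp only [Finset.prod_const_one, mul_one]
    rw [avg_sum_prod (fun _ => rho), hr1]
    simp
  -- one quadruple
  have hone : ∀ t ∈ T, ∑ a, ∑ b, ∑ w, Wt a b w *
      Nm G X l (P (w (t.1, t.2.2.1))) (P (w (t.2.1, t.2.2.2))) =
      ∑ w, ∑ w', Q w * Q w' * Nm G X l (P w) (P w') := by
    rintro ⟨i, i', j, j'⟩ ht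
    have hii : i ≠ i' := (Finset.mem_filter.1 ht).2.1
    have hjj : j ≠ j' := (Finset.mem_filter.1 ht).2.2
    simp only
    have e1 : ∀ a b, ∑ w : Fin 3 × Fin 3 → Om, Wt a b w * Nm G X l (P (w (i, j))) (P (w (i', j'))) =
        (∏ k, rho (a k)) * ((∏ k, sig (b k)) *
          ∑ x, ∑ y, q (a i) (b j) x * q (a i') (b j') y * Nm G X l (P x) (P y)) := by
      intro a b
      simp only [hWt, mul_assoc]
      rw [← Finset.mul_sum, ← Finset.mul_sum]
      by_cases h1 : (∏ k, rho (a k)) = 0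
      · rw [h1, zero_mul, zero_mul]
      by_cases h2 : (∏ k, sig (b k)) = 0
      · rw [h2, zero_mul, zero_mul]
      congr 2
      have h3 := avg_two (fun e : Fin 3 × Fin 3 => q (a e.1) (b e.2)) (i, j) (i', j')
        (fun h4 => hii (congrArg Prod.fst h4))
        (fun e _ _ => hq1 _ _ (fun h3 => h1 (Finset.prod_eq_zero (Finset.mem_univ e.1) h3))
        (fun h3 => h2 (Finset.prod_eq_zero (Finset.mem_univ e.2) h3)))
        (fun x y => Nm G X l (P x) (P y))
      simp only [mul_assoc] at h3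
      exact h3
    simp only [e1]
    simp only [← Finset.mul_sum]
    have e2 : ∀ a : Fin 3 → V, ∑ b : Fin 3 → V, (∏ k, sig (b k)) *
        ∑ x, ∑ y, q (a i) (b j) x * q (a i') (b j') y * Nm G X l (P x) (P y) =
        ∑ v, ∑ v', sig v * sig v' *
          ∑ x, ∑ y, q (a i) v x * q (a i') v' y * Nm G X l (P x) (P y) := by
      intro a
      exact avg_two (fun _ : Fin 3 => sig) j j' hjj (fun _ _ _ => hs1)
        (fun v v' => ∑ x, ∑ y, q (a i) v x * q (a i') v' y * Nm G X l (P x) (P y))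
    simp only [e2]
    have e3 := avg_two (fun _ : Fin 3 => rho) i i' hii (fun _ _ _ => hr1)
        (fun u u' => ∑ v, ∑ v', sig v * sig v' *
          ∑ x, ∑ y, q u v x * q u' v' y * Nm G X l (P x) (P y))
    rw [e3]
    have e4 : ∀ x y, Q x * Q y * Nm G X l (P x) (P y) =
        ∑ u, ∑ u', ∑ v, ∑ v', rho u * rho u' * (sig v * sig v' *
          (q u v x * q u' v' y * Nm G X l (P x) (P y))) := by
      intro x y
      rw [hQ x, hQ y, Finset.sum_mul_sum, Finset.sum_mul]
      apply Finset.sum_congr rfl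
      intro u _
      rw [Finset.sum_mul]
      apply Finset.sum_congr rfl
      intro u' _
      rw [Finset.sum_mul_sum, Finset.sum_mul]
      apply Finset.sum_congr rfl
      intro v _
      rw [Finset.sum_mul]
      apply Finset.sum_congr rfl
      intro v' _
      ring
    simp only [e4, Finset.mul_sum]
    -- reorder the sums
    have c1 : ∀ (f : V → V → V → V → Om → Om → ℝ),
        ∑ u, ∑ u', ∑ v, ∑ v', ∑ x, ∑ y, f u u' v v' x y =
        ∑ x, ∑ y, ∑ u, ∑ u', ∑ v, ∑ v', f u u' v v' x y := by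
      intro f
      have d1 : ∀ u u' v, ∑ v', ∑ x, ∑ y, f u u' v v' x y = ∑ x, ∑ y, ∑ v', f u u' v v' x y := by
        intro u u' v
        rw [Finset.sum_comm]
        apply Finset.sum_congr rfl; intro x _
        rw [Finset.sum_comm]
      have d2 : ∀ u u', ∑ v, ∑ x, ∑ y, ∑ v', f u u' v v' x y =
          ∑ x, ∑ y, ∑ v, ∑ v', f u u' v v' x y := by
        intro u u'
        rw [Finset.sum_comm]
        apply Finset.sum_congr rfl; intro x _
        rw [Finset.sum_comm]
      have d3 : ∀ u, ∑ u', ∑ x, ∑ y, ∑ v, ∑ v', f u u' v v' x y =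
          ∑ x, ∑ y, ∑ u', ∑ v, ∑ v', f u u' v v' x y := by
        intro u
        rw [Finset.sum_comm]
        apply Finset.sum_congr rfl; intro x _
        rw [Finset.sum_comm]
      simp only [d1, d2, d3]
      rw [Finset.sum_comm]
      apply Finset.sum_congr rfl; intro x _
      rw [Finset.sum_comm]
    exact c1 (fun u u' v v' x y => rho u * rho u' * (sig v * sig v' *
          (q u v x * q u' v' y * Nm G X l (P x) (P y))))
  -- pointwise bound
  have hpt : ∀ a b w, Wt a b w ≤ ∑ t ∈ T, Wt a b w *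
      Nm G X l (P (w (t.1, t.2.2.1))) (P (w (t.2.1, t.2.2.2))) := by
    intro a b w
    by_cases h0 : Wt a b w = 0
    · simp [h0]
    · have hq : ∀ i j, q (a i) (b j) (w (i, j)) ≠ 0 := by
        intro i j h1
        apply h0
        have h2 : (∏ e : Fin 3 × Fin 3, q (a e.1) (b e.2) (w e)) = 0 :=
          Finset.prod_eq_zero (Finset.mem_univ (i, j)) h1
        simp only [hWt]
        rw [h2, mul_zero, mul_zero]
      obtain ⟨i, i', j, j', hi, hj, hm⟩ := h l a b (fun i j => P (w (i, j)))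
        (fun i j => (hqs _ _ _ (hq i j)).2.1) (fun i j => (hqs _ _ _ (hq i j)).2.2)
        (fun i j => (hqs _ _ _ (hq i j)).1)
      have h1 := avg_Nm_one G X l _ _ hm
      have hmem : ((i, i', j, j') : Fin 3 × Fin 3 × Fin 3 × Fin 3) ∈ T :=
        Finset.mem_filter.2 ⟨Finset.mem_univ _, hi, hj⟩
      have h2 := Finset.single_le_sum (f := fun t : Fin 3 × Fin 3 × Fin 3 × Fin 3 => Wt a b w *
        Nm G X l (P (w (t.1, t.2.2.1))) (P (w (t.2.1, t.2.2.2)))) (s := T)
        (fun t _ => mul_nonneg (hW0 a b w) (avg_Nm_nonneg G X l _ _)) hmem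
      refine le_trans ?_ h2
      simp only
      exact le_mul_of_one_le_right (hW0 a b w) h1
  calc (1 : ℝ) = ∑ a, ∑ b, ∑ w, Wt a b w := htot.symm
    _ ≤ ∑ a, ∑ b, ∑ w, ∑ t ∈ T, Wt a b w *
      Nm G X l (P (w (t.1, t.2.2.1))) (P (w (t.2.1, t.2.2.2))) := by
        refine Finset.sum_le_sum fun a _ => Finset.sum_le_sum fun b _ =>
          Finset.sum_le_sum fun w _ => hpt a b w
    _ = ∑ t ∈ T, ∑ a, ∑ b, ∑ w, Wt a b w *
      Nm G X l (P (w (t.1, t.2.2.1))) (P (w (t.2.1, t.2.2.2))) := by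
        have d1 : ∀ a b, ∑ w, ∑ t ∈ T, Wt a b w *
            Nm G X l (P (w (t.1, t.2.2.1))) (P (w (t.2.1, t.2.2.2))) = ∑ t ∈ T, ∑ w, Wt a b w *
            Nm G X l (P (w (t.1, t.2.2.1))) (P (w (t.2.1, t.2.2.2))) :=
          fun a b => Finset.sum_comm
        have d2 : ∀ a, ∑ b, ∑ t ∈ T, ∑ w, Wt a b w *
            Nm G X l (P (w (t.1, t.2.2.1))) (P (w (t.2.1, t.2.2.2))) = ∑ t ∈ T, ∑ b, ∑ w,
            Wt a b w * Nm G X l (P (w (t.1, t.2.2.1))) (P (w (t.2.1, t.2.2.2))) :=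
          fun a => Finset.sum_comm
        simp only [d1, d2]
        exact Finset.sum_comm
    _ = 36 * ∑ w, ∑ w', Q w * Q w' * Nm G X l (P w) (P w') := by
        rw [Finset.sum_congr rfl hone, Finset.sum_const, hTc, nsmul_eq_mul]
        norm_num

end NGR
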