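import Pool.Agent.NGR.Defs

open Finset
open scoped Classical

noncomputable section

namespace NGR

variable {V : Type} [Fintype V]

theorem chee_deg (G : SimpleGraph V) (u : V) (a : ℝ) :
    ∑ v, (if G.Adj u v then a else 0) = (dg G u : ℝ) * a := by
  rw [← Finset.sum_filter, Finset.sum_const, nsmul_eq_mul]
  rfl

theorem chee_swap (G : SimpleGraph V) (F : V → V → ℝ) :
    ∑ u, ∑ v, (if G.Adj u v then F u v else 0) = ∑ u, ∑ v, (if G.Adj u v then F v u else 0) := by
  rw [Finset.sum_comm]
  apply Finset.sum_congr rfl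
  intro u _
  apply Finset.sum_congr rfl
  intro v _
  simp only [G.adj_comm]

theorem chee_cut (G : SimpleGraph V) (S : Finset V) :
    (cut G S : ℝ) = ∑ u, ∑ v, (if G.Adj u v then (if u ∈ S ∧ v ∉ S then (1:ℝ) else 0) else 0) := by
  unfold cut
  push_cast
  rw [← Finset.sum_subset (Finset.subset_univ S)]
  · apply Finset.sum_congr rfl
    intro u hu
    rw [Finset.card_filter]
    push_cast
    apply Finset.sum_congr rfl
    intro v _
    by_cases h1 : G.Adj u v <;> by_cases h2 : v ∈ S <;> simp [h1, h2, hu]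
  · intro u _ hu
    apply Finset.sum_eq_zero
    intro v _
    simp [hu]

theorem chee_vol (G : SimpleGraph V) (S : Finset V) :
    (vol G S : ℝ) = ∑ u, (dg G u : ℝ) * (if u ∈ S then (1:ℝ) else 0) := by
  unfold vol
  push_cast
  simp only [mul_ite, mul_one, mul_zero]
  rw [← Finset.sum_filter]
  congr 1
  ext x
  simp

/-- layer cake -/
theorem chee_layer (G : SimpleGraph V) (φ : ℝ)
    (hc : ∀ S : Finset V, 0 < vol G S → 2 * vol G S ≤ darts G →
      φ * (vol G S : ℝ) ≤ (cut G S : ℝ)) (n : ℕ) :
    ∀ (h : V → ℝ), (∀ u, 0 ≤ h u) → 2 * vol G (univ.filter (fun u => 0 < h u)) ≤ darts G →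
    (univ.filter (fun u => 0 < h u)).card ≤ n →
    φ * ∑ u, (dg G u : ℝ) * h u ≤ ∑ u, ∑ v, (if G.Adj u v then max (h u - h v) 0 else 0) := by
  induction n with
  | zero =>
    intro h hh hv hn
    have h0 : ∀ u, h u = 0 := by
      intro u
      by_contra hne
      have hpos : 0 < h u := lt_of_le_of_ne (hh u) (Ne.symm hne)
      have : u ∈ univ.filter (fun u => 0 < h u) := by simp [hpos]
      have := Finset.card_pos.mpr ⟨u, this⟩
      omega
    simp [h0]
  | succ n ih =>
    intro h hh hv hn
    set S := univ.filter (fun u => 0 < h u) with hS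
    by_cases hSe : S.Nonempty
    · obtain ⟨u0, hu0, hmin⟩ := Finset.exists_min_image S h hSe
      have hm : 0 < h u0 := by
        have := hu0
        rw [hS] at this
        simpa using this
      set m := h u0 with hmdef
      obtain ⟨h', hh'⟩ : ∃ h' : V → ℝ, h' = fun u => if u ∈ S then h u - m else 0 := ⟨_, rfl⟩
      have hSmem : ∀ u, u ∈ S ↔ 0 < h u := by
        intro u
        rw [hS]
        simp
      have hz : ∀ u, u ∉ S → h u = 0 := by
        intro u hu
        rw [hSmem] at hu
        exact le_antisymm (not_lt.mp hu) (hh u)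
      have hval1 : ∀ u, u ∈ S → h' u = h u - m := by
        intro u hu
        rw [hh']
        exact if_pos hu
      have hval0 : ∀ u, u ∉ S → h' u = 0 := by
        intro u hu
        rw [hh']
        exact if_neg hu
      have hh0 : ∀ u, 0 ≤ h' u := by
        intro u
        rw [hh']
        simp only
        split_ifs with hu
        · have := hmin u hu
          linarith
        · exact le_rfl
      have hsub : univ.filter (fun u => 0 < h' u) ⊆ S.erase u0 := by
        intro u hu
        rw [Finset.mem_filter] at hu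
        have h1 := hu.2
        rw [hh'] at h1
        simp only at h1
        by_cases hu2 : u ∈ S
        · rw [if_pos hu2] at h1
          rw [Finset.mem_erase]
          refine ⟨?_, hu2⟩
          rintro rfl
          rw [hmdef] at h1
          linarith
        · rw [if_neg hu2] at h1
          exact absurd h1 (lt_irrefl _)
      have hcard : (univ.filter (fun u => 0 < h' u)).card ≤ n := by
        have h1 := Finset.card_le_card hsub
        rw [Finset.card_erase_of_mem hu0] at h1
        omega
      have hvol' : 2 * vol G (univ.filter (fun u => 0 < h' u)) ≤ darts G := by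
        refine le_trans ?_ hv
        apply Nat.mul_le_mul le_rfl
        unfold vol
        apply Finset.sum_le_sum_of_subset
        exact hsub.trans (Finset.erase_subset _ _)
      have hih := ih h' hh0 hvol' hcard
      -- decompositions
      have e1 : ∑ u, (dg G u : ℝ) * h u = (∑ u, (dg G u : ℝ) * h' u) + m * (vol G S : ℝ) := by
        rw [chee_vol, Finset.mul_sum, ← Finset.sum_add_distrib]
        apply Finset.sum_congr rfl
        intro u _
        rw [hh']
        simp only
        by_cases hu : u ∈ S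
        · rw [if_pos hu, if_pos hu]; ring
        · rw [if_neg hu, if_neg hu, hz u hu]; ring
      have e2 : (∑ u, ∑ v, (if G.Adj u v then max (h u - h v) 0 else 0)) =
          (∑ u, ∑ v, (if G.Adj u v then max (h' u - h' v) 0 else 0)) + m * (cut G S : ℝ) := by
        rw [chee_cut, Finset.mul_sum, ← Finset.sum_add_distrib]
        apply Finset.sum_congr rfl
        intro u _
        rw [Finset.mul_sum, ← Finset.sum_add_distrib]
        apply Finset.sum_congr rfl
        intro v _
        by_cases hadj : G.Adj u v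
        · rw [if_pos hadj, if_pos hadj, if_pos hadj]
          by_cases hu : u ∈ S
          · by_cases hv2 : v ∈ S
            · have hind : (if u ∈ S ∧ v ∉ S then (1:ℝ) else 0) = 0 := if_neg (fun h => h.2 hv2)
              rw [hind, hval1 u hu, hval1 v hv2]
              have : h u - m - (h v - m) = h u - h v := by ring
              rw [this]; ring
            · have hind : (if u ∈ S ∧ v ∉ S then (1:ℝ) else 0) = 1 := if_pos ⟨hu, hv2⟩
              rw [hind, hval1 u hu, hval0 v hv2, hz v hv2]
              have h1 := hmin u hu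
              rw [max_eq_left (by linarith), max_eq_left (by linarith)]
              ring
          · have hind : (if u ∈ S ∧ v ∉ S then (1:ℝ) else 0) = 0 := if_neg (fun h => hu h.1)
            rw [hind, hval0 u hu, hz u hu]
            have h1 : (0:ℝ) - h v ≤ 0 := by linarith [hh v]
            have h2 : (0:ℝ) - h' v ≤ 0 := by linarith [hh0 v]
            rw [max_eq_right h1, max_eq_right h2]
            ring
        · rw [if_neg hadj, if_neg hadj, if_neg hadj]
          ring
      rw [e1, e2]
      have e3 : φ * (vol G S : ℝ) ≤ (cut G S : ℝ) := by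
        rcases Nat.eq_zero_or_pos (vol G S) with h0 | h0
        · rw [h0]
          simp
        · exact hc S h0 hv
      have e4 : φ * (m * (vol G S : ℝ)) ≤ m * (cut G S : ℝ) := by
        calc φ * (m * (vol G S : ℝ)) = m * (φ * (vol G S : ℝ)) := by ring
          _ ≤ m * (cut G S : ℝ) := mul_le_mul_of_nonneg_left e3 hm.le
      rw [mul_add]
      linarith
    · rw [Finset.not_nonempty_iff_eq_empty] at hSe
      apply ih h hh hv
      rw [← hS, hSe]
      simp

theorem chee_sq (G : SimpleGraph V) (g : V → ℝ) :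
    ∑ u, ∑ v, (if G.Adj u v then (g u + g v) ^ 2 else 0) ≤ 4 * ∑ u, (dg G u : ℝ) * g u ^ 2 := by
  have h1 : ∑ u, ∑ v, (if G.Adj u v then (g u + g v) ^ 2 else 0) ≤
      ∑ u, ∑ v, ((if G.Adj u v then 2 * g u ^ 2 else 0) + (if G.Adj u v then 2 * g v ^ 2 else 0)) := by
    apply Finset.sum_le_sum
    intro u _
    apply Finset.sum_le_sum
    intro v _
    by_cases h : G.Adj u v
    · rw [if_pos h, if_pos h, if_pos h]
      nlinarith [sq_nonneg (g u - g v)]
    · rw [if_neg h, if_neg h, if_neg h]
      simp
  refine h1.trans (le_of_eq ?_)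
  simp only [Finset.sum_add_distrib]
  have h2 : ∑ u, ∑ v, (if G.Adj u v then 2 * g v ^ 2 else 0) =
      ∑ u, ∑ v, (if G.Adj u v then 2 * g u ^ 2 else 0) := chee_swap G (fun _ v => 2 * g v ^ 2)
  rw [h2]
  have h3 : ∑ u, ∑ v, (if G.Adj u v then 2 * g u ^ 2 else 0) =
      2 * ∑ u, (dg G u : ℝ) * g u ^ 2 := by
    rw [Finset.mul_sum]
    apply Finset.sum_congr rfl
    intro u _
    rw [chee_deg]
    ring
  rw [h3]
  ring

/-- the nonnegative part -/
theorem chee_pos (G : SimpleGraph V) (φ : ℝ) (hφ : 0 ≤ φ)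
    (hc : ∀ S : Finset V, 0 < vol G S → 2 * vol G S ≤ darts G →
      φ * (vol G S : ℝ) ≤ (cut G S : ℝ))
    (g : V → ℝ) (hg : ∀ u, 0 ≤ g u) (hgv : 2 * vol G (univ.filter (fun u => 0 < g u)) ≤ darts G) :
    φ ^ 2 * ∑ u, (dg G u : ℝ) * g u ^ 2 ≤
      ∑ u, ∑ v, if G.Adj u v then (g u - g v) ^ 2 else 0 := by
  have hset : univ.filter (fun u => 0 < g u ^ 2) = univ.filter (fun u => 0 < g u) := by
    ext u
    simp only [Finset.mem_filter, Finset.mem_univ, true_and]
    constructor
    · intro h
      rcases eq_or_lt_of_le (hg u) with h1 | h1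
      · rw [← h1] at h
        simp at h
      · exact h1
    · intro h
      positivity
  have h1 := chee_layer G φ hc _ (fun u => g u ^ 2) (fun u => sq_nonneg _)
    (by rw [hset]; exact hgv) le_rfl
  -- symmetrize
  have h2 : ∑ u, ∑ v, (if G.Adj u v then |g u ^ 2 - g v ^ 2| else 0) =
      2 * ∑ u, ∑ v, (if G.Adj u v then max (g u ^ 2 - g v ^ 2) 0 else 0) := by
    have e1 : ∑ u, ∑ v, (if G.Adj u v then max (g u ^ 2 - g v ^ 2) 0 else 0) =
        ∑ u, ∑ v, (if G.Adj u v then max (g v ^ 2 - g u ^ 2) 0 else 0) :=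
      chee_swap G (fun u v => max (g u ^ 2 - g v ^ 2) 0)
    have e2 : ∑ u, ∑ v, (if G.Adj u v then |g u ^ 2 - g v ^ 2| else 0) =
        (∑ u, ∑ v, (if G.Adj u v then max (g u ^ 2 - g v ^ 2) 0 else 0)) +
        ∑ u, ∑ v, (if G.Adj u v then max (g v ^ 2 - g u ^ 2) 0 else 0) := by
      rw [← Finset.sum_add_distrib]
      apply Finset.sum_congr rfl
      intro u _
      rw [← Finset.sum_add_distrib]
      apply Finset.sum_congr rfl
      intro v _
      by_cases h : G.Adj u v
      · rw [if_pos h, if_pos h, if_pos h]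
        rcases le_total (g u ^ 2) (g v ^ 2) with h3 | h3
        · rw [abs_of_nonpos (by linarith), max_eq_right (by linarith), max_eq_left (by linarith)]
          ring
        · rw [abs_of_nonneg (by linarith), max_eq_left (by linarith), max_eq_right (by linarith)]
          ring
      · rw [if_neg h, if_neg h, if_neg h]
        ring
    rw [e2, ← e1]
    ring
  have h3 : φ * ∑ u, ∑ v, (if G.Adj u v then |g u ^ 2 - g v ^ 2| else 0) ≤
      (∑ u, ∑ v, if G.Adj u v then (g u - g v) ^ 2 else 0) +
      φ ^ 2 / 4 * ∑ u, ∑ v, (if G.Adj u v then (g u + g v) ^ 2 else 0) := by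
    rw [Finset.mul_sum, Finset.mul_sum, ← Finset.sum_add_distrib]
    apply Finset.sum_le_sum
    intro u _
    rw [Finset.mul_sum, Finset.mul_sum, ← Finset.sum_add_distrib]
    apply Finset.sum_le_sum
    intro v _
    by_cases h : G.Adj u v
    · rw [if_pos h, if_pos h, if_pos h]
      have e1 : g u ^ 2 - g v ^ 2 = (g u - g v) * (g u + g v) := by ring
      have e2 : |g u ^ 2 - g v ^ 2| = |g u - g v| * (g u + g v) := by
        rw [e1, abs_mul, abs_of_nonneg (add_nonneg (hg u) (hg v))]
      rw [e2]
      have e3 := sq_nonneg (|g u - g v| - φ / 2 * (g u + g v))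
      have e4 : |g u - g v| ^ 2 = (g u - g v) ^ 2 := sq_abs _
      nlinarith
    · rw [if_neg h, if_neg h, if_neg h]
      simp
  have h4 := chee_sq G g
  have h5 : φ ^ 2 / 4 * ∑ u, ∑ v, (if G.Adj u v then (g u + g v) ^ 2 else 0) ≤
      φ ^ 2 * ∑ u, (dg G u : ℝ) * g u ^ 2 := by
    have e0 : (0:ℝ) ≤ φ ^ 2 / 4 := by positivity
    calc φ ^ 2 / 4 * ∑ u, ∑ v, (if G.Adj u v then (g u + g v) ^ 2 else 0)
        ≤ φ ^ 2 / 4 * (4 * ∑ u, (dg G u : ℝ) * g u ^ 2) := mul_le_mul_of_nonneg_left h4 e0
      _ = φ ^ 2 * ∑ u, (dg G u : ℝ) * g u ^ 2 := by ring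
  have h6 : φ * (φ * ∑ u, (dg G u : ℝ) * g u ^ 2) ≤
      φ * ∑ u, ∑ v, (if G.Adj u v then max (g u ^ 2 - g v ^ 2) 0 else 0) :=
    mul_le_mul_of_nonneg_left h1 hφ
  rw [h2] at h3
  have h7 : φ * (φ * ∑ u, (dg G u : ℝ) * g u ^ 2) = φ ^ 2 * ∑ u, (dg G u : ℝ) * g u ^ 2 := by ring
  rw [h7] at h6
  have h8 : φ * (2 * ∑ u, ∑ v, (if G.Adj u v then max (g u ^ 2 - g v ^ 2) 0 else 0)) =
    2 * (φ * ∑ u, ∑ v, (if G.Adj u v then max (g u ^ 2 - g v ^ 2) 0 else 0)) := by ring
  rw [h8] at h3
  linarith

/-- a median -/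
theorem chee_median (G : SimpleGraph V) (f : V → ℝ) (hne : Nonempty V) :
    ∃ c : ℝ, 2 * vol G (univ.filter (fun u => c < f u)) ≤ darts G ∧
      2 * vol G (univ.filter (fun u => f u < c)) ≤ darts G := by
  set T := (univ.image f).filter (fun c => 2 * vol G (univ.filter (fun u => c < f u)) ≤ darts G)
    with hT
  have hTn : T.Nonempty := by
    obtain ⟨u0, -, hu0⟩ := Finset.exists_max_image (univ : Finset V) f ⟨hne.some, Finset.mem_univ _⟩
    refine ⟨f u0, ?_⟩
    rw [hT, Finset.mem_filter]
    refine ⟨Finset.mem_image_of_mem f (Finset.mem_univ _), ?_⟩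
    have : univ.filter (fun u => f u0 < f u) = ∅ := by
      ext u
      simp only [Finset.mem_filter, Finset.mem_univ, true_and, Finset.notMem_empty, iff_false,
        not_lt]
      exact hu0 u (Finset.mem_univ _)
    rw [this]
    simp [vol]
  set c := T.min' hTn with hcdef
  have hcT : c ∈ T := Finset.min'_mem T hTn
  have hc1 : 2 * vol G (univ.filter (fun u => c < f u)) ≤ darts G := by
    rw [hT, Finset.mem_filter] at hcT
    exact hcT.2
  refine ⟨c, hc1, ?_⟩
  by_contra hlt
  push Not at hlt
  have hSn : (univ.filter (fun u => f u < c)).Nonempty := by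
    rw [Finset.nonempty_iff_ne_empty]
    intro h0
    rw [h0] at hlt
    simp [vol] at hlt
  obtain ⟨u1, hu1, hmax⟩ := Finset.exists_max_image _ f hSn
  have hu1c : f u1 < c := by simpa using hu1
  have hnT : f u1 ∉ T := by
    intro h
    have := Finset.min'_le T _ h
    rw [← hcdef] at this
    linarith
  have hbig : darts G < 2 * vol G (univ.filter (fun u => f u1 < f u)) := by
    rw [hT, Finset.mem_filter] at hnT
    by_contra h
    push Not at h
    exact hnT ⟨Finset.mem_image_of_mem f (Finset.mem_univ _), h⟩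
  have hdisj : Disjoint (univ.filter (fun u => f u1 < f u)) (univ.filter (fun u => f u < c)) := by
    rw [Finset.disjoint_left]
    intro u hu hu'
    have h1 : f u1 < f u := by simpa using hu
    have h2 := hmax u hu'
    linarith
  have hsum : vol G (univ.filter (fun u => f u1 < f u)) + vol G (univ.filter (fun u => f u < c)) ≤
      darts G := by
    unfold vol darts
    rw [← Finset.sum_union hdisj]
    exact Finset.sum_le_sum_of_subset (Finset.subset_univ _)
  omega

/-- CHEE: Cheeger / Poincare inequality. -/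
theorem cheeger (G : SimpleGraph V) (φ : ℝ) (hφ : 0 ≤ φ)
    (hc : ∀ S : Finset V, 0 < vol G S → 2 * vol G S ≤ darts G →
      φ * (vol G S : ℝ) ≤ (cut G S : ℝ))
    (f : V → ℝ) (hf : ∑ u, (dg G u : ℝ) * f u = 0) :
    φ ^ 2 * ∑ u, (dg G u : ℝ) * f u ^ 2 ≤
      ∑ u, ∑ v, if G.Adj u v then (f u - f v) ^ 2 else 0 := by
  rcases isEmpty_or_nonempty V with hV | hV
  · simp
  obtain ⟨c, hc1, hc2⟩ := chee_median G f hV
  have h1 := chee_pos G φ hφ hc (fun u => max (f u - c) 0) (fun u => le_max_right _ _) (by
    have : univ.filter (fun u => 0 < max (f u - c) 0) = univ.filter (fun u => c < f u) := by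
      ext u
      simp
    rw [this]
    exact hc1)
  have h2 := chee_pos G φ hφ hc (fun u => max (c - f u) 0) (fun u => le_max_right _ _) (by
    have : univ.filter (fun u => 0 < max (c - f u) 0) = univ.filter (fun u => f u < c) := by
      ext u
      simp
    rw [this]
    exact hc2)
  have h3 : (∑ u, ∑ v, if G.Adj u v then (max (f u - c) 0 - max (f v - c) 0) ^ 2 else 0) +
      (∑ u, ∑ v, if G.Adj u v then (max (c - f u) 0 - max (c - f v) 0) ^ 2 else 0) ≤
      ∑ u, ∑ v, if G.Adj u v then (f u - f v) ^ 2 else 0 := by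
    rw [← Finset.sum_add_distrib]
    apply Finset.sum_le_sum
    intro u _
    rw [← Finset.sum_add_distrib]
    apply Finset.sum_le_sum
    intro v _
    by_cases h : G.Adj u v
    · rw [if_pos h, if_pos h, if_pos h]
      rcases le_total (f u) c with hu | hu <;> rcases le_total (f v) c with hv | hv
      · rw [max_eq_right (by linarith : f u - c ≤ 0), max_eq_right (by linarith : f v - c ≤ 0),
          max_eq_left (by linarith : 0 ≤ c - f u), max_eq_left (by linarith : 0 ≤ c - f v)]
        apply le_of_eq; ring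
      · rw [max_eq_right (by linarith : f u - c ≤ 0), max_eq_left (by linarith : 0 ≤ f v - c),
          max_eq_left (by linarith : 0 ≤ c - f u), max_eq_right (by linarith : c - f v ≤ 0)]
        nlinarith [mul_nonneg (by linarith : 0 ≤ f v - c) (by linarith : 0 ≤ c - f u)]
      · rw [max_eq_left (by linarith : 0 ≤ f u - c), max_eq_right (by linarith : f v - c ≤ 0),
          max_eq_right (by linarith : c - f u ≤ 0), max_eq_left (by linarith : 0 ≤ c - f v)]
        nlinarith [mul_nonneg (by linarith : 0 ≤ f u - c) (by linarith : 0 ≤ c - f v)]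
      · rw [max_eq_left (by linarith : 0 ≤ f u - c), max_eq_left (by linarith : 0 ≤ f v - c),
          max_eq_right (by linarith : c - f u ≤ 0), max_eq_right (by linarith : c - f v ≤ 0)]
        apply le_of_eq; ring
    · rw [if_neg h, if_neg h, if_neg h]
      simp
  have h4 : ∑ u, (dg G u : ℝ) * f u ^ 2 ≤ (∑ u, (dg G u : ℝ) * (max (f u - c) 0) ^ 2) +
      ∑ u, (dg G u : ℝ) * (max (c - f u) 0) ^ 2 := by
    have e1 : (∑ u, (dg G u : ℝ) * (max (f u - c) 0) ^ 2) +
      ∑ u, (dg G u : ℝ) * (max (c - f u) 0) ^ 2 = ∑ u, (dg G u : ℝ) * (f u - c) ^ 2 := by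
      rw [← Finset.sum_add_distrib]
      apply Finset.sum_congr rfl
      intro u _
      rcases le_total (f u) c with hu | hu
      · rw [max_eq_right (by linarith : f u - c ≤ 0), max_eq_left (by linarith : 0 ≤ c - f u)]
        ring
      · rw [max_eq_left (by linarith : 0 ≤ f u - c), max_eq_right (by linarith : c - f u ≤ 0)]
        ring
    have e2 : ∑ u, (dg G u : ℝ) * (f u - c) ^ 2 = (∑ u, (dg G u : ℝ) * f u ^ 2) -
        2 * c * (∑ u, (dg G u : ℝ) * f u) + ∑ u, (dg G u : ℝ) * c ^ 2 := by
      rw [Finset.mul_sum, ← Finset.sum_sub_distrib, ← Finset.sum_add_distrib]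
      apply Finset.sum_congr rfl
      intro u _
      ring
    rw [e1, e2, hf]
    have e3 : 0 ≤ ∑ u, (dg G u : ℝ) * c ^ 2 := Finset.sum_nonneg fun u _ => by positivity
    linarith
  have h5 := mul_le_mul_of_nonneg_left h4 (sq_nonneg φ)
  rw [mul_add] at h5
  linarith

end NGR
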