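import Pool.Agent.NGR.Chee

open Finset
open scoped Classical

noncomputable section

namespace NGR

variable {V : Type} [Fintype V]

/-- one step of the walk acting on functions -/
def mixwP (G : SimpleGraph V) (f : V → ℝ) (u : V) : ℝ := ∑ v, pk G u v * f v

theorem mixw_P_pos (G : SimpleGraph V) (f : V → ℝ) (u : V) (hu : dg G u ≠ 0) :
    (dg G u : ℝ) * mixwP G f u = ∑ v, (if G.Adj u v then (f u + f v) / 2 else 0) := by
  have hd : (dg G u : ℝ) ≠ 0 := by exact_mod_cast hu
  have h1 : mixwP G f u = f u / 2 + ∑ v, (if G.Adj u v then f v / (2 * (dg G u : ℝ)) else 0) := by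
    unfold mixwP pk
    have h2 : ∀ v, (if dg G u = 0 then (if v = u then (1:ℝ) else 0)
        else (if v = u then 1 / 2 else 0) + (if G.Adj u v then 1 / (2 * (dg G u : ℝ)) else 0)) * f v
        = (if v = u then f u / 2 else 0) + (if G.Adj u v then f v / (2 * (dg G u : ℝ)) else 0) := by
      intro v
      rw [if_neg hu, add_mul]
      congr 1
      · by_cases h : v = u
        · rw [if_pos h, if_pos h, h]; ring
        · rw [if_neg h, if_neg h]; ring
      · by_cases h : G.Adj u v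
        · rw [if_pos h, if_pos h]; ring
        · rw [if_neg h, if_neg h]; ring
    rw [Finset.sum_congr rfl (fun v _ => h2 v), Finset.sum_add_distrib,
      Finset.sum_ite_eq' Finset.univ u (fun _ => f u / 2)]
    simp
  rw [h1, mul_add, Finset.mul_sum]
  have h3 : ∑ v, (if G.Adj u v then (f u + f v) / 2 else 0) =
      (∑ v, (if G.Adj u v then f u / 2 else 0)) + ∑ v, (if G.Adj u v then f v / 2 else 0) := by
    rw [← Finset.sum_add_distrib]
    apply Finset.sum_congr rfl
    intro v _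
    by_cases h : G.Adj u v
    · rw [if_pos h, if_pos h, if_pos h]; ring
    · rw [if_neg h, if_neg h, if_neg h]; ring
  rw [h3, chee_deg]
  congr 1
  apply Finset.sum_congr rfl
  intro v _
  by_cases h : G.Adj u v
  · rw [if_pos h, if_pos h]
    field_simp
  · rw [if_neg h, if_neg h]; ring

theorem mixw_adj_zero (G : SimpleGraph V) (u : V) (hu : dg G u = 0) (v : V) : ¬ G.Adj u v := by
  intro h
  unfold dg at hu
  rw [Finset.card_eq_zero] at hu
  have : v ∈ univ.filter (fun w => G.Adj u w) := by simp [h]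
  rw [hu] at this
  simp at this

theorem mixw_P_all (G : SimpleGraph V) (f : V → ℝ) (u : V) :
    (dg G u : ℝ) * mixwP G f u = ∑ v, (if G.Adj u v then (f u + f v) / 2 else 0) := by
  by_cases hu : dg G u = 0
  · rw [hu]
    simp only [Nat.cast_zero, zero_mul]
    symm
    apply Finset.sum_eq_zero
    intro v _
    rw [if_neg (mixw_adj_zero G u hu v)]
  · exact mixw_P_pos G f u hu

theorem mixw_stat (G : SimpleGraph V) (f : V → ℝ) :
    ∑ u, (dg G u : ℝ) * mixwP G f u = ∑ u, (dg G u : ℝ) * f u := by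
  rw [Finset.sum_congr rfl (fun u _ => mixw_P_all G f u)]
  have h3 : ∑ u, ∑ v, (if G.Adj u v then (f u + f v) / 2 else 0) =
      (∑ u, ∑ v, (if G.Adj u v then f u / 2 else 0)) +
      ∑ u, ∑ v, (if G.Adj u v then f v / 2 else 0) := by
    rw [← Finset.sum_add_distrib]
    apply Finset.sum_congr rfl
    intro u _
    rw [← Finset.sum_add_distrib]
    apply Finset.sum_congr rfl
    intro v _
    by_cases h : G.Adj u v
    · rw [if_pos h, if_pos h, if_pos h]; ring
    · rw [if_neg h, if_neg h, if_neg h]; ring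
  have h4 : ∑ u, ∑ v, (if G.Adj u v then f v / 2 else 0) =
      ∑ u, ∑ v, (if G.Adj u v then f u / 2 else 0) := chee_swap G (fun _ v => f v / 2)
  rw [h3, h4, ← Finset.sum_add_distrib]
  apply Finset.sum_congr rfl
  intro u _
  rw [chee_deg]
  ring

theorem mixw_contr (G : SimpleGraph V) (f : V → ℝ) :
    ∑ u, (dg G u : ℝ) * mixwP G f u ^ 2 ≤ (∑ u, (dg G u : ℝ) * f u ^ 2) -
      (1 / 4) * ∑ u, ∑ v, (if G.Adj u v then (f u - f v) ^ 2 else 0) := by
  have h1 : ∀ u, (dg G u : ℝ) * mixwP G f u ^ 2 ≤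
      ∑ v, (if G.Adj u v then ((f u + f v) / 2) ^ 2 else 0) := by
    intro u
    by_cases hu : dg G u = 0
    · rw [hu]
      simp only [Nat.cast_zero, zero_mul]
      apply Finset.sum_nonneg
      intro v _
      split_ifs
      · positivity
      · exact le_rfl
    · have hd : (0:ℝ) < dg G u := by exact_mod_cast Nat.pos_of_ne_zero hu
      have h2 := sq_sum_le_card_mul_sum_sq (s := univ.filter (fun w => G.Adj u w))
        (f := fun v => (f u + f v) / 2)
      have h3 := mixw_P_all G f u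
      rw [← Finset.sum_filter] at h3
      rw [← Finset.sum_filter]
      rw [← h3] at h2
      have h4 : ((univ.filter (fun w => G.Adj u w)).card : ℝ) = dg G u := rfl
      rw [h4] at h2
      have h5 : (dg G u : ℝ) * ((dg G u : ℝ) * mixwP G f u ^ 2) ≤
          (dg G u : ℝ) * ∑ v ∈ univ.filter (fun w => G.Adj u w), ((f u + f v) / 2) ^ 2 := by
        calc (dg G u : ℝ) * ((dg G u : ℝ) * mixwP G f u ^ 2) =
              ((dg G u : ℝ) * mixwP G f u) ^ 2 := by ring
          _ ≤ _ := h2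
      exact le_of_mul_le_mul_left h5 hd
  refine (Finset.sum_le_sum fun u _ => h1 u).trans (le_of_eq ?_)
  have h2 : ∑ u, ∑ v, (if G.Adj u v then ((f u + f v) / 2) ^ 2 else 0) =
      (∑ u, ∑ v, (if G.Adj u v then f u ^ 2 / 2 else 0)) +
      (∑ u, ∑ v, (if G.Adj u v then f v ^ 2 / 2 else 0)) -
      (1 / 4) * ∑ u, ∑ v, (if G.Adj u v then (f u - f v) ^ 2 else 0) := by
    rw [Finset.mul_sum, ← Finset.sum_add_distrib, ← Finset.sum_sub_distrib]
    apply Finset.sum_congr rfl
    intro u _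
    rw [Finset.mul_sum, ← Finset.sum_add_distrib, ← Finset.sum_sub_distrib]
    apply Finset.sum_congr rfl
    intro v _
    by_cases h : G.Adj u v
    · rw [if_pos h, if_pos h, if_pos h, if_pos h]; ring
    · rw [if_neg h, if_neg h, if_neg h, if_neg h]; ring
  have h4 : ∑ u, ∑ v, (if G.Adj u v then f v ^ 2 / 2 else 0) =
      ∑ u, ∑ v, (if G.Adj u v then f u ^ 2 / 2 else 0) := chee_swap G (fun _ v => f v ^ 2 / 2)
  rw [h2, h4]
  congr 1
  rw [← Finset.sum_add_distrib]
  apply Finset.sum_congr rfl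
  intro u _
  rw [chee_deg]
  ring

theorem mixw_pk_nonneg (G : SimpleGraph V) (u v : V) : 0 ≤ pk G u v := by
  unfold pk
  split_ifs <;> positivity

theorem mixw_pkn_nonneg (G : SimpleGraph V) (n : ℕ) (x y : V) : 0 ≤ pkn G n x y := by
  induction n generalizing y with
  | zero =>
    unfold pkn
    split_ifs <;> norm_num
  | succ n ih =>
    unfold pkn
    exact Finset.sum_nonneg fun z _ => mul_nonneg (ih z) (mixw_pk_nonneg G z y)

theorem mixw_step (G : SimpleGraph V) (n : ℕ) (x : V) (f : V → ℝ) :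
    ∑ y, pkn G (n + 1) x y * f y = ∑ z, pkn G n x z * mixwP G f z := by
  have h1 : ∀ y, pkn G (n + 1) x y * f y = ∑ z, pkn G n x z * (pk G z y * f y) := by
    intro y
    change (∑ z, pkn G n x z * pk G z y) * f y = _
    rw [Finset.sum_mul]
    apply Finset.sum_congr rfl
    intro z _
    ring
  rw [Finset.sum_congr rfl (fun y _ => h1 y), Finset.sum_comm]
  apply Finset.sum_congr rfl
  intro z _
  unfold mixwP
  rw [Finset.mul_sum]

theorem mixw_P_one (G : SimpleGraph V) (u : V) : mixwP G (fun _ => 1) u = 1 := by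
  by_cases hu : dg G u = 0
  · unfold mixwP pk
    simp [hu]
  · have h1 := mixw_P_pos G (fun _ => 1) u hu
    have hd : (dg G u : ℝ) ≠ 0 := by exact_mod_cast hu
    have h2 : ∑ v, (if G.Adj u v then ((1:ℝ) + 1) / 2 else 0) = (dg G u : ℝ) * 1 := by
      rw [chee_deg]
      norm_num
    rw [h2] at h1
    exact mul_left_cancel₀ hd h1

theorem mixw_one (G : SimpleGraph V) (n : ℕ) (x : V) : ∑ y, pkn G n x y = 1 := by
  induction n with
  | zero =>
    unfold pkn
    simp
  | succ n ih =>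
    have h1 := mixw_step G n x (fun _ => 1)
    simp only [mul_one] at h1
    rw [h1]
    have h2 : ∀ z, pkn G n x z * mixwP G (fun _ => 1) z = pkn G n x z := by
      intro z
      rw [mixw_P_one, mul_one]
    rw [Finset.sum_congr rfl (fun z _ => h2 z)]
    exact ih

theorem mixw_decay (G : SimpleGraph V) (φ : ℝ) (hφ : 0 ≤ φ) (hφ1 : φ ≤ 1)
    (hc : ∀ S : Finset V, 0 < vol G S → 2 * vol G S ≤ darts G →
      φ * (vol G S : ℝ) ≤ (cut G S : ℝ)) (n : ℕ) :
    ∀ f : V → ℝ, (∑ u, (dg G u : ℝ) * f u = 0) →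
      ∑ x, (dg G x : ℝ) * (∑ y, pkn G n x y * f y) ^ 2 ≤
        (1 - φ ^ 2 / 4) ^ n * ∑ u, (dg G u : ℝ) * f u ^ 2 := by
  induction n with
  | zero =>
    intro f _
    have h1 : ∀ x, ∑ y, pkn G 0 x y * f y = f x := by
      intro x
      unfold pkn
      simp
    rw [pow_zero, one_mul]
    apply le_of_eq
    apply Finset.sum_congr rfl
    intro x _
    rw [h1 x]
  | succ n ih =>
    intro f hf
    have h1 : ∑ u, (dg G u : ℝ) * mixwP G f u = 0 := by rw [mixw_stat, hf]
    have h2 := ih (mixwP G f) h1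
    have h3 : ∀ x, (dg G x : ℝ) * (∑ y, pkn G (n + 1) x y * f y) ^ 2 =
        (dg G x : ℝ) * (∑ y, pkn G n x y * mixwP G f y) ^ 2 := by
      intro x
      rw [mixw_step]
    rw [Finset.sum_congr rfl (fun x _ => h3 x)]
    have h4 := mixw_contr G f
    have h5 := cheeger G φ hφ hc f hf
    have h6 : ∑ u, (dg G u : ℝ) * mixwP G f u ^ 2 ≤
        (1 - φ ^ 2 / 4) * ∑ u, (dg G u : ℝ) * f u ^ 2 := by
      have : (1 - φ ^ 2 / 4) * ∑ u, (dg G u : ℝ) * f u ^ 2 =
        (∑ u, (dg G u : ℝ) * f u ^ 2) - (1 / 4) * (φ ^ 2 * ∑ u, (dg G u : ℝ) * f u ^ 2) := by ring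
      rw [this]
      linarith
    have h7 : (0:ℝ) ≤ (1 - φ ^ 2 / 4) ^ n := by
      apply pow_nonneg
      have : φ ^ 2 ≤ 1 := pow_le_one₀ hφ hφ1
      linarith
    calc ∑ x, (dg G x : ℝ) * (∑ y, pkn G n x y * mixwP G f y) ^ 2
        ≤ (1 - φ ^ 2 / 4) ^ n * ∑ u, (dg G u : ℝ) * mixwP G f u ^ 2 := h2
      _ ≤ (1 - φ ^ 2 / 4) ^ n * ((1 - φ ^ 2 / 4) * ∑ u, (dg G u : ℝ) * f u ^ 2) :=
          mul_le_mul_of_nonneg_left h6 h7
      _ = (1 - φ ^ 2 / 4) ^ (n + 1) * ∑ u, (dg G u : ℝ) * f u ^ 2 := by ring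

/-- MIXW: the lazy random walk mixes. -/
theorem mixing (G : SimpleGraph V) (φ : ℝ) (hφ : 0 ≤ φ) (hφ1 : φ ≤ 1)
    (hc : ∀ S : Finset V, 0 < vol G S → 2 * vol G S ≤ darts G →
      φ * (vol G S : ℝ) ≤ (cut G S : ℝ))
    (l : ℕ) (hl : (darts G : ℝ) ^ 2 * (1 - φ ^ 2 / 4) ^ l ≤ 1 / 4)
    (x y : V) (hx : 0 < dg G x) (hM : 0 < darts G) :
    (dg G y : ℝ) / (2 * (darts G : ℝ)) ≤ pkn G l x y := by
  rcases Nat.eq_zero_or_pos (dg G y) with hy | hy
  · rw [hy]
    simp only [Nat.cast_zero, zero_div]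
    exact mixw_pkn_nonneg G l x y
  have hM' : (0:ℝ) < darts G := by exact_mod_cast hM
  have hy' : (1:ℝ) ≤ dg G y := by exact_mod_cast hy
  have hy0 : (0:ℝ) < dg G y := by linarith
  have hx' : (1:ℝ) ≤ dg G x := by exact_mod_cast hx
  have hMsum : (darts G : ℝ) = ∑ u, (dg G u : ℝ) := by
    unfold darts
    push_cast
    rfl
  obtain ⟨c, hc'⟩ : ∃ c : ℝ, c = (darts G : ℝ) / dg G y := ⟨_, rfl⟩
  have hcy : (dg G y : ℝ) * c = darts G := by
    rw [hc']
    field_simp
  obtain ⟨f, hf⟩ : ∃ f : V → ℝ, f = fun u => (if u = y then c else 0) - 1 := ⟨_, rfl⟩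
  have hf0 : ∑ u, (dg G u : ℝ) * f u = 0 := by
    have h1 : ∀ u, (dg G u : ℝ) * f u = (if u = y then (dg G y : ℝ) * c else 0) - (dg G u : ℝ) := by
      intro u
      rw [hf]
      simp only
      by_cases h : u = y
      · rw [if_pos h, if_pos h, h]; ring
      · rw [if_neg h, if_neg h]; ring
    rw [Finset.sum_congr rfl (fun u _ => h1 u), Finset.sum_sub_distrib,
      Finset.sum_ite_eq' Finset.univ y (fun _ => (dg G y : ℝ) * c), if_pos (Finset.mem_univ _),
      hcy, hMsum, sub_self]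
  have hf2 : ∑ u, (dg G u : ℝ) * f u ^ 2 ≤ (darts G : ℝ) ^ 2 := by
    have h1 : ∀ u, (dg G u : ℝ) * f u ^ 2 =
        (if u = y then (dg G y : ℝ) * (c ^ 2 - 2 * c) else 0) + (dg G u : ℝ) := by
      intro u
      rw [hf]
      simp only
      by_cases h : u = y
      · rw [if_pos h, if_pos h, h]; ring
      · rw [if_neg h, if_neg h]; ring
    rw [Finset.sum_congr rfl (fun u _ => h1 u), Finset.sum_add_distrib,
      Finset.sum_ite_eq' Finset.univ y (fun _ => (dg G y : ℝ) * (c ^ 2 - 2 * c)),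
      if_pos (Finset.mem_univ _), ← hMsum]
    have h2 : (dg G y : ℝ) * (c ^ 2 - 2 * c) = darts G * c - 2 * darts G := by
      rw [← hcy]; ring
    rw [h2]
    have h3 : c ≤ darts G := by
      rw [hc', div_le_iff₀ hy0]
      calc (darts G : ℝ) = darts G * 1 := by ring
        _ ≤ darts G * dg G y := mul_le_mul_of_nonneg_left hy' hM'.le
    have h4 : (darts G : ℝ) * c ≤ darts G * darts G := mul_le_mul_of_nonneg_left h3 hM'.le
    rw [sq]
    linarith
  have hdec := mixw_decay G φ hφ hφ1 hc l f hf0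
  have h7 : (0:ℝ) ≤ (1 - φ ^ 2 / 4) ^ l := by
    apply pow_nonneg
    have : φ ^ 2 ≤ 1 := pow_le_one₀ hφ hφ1
    linarith
  have hval : ∑ z, pkn G l x z * f z = c * pkn G l x y - 1 := by
    have h1 : ∀ z, pkn G l x z * f z = (if z = y then c * pkn G l x y else 0) - pkn G l x z := by
      intro z
      rw [hf]
      simp only
      by_cases h : z = y
      · rw [if_pos h, if_pos h, h]; ring
      · rw [if_neg h, if_neg h]; ring
    rw [Finset.sum_congr rfl (fun z _ => h1 z), Finset.sum_sub_distrib,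
      Finset.sum_ite_eq' Finset.univ y (fun _ => c * pkn G l x y), if_pos (Finset.mem_univ _),
      mixw_one]
  have hsq : (c * pkn G l x y - 1) ^ 2 ≤ 1 / 4 := by
    have h1 : (dg G x : ℝ) * (∑ z, pkn G l x z * f z) ^ 2 ≤
        ∑ x, (dg G x : ℝ) * (∑ y, pkn G l x y * f y) ^ 2 :=
      Finset.single_le_sum (f := fun x => (dg G x : ℝ) * (∑ y, pkn G l x y * f y) ^ 2)
        (fun u _ => by positivity) (Finset.mem_univ x)
    rw [hval] at h1
    have h2 : (c * pkn G l x y - 1) ^ 2 ≤ (dg G x : ℝ) * (c * pkn G l x y - 1) ^ 2 := by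
      have := mul_le_mul_of_nonneg_right hx' (sq_nonneg (c * pkn G l x y - 1))
      linarith
    have h3 : (1 - φ ^ 2 / 4) ^ l * ∑ u, (dg G u : ℝ) * f u ^ 2 ≤
        (1 - φ ^ 2 / 4) ^ l * (darts G : ℝ) ^ 2 := mul_le_mul_of_nonneg_left hf2 h7
    linarith
  have h8 : -(1/2) ≤ c * pkn G l x y - 1 := by
    by_contra hlt
    push Not at hlt
    nlinarith
  have h9 : 1 / 2 ≤ c * pkn G l x y := by linarith
  rw [hc'] at h9
  rw [div_le_iff₀ (by positivity)]
  have h10 : (darts G : ℝ) / dg G y * pkn G l x y * dg G y = darts G * pkn G l x y := by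
    field_simp
  have h11 := mul_le_mul_of_nonneg_right h9 hy0.le
  rw [h10] at h11
  linarith

end NGR
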