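import Pool.Agent.NGR.Defs

open Finset
open scoped Classical

noncomputable section

namespace NGR

variable {V : Type} [Fintype V]

private lemma pk_nonneg' (G : SimpleGraph V) (u v : V) : 0 ≤ pk G u v := by
  unfold pk
  split_ifs <;> positivity

private lemma pk_ne_zero' (G : SimpleGraph V) {u v : V} (h : pk G u v ≠ 0) :
    v = u ∨ G.Adj u v := by
  by_contra hcon
  push Not at hcon
  apply h
  unfold pk
  simp [hcon.1, hcon.2]

private lemma pk_row (G : SimpleGraph V) (u : V) : ∑ v, pk G u v = 1 := by
  unfold pk
  by_cases h : dg G u = 0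
  · simp [h]
  · simp only [h, if_false]
    rw [Finset.sum_add_distrib, Finset.sum_ite_eq' univ u, if_pos (Finset.mem_univ u),
      ← Finset.sum_filter, Finset.sum_const, nsmul_eq_mul]
    have h1 : ((univ.filter (fun w => G.Adj u w)).card : ℝ) = (dg G u : ℝ) := rfl
    rw [h1]
    have h2 : (dg G u : ℝ) ≠ 0 := by exact_mod_cast h
    field_simp
    norm_num

private lemma dg_mul_pk (G : SimpleGraph V) (u v : V) :
    (dg G u : ℝ) * pk G u v = (if u = v then (dg G u : ℝ) / 2 else 0) +
      (if G.Adj v u then 1 / 2 else 0) := by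
  unfold pk
  by_cases h : dg G u = 0
  · have hna : ¬ G.Adj v u := by
      intro hadj
      have : v ∈ univ.filter (fun w => G.Adj u w) := by simp [hadj.symm]
      rw [dg, Finset.card_eq_zero] at h
      rw [h] at this
      simp at this
    simp [h, hna]
  · have h2 : (dg G u : ℝ) ≠ 0 := by exact_mod_cast h
    simp only [h, if_false]
    rw [mul_add]
    congr 1
    · by_cases hvu : v = u
      · subst hvu; simp; ring
      · rw [if_neg hvu, if_neg (fun h => hvu h.symm)]; simp
    · by_cases hadj : G.Adj u v
      · rw [if_pos hadj, if_pos hadj.symm]; field_simp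
      · rw [if_neg hadj, if_neg (fun h => hadj h.symm)]; simp

private lemma pk_stat (G : SimpleGraph V) (v : V) :
    ∑ u, (dg G u : ℝ) * pk G u v = (dg G v : ℝ) := by
  simp_rw [dg_mul_pk]
  rw [Finset.sum_add_distrib, Finset.sum_ite_eq' univ v, if_pos (Finset.mem_univ v),
    ← Finset.sum_filter, Finset.sum_const, nsmul_eq_mul]
  have h1 : ((univ.filter (fun w => G.Adj v w)).card : ℝ) = (dg G v : ℝ) := rfl
  rw [h1]
  ring

private lemma fiber {Om : Type} [Fintype Om] (p : Om → Prop) (q : Om → V) (μ : Om → ℝ)
    (f : V → ℝ) :
    (∑ w, if p w then μ w * f (q w) else 0) =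
      ∑ z, (∑ w, if p w ∧ q w = z then μ w else 0) * f z := by
  simp_rw [Finset.sum_mul]
  rw [Finset.sum_comm]
  refine Finset.sum_congr rfl fun w _ => ?_
  rw [Finset.sum_eq_single (q w)]
  · by_cases h : p w <;> simp [h]
  · intro b _ hb
    have : ¬ (p w ∧ q w = b) := fun h => hb h.2.symm
    rw [if_neg this, zero_mul]
  · intro h
    exact absurd (Finset.mem_univ _) h

/-- RWM: the stationary random walk of `l` steps on a finite probability space. -/
theorem rwm (G : SimpleGraph V) (hM : 0 < darts G) (l : ℕ) :
    ∃ (Om : Type) (_ : Fintype Om) (P : Om → ℕ → V) (μ : Om → ℝ),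
      (∀ w, 0 ≤ μ w) ∧ (∀ w, μ w ≠ 0 → LazyWalk G l (P w)) ∧
      (∀ t ≤ l, ∀ v, (∑ w, if P w t = v then μ w else 0) = (dg G v : ℝ) / darts G) ∧
      (∀ t < l, ∀ u v, G.Adj u v →
        (∑ w, if P w t = u ∧ P w (t + 1) = v then μ w else 0) = 1 / (2 * (darts G : ℝ))) ∧
      (∀ x y, (∑ w, if P w 0 = x ∧ P w l = y then μ w else 0) =
        (dg G x : ℝ) / darts G * pkn G l x y) := by
  have hM' : (darts G : ℝ) ≠ 0 := by exact_mod_cast hM.ne'
  induction l with
  | zero =>
    refine ⟨V, inferInstance, fun w _ => w, fun w => (dg G w : ℝ) / darts G, ?_, ?_, ?_, ?_, ?_⟩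
    · intro w; positivity
    · intro w _ t ht; omega
    · intro t _ v
      simp
    · intro t ht; omega
    · intro x y
      by_cases hxy : x = y
      · subst hxy
        simp [pkn]
      · have : ∀ w : V, ¬ (w = x ∧ w = y) := fun w h => hxy (h.1.symm.trans h.2)
        simp [this, pkn, hxy]
  | succ l ih =>
    obtain ⟨Om, fOm, P, μ, h1, h2, h3, h4, h5⟩ := ih
    -- summation over the last letter
    have hlast : ∀ (p : Om → Prop),
        (∑ w : Om × V, if p w.1 then μ w.1 * pk G (P w.1 l) w.2 else 0) =
          ∑ w, if p w then μ w else 0 := by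
      intro p
      rw [Fintype.sum_prod_type]
      refine Finset.sum_congr rfl fun w _ => ?_
      by_cases h : p w
      · simp only [h, if_true]
        rw [← Finset.mul_sum, pk_row, mul_one]
      · simp [h]
    have hlast2 : ∀ (p : Om → Prop) (v : V),
        (∑ w : Om × V, if p w.1 ∧ w.2 = v then μ w.1 * pk G (P w.1 l) w.2 else 0) =
          ∑ z, (∑ w, if p w ∧ P w l = z then μ w else 0) * pk G z v := by
      intro p v
      rw [← fiber p (fun w => P w l) μ (fun z => pk G z v), Fintype.sum_prod_type]
      refine Finset.sum_congr rfl fun w _ => ?_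
      rw [Finset.sum_eq_single v]
      · simp
      · intro b _ hb
        simp [hb]
      · intro h
        exact absurd (Finset.mem_univ _) h
    refine ⟨Om × V, inferInstance, fun w t => if t ≤ l then P w.1 t else w.2,
      fun w => μ w.1 * pk G (P w.1 l) w.2, ?_, ?_, ?_, ?_, ?_⟩
    · intro w
      exact mul_nonneg (h1 _) (pk_nonneg' G _ _)
    · intro w hw t ht
      have hw1 : μ w.1 ≠ 0 := left_ne_zero_of_mul hw
      have hw2 : pk G (P w.1 l) w.2 ≠ 0 := right_ne_zero_of_mul hw
      rcases Nat.lt_succ_iff_lt_or_eq.1 ht with h | h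
      · have := h2 w.1 hw1 t h
        simp only [if_pos h.le, if_pos (Nat.succ_le_of_lt h)]
        exact this
      · subst h
        simp only [le_refl, if_true, Nat.not_succ_le_self, if_false]
        exact pk_ne_zero' G hw2
    · intro t ht v
      by_cases h : t ≤ l
      · simp only [if_pos h]
        rw [hlast (fun w => P w t = v)]
        exact h3 t h v
      · simp only [if_neg h]
        have e := hlast2 (fun _ => True) v
        simp only [true_and] at e
        rw [e]
        simp_rw [h3 l le_rfl]
        rw [← pk_stat G v, Finset.sum_div]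
        refine Finset.sum_congr rfl fun z _ => ?_
        ring
    · intro t ht u v huv
      by_cases h : t < l
      · simp only [if_pos h.le, if_pos (Nat.succ_le_of_lt h)]
        refine Eq.trans ?_ (Eq.trans (hlast (fun w => P w t = u ∧ P w (t + 1) = v)) (Eq.trans ?_
          (h4 t h u v huv)))
        · refine Finset.sum_congr rfl fun w _ => ?_
          by_cases hc : P w.1 t = u ∧ P w.1 (t + 1) = v
          · rw [if_pos hc, if_pos hc]
          · rw [if_neg hc, if_neg hc]
        · refine Finset.sum_congr rfl fun w _ => ?_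
          by_cases hc : P w t = u ∧ P w (t + 1) = v
          · rw [if_pos hc, if_pos hc]
          · rw [if_neg hc, if_neg hc]
      · have h' : t = l := by omega
        subst h'
        simp only [le_refl, if_true, Nat.not_succ_le_self, if_false]
        rw [hlast2 (fun w => P w t = u) v, Finset.sum_eq_single u]
        · simp only [and_self]
          rw [h3 t le_rfl u]
          have hd : (dg G u : ℝ) / darts G * pk G u v = (dg G u : ℝ) * pk G u v / darts G := by
            ring
          rw [hd, dg_mul_pk, if_neg huv.ne, if_pos huv.symm]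
          field_simp
          norm_num
        · intro b _ hb
          have : ∀ w, ¬ (P w t = u ∧ P w t = b) := fun w h => hb (h.2.symm.trans h.1)
          simp [this]
        · intro h
          exact absurd (Finset.mem_univ _) h
    · intro x y
      simp only [Nat.zero_le, if_true, Nat.not_succ_le_self, if_false]
      rw [hlast2 (fun w => P w 0 = x) y]
      simp_rw [h5]
      rw [pkn, Finset.mul_sum]
      refine Finset.sum_congr rfl fun z _ => ?_
      ring

end NGR
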