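import Pool.Agent.NGR.Avg
import Pool.Agent.NGR.Mixw
import Pool.Agent.NGR.Rwm

open Finset
open scoped Classical

noncomputable section

namespace NGR

variable {V : Type} [Fintype V]

theorem cutl_push {Om : Type} [Fintype Om] (μ : Om → ℝ) (a b : Om → V) (F : V → V → ℝ) :
    ∑ w, μ w * F (a w) (b w) = ∑ u, ∑ v, F u v * ∑ w, (if a w = u ∧ b w = v then μ w else 0) := by
  have h1 : ∀ u v, F u v * ∑ w, (if a w = u ∧ b w = v then μ w else 0) =
      ∑ w, (if a w = u then (if b w = v then μ w * F (a w) (b w) else 0) else 0) := by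
    intro u v
    rw [Finset.mul_sum]
    apply Finset.sum_congr rfl
    intro w _
    by_cases h1 : a w = u
    · by_cases h2 : b w = v
      · rw [if_pos ⟨h1, h2⟩, if_pos h1, if_pos h2, h1, h2]; ring
      · rw [if_neg (fun h => h2 h.2), if_pos h1, if_neg h2]; ring
    · rw [if_neg (fun h => h1 h.1), if_neg h1]; ring
  have h2 : ∑ u, ∑ v, F u v * ∑ w, (if a w = u ∧ b w = v then μ w else 0) =
      ∑ u, ∑ v, ∑ w, (if a w = u then (if b w = v then μ w * F (a w) (b w) else 0) else 0) := by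
    apply Finset.sum_congr rfl
    intro u _
    apply Finset.sum_congr rfl
    intro v _
    exact h1 u v
  have h3 : ∑ u, ∑ v, ∑ w, (if a w = u then (if b w = v then μ w * F (a w) (b w) else 0) else 0) =
      ∑ w, ∑ u, ∑ v, (if a w = u then (if b w = v then μ w * F (a w) (b w) else 0) else 0) := by
    calc ∑ u, ∑ v, ∑ w, (if a w = u then (if b w = v then μ w * F (a w) (b w) else 0) else 0)
        = ∑ u, ∑ w, ∑ v, (if a w = u then (if b w = v then μ w * F (a w) (b w) else 0) else 0) := by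
          apply Finset.sum_congr rfl
          intro u _
          exact Finset.sum_comm
      _ = _ := Finset.sum_comm
  rw [h2, h3]
  apply Finset.sum_congr rfl
  intro w _
  have h4 : ∀ u, (∑ v, (if a w = u then (if b w = v then μ w * F (a w) (b w) else 0) else 0)) =
      if a w = u then μ w * F (a w) (b w) else 0 := by
    intro u
    by_cases h : a w = u
    · simp only [if_pos h]
      rw [Finset.sum_ite_eq Finset.univ (b w) (fun _ => μ w * F (a w) (b w)),
        if_pos (Finset.mem_univ _)]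
    · simp only [if_neg h]
      simp
  rw [Finset.sum_congr rfl (fun u _ => h4 u),
    Finset.sum_ite_eq Finset.univ (a w) (fun _ => μ w * F (a w) (b w)),
    if_pos (Finset.mem_univ _)]

theorem cutl_swap {Om : Type} [Fintype Om] (n : ℕ) (μ : Om → ℝ) (F : ℕ → ℕ → Om → Om → ℝ) :
    ∑ w, ∑ w', μ w * μ w' * (∑ t ∈ range n, ∑ t' ∈ range n, F t t' w w') =
      ∑ t ∈ range n, ∑ t' ∈ range n, ∑ w, ∑ w', μ w * μ w' * F t t' w w' := by
  calc ∑ w, ∑ w', μ w * μ w' * (∑ t ∈ range n, ∑ t' ∈ range n, F t t' w w')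
      = ∑ w, ∑ w', ∑ t ∈ range n, ∑ t' ∈ range n, μ w * μ w' * F t t' w w' := by
        apply Finset.sum_congr rfl
        intro w _
        apply Finset.sum_congr rfl
        intro w' _
        rw [Finset.mul_sum]
        apply Finset.sum_congr rfl
        intro t _
        rw [Finset.mul_sum]
    _ = ∑ w, ∑ t ∈ range n, ∑ w', ∑ t' ∈ range n, μ w * μ w' * F t t' w w' := by
        apply Finset.sum_congr rfl
        intro w _
        exact Finset.sum_comm
    _ = ∑ t ∈ range n, ∑ w, ∑ w', ∑ t' ∈ range n, μ w * μ w' * F t t' w w' := Finset.sum_comm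
    _ = ∑ t ∈ range n, ∑ w, ∑ t' ∈ range n, ∑ w', μ w * μ w' * F t t' w w' := by
        apply Finset.sum_congr rfl
        intro t _
        apply Finset.sum_congr rfl
        intro w _
        exact Finset.sum_comm
    _ = ∑ t ∈ range n, ∑ t' ∈ range n, ∑ w, ∑ w', μ w * μ w' * F t t' w w' := by
        apply Finset.sum_congr rfl
        intro t _
        exact Finset.sum_comm

/-- number of crossing pairs of darts -/
theorem cutl_cross {K lam : ℕ} (hK : 1 ≤ K) {G : SimpleGraph V} {X : V → V → V → V → Prop}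
    (h : InC K lam G X) (Δ : ℕ) (hΔ : ∀ v, dg G v ≤ Δ) (hM : 0 < darts G) (e0 : ℝ)
    (he0 : 0 ≤ e0) (he : (lam : ℝ) * ((Δ : ℝ) / darts G) ≤ e0 ^ K) :
    ∑ u, ∑ v, ∑ u', ∑ v', (if G.Adj u v ∧ G.Adj u' v' ∧ X u v u' v' then (1:ℝ) else 0) *
      (1 / (darts G : ℝ) * (1 / (darts G : ℝ))) ≤ e0 := by
  have hM' : (0:ℝ) < darts G := by exact_mod_cast hM
  have hMsum : (darts G : ℝ) = ∑ u, (dg G u : ℝ) := by
    unfold darts
    push_cast
    rfl
  obtain ⟨p, hp⟩ : ∃ p : V → V → ℝ, p = fun u v => if G.Adj u v then 1 / (darts G : ℝ) else 0 :=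
    ⟨_, rfl⟩
  have hp0 : ∀ u v, 0 ≤ p u v := by
    intro u v
    rw [hp]
    simp only
    split_ifs <;> positivity
  have hrow : ∀ u, ∑ v, p u v = (dg G u : ℝ) * (1 / (darts G : ℝ)) := by
    intro u
    rw [hp]
    exact chee_deg G u _
  have h1 := h.nl p ((Δ : ℝ) / darts G) (by positivity) hp0 (by
      intro u v
      rw [hp]
      simp only [G.adj_comm]) (by
      intro u v huv
      rw [hp]
      simp only [if_neg huv]) (by
      rw [Finset.sum_congr rfl (fun u _ => hrow u), ← Finset.sum_mul, ← hMsum]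
      apply le_of_eq
      field_simp) (by
      intro u
      rw [hrow u]
      have : (dg G u : ℝ) ≤ Δ := by exact_mod_cast hΔ u
      rw [mul_one_div]
      gcongr)
  have h2 : (∑ u, ∑ v, ∑ u', ∑ v', if X u v u' v' then p u v * p u' v' else 0) =
      ∑ u, ∑ v, ∑ u', ∑ v', (if G.Adj u v ∧ G.Adj u' v' ∧ X u v u' v' then (1:ℝ) else 0) *
      (1 / (darts G : ℝ) * (1 / (darts G : ℝ))) := by
    apply Finset.sum_congr rfl
    intro u _
    apply Finset.sum_congr rfl
    intro v _
    apply Finset.sum_congr rfl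
    intro u' _
    apply Finset.sum_congr rfl
    intro v' _
    rw [hp]
    simp only
    by_cases hX : X u v u' v'
    · by_cases ha : G.Adj u v
      · by_cases hb : G.Adj u' v'
        · rw [if_pos hX, if_pos ha, if_pos hb, if_pos ⟨ha, hb, hX⟩, one_mul]
        · have hne : ¬ (G.Adj u v ∧ G.Adj u' v' ∧ X u v u' v') := fun h => hb h.2.1
          rw [if_pos hX, if_neg hb, if_neg hne]; ring
      · have hne : ¬ (G.Adj u v ∧ G.Adj u' v' ∧ X u v u' v') := fun h => ha h.1
        rw [if_pos hX, if_neg ha, if_neg hne]; ring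
    · have hne : ¬ (G.Adj u v ∧ G.Adj u' v' ∧ X u v u' v') := fun h => hX h.2.2
      rw [if_neg hX, if_neg hne]; ring
  rw [h2] at h1
  have h3 := h1.trans he
  exact le_of_pow_le_pow_left₀ (by omega) he0 h3

/-- CUTL: graphs of the class have sparse cuts. -/
theorem cut_lemma {K lam : ℕ} (hK : 1 ≤ K) {G : SimpleGraph V} {X : V → V → V → V → Prop}
    (h : InC K lam G X) (Δ : ℕ) (hΔ : ∀ v, dg G v ≤ Δ) (hM : 0 < darts G) (φ e0 : ℝ) (l : ℕ)
    (hφ0 : 0 < φ) (hφ1 : φ ≤ 1) (hmix : (darts G : ℝ) ^ 2 * (1 - φ ^ 2 / 4) ^ l ≤ 1 / 4)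
    (he0 : 0 ≤ e0) (he : (lam : ℝ) * ((Δ : ℝ) / darts G) ≤ e0 ^ K)
    (hsmall : 144 * ((l : ℝ) + 1) ^ 2 * ((Δ : ℝ) / darts G + e0) < 1) :
    ∃ S : Finset V, 0 < vol G S ∧ 2 * vol G S ≤ darts G ∧
      (cut G S : ℝ) < φ * (vol G S : ℝ) := by
  by_contra hno
  push Not at hno
  have hc : ∀ S : Finset V, 0 < vol G S → 2 * vol G S ≤ darts G →
      φ * (vol G S : ℝ) ≤ (cut G S : ℝ) := hno
  have hmixing := mixing G φ hφ0.le hφ1 hc l hmix
  have hM' : (0:ℝ) < darts G := by exact_mod_cast hM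
  have hMsum : (darts G : ℝ) = ∑ u, (dg G u : ℝ) := by
    unfold darts
    push_cast
    rfl
  obtain ⟨Om, hOm, P, μ, hμ0, hμl, hmarg, hpair, hend⟩ := rwm G hM l
  obtain ⟨rho, hrho⟩ : ∃ rho : V → ℝ, rho = fun v => (dg G v : ℝ) / darts G := ⟨_, rfl⟩
  have hr0 : ∀ v, 0 ≤ rho v := by
    intro v
    rw [hrho]
    positivity
  have hr1 : ∑ v, rho v = 1 := by
    rw [hrho]
    simp only
    rw [← Finset.sum_div, ← hMsum, div_self hM'.ne']
  have hμ1 : ∑ w, μ w = 1 := by
    have h1 := cutl_push μ (fun w => P w 0) (fun w => P w 0) (fun _ _ => (1:ℝ))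
    simp only [mul_one] at h1
    rw [h1]
    have h2 : ∀ u, ∑ v, (1:ℝ) * ∑ w, (if P w 0 = u ∧ P w 0 = v then μ w else 0) = rho u := by
      intro u
      simp only [one_mul]
      rw [Finset.sum_comm]
      have h3 : ∀ w, ∑ v, (if P w 0 = u ∧ P w 0 = v then μ w else 0) =
          if P w 0 = u then μ w else 0 := by
        intro w
        by_cases h4 : P w 0 = u
        · simp [h4]
        · simp [h4]
      rw [Finset.sum_congr rfl (fun w _ => h3 w), hmarg 0 (Nat.zero_le l) u, hrho]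
    rw [Finset.sum_congr rfl (fun u _ => h2 u), hr1]
  obtain ⟨q, hq⟩ : ∃ q : V → V → Om → ℝ, q = fun x y w => if P w 0 = x ∧ P w l = y then
    μ w / (rho x * pkn G l x y) else 0 := ⟨_, rfl⟩
  have hpkn0 : ∀ x y, 0 ≤ pkn G l x y := mixw_pkn_nonneg G l
  have hq0 : ∀ x y w, 0 ≤ q x y w := by
    intro x y w
    rw [hq]
    simp only
    split_ifs
    · exact div_nonneg (hμ0 w) (mul_nonneg (hr0 x) (hpkn0 x y))
    · exact le_rfl
  have hdpos : ∀ x, rho x ≠ 0 → 0 < dg G x := by
    intro x hx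
    rcases Nat.eq_zero_or_pos (dg G x) with h0 | h0
    · exfalso
      apply hx
      rw [hrho]
      simp [h0]
    · exact h0
  have hlow : ∀ x y, rho x ≠ 0 → rho y / 2 ≤ pkn G l x y := by
    intro x y hx
    have h1 := hmixing x y (hdpos x hx) hM
    refine le_trans (le_of_eq ?_) h1
    rw [hrho]
    field_simp
  have hq1 : ∀ x y, rho x ≠ 0 → rho y ≠ 0 → ∑ w, q x y w = 1 := by
    intro x y hx hy
    have hp : 0 < pkn G l x y := by
      have h1 := hlow x y hx
      have h2 : 0 < rho y := lt_of_le_of_ne (hr0 y) (Ne.symm hy)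
      linarith
    have h1 : ∀ w, q x y w = (if P w 0 = x ∧ P w l = y then μ w else 0) /
        (rho x * pkn G l x y) := by
      intro w
      rw [hq]
      simp only
      split_ifs <;> simp
    rw [Finset.sum_congr rfl (fun w _ => h1 w), ← Finset.sum_div, hend x y]
    have h2 : (dg G x : ℝ) / darts G = rho x := by rw [hrho]
    rw [h2]
    exact div_self (mul_ne_zero hx hp.ne')
  have hqs : ∀ x y w, q x y w ≠ 0 → LazyWalk G l (P w) ∧ P w 0 = x ∧ P w l = y := by
    intro x y w hw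
    rw [hq] at hw
    simp only at hw
    by_cases h1 : P w 0 = x ∧ P w l = y
    · rw [if_pos h1] at hw
      refine ⟨hμl w ?_, h1⟩
      intro h2
      rw [h2, zero_div] at hw
      exact hw rfl
    · rw [if_neg h1] at hw
      exact absurd rfl hw
  obtain ⟨Q, hQ⟩ : ∃ Q : Om → ℝ, ∀ w, Q w = ∑ x, ∑ y, rho x * rho y * q x y w :=
    ⟨fun w => ∑ x, ∑ y, rho x * rho y * q x y w, fun _ => rfl⟩
  have havg := avg G X h.vk l P rho rho hr0 hr0 hr1 hr1 q hq0 hq1 hqs Q hQ
  -- bound for `Q`
  have hQ0 : ∀ w, 0 ≤ Q w := by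
    intro w
    rw [hQ w]
    exact Finset.sum_nonneg fun x _ => Finset.sum_nonneg fun y _ =>
      mul_nonneg (mul_nonneg (hr0 x) (hr0 y)) (hq0 x y w)
  have hQval : ∀ w, Q w = rho (P w 0) * rho (P w l) *
      (μ w / (rho (P w 0) * pkn G l (P w 0) (P w l))) := by
    intro w
    rw [hQ w]
    have h1 : ∀ x, ∑ y, rho x * rho y * q x y w = if P w 0 = x then
        rho (P w 0) * rho (P w l) * (μ w / (rho (P w 0) * pkn G l (P w 0) (P w l))) else 0 := by
      intro x
      by_cases hx : P w 0 = x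
      · rw [if_pos hx, hq]
        have h2 : ∀ y, rho x * rho y * (if P w 0 = x ∧ P w l = y then
            μ w / (rho x * pkn G l x y) else 0) = if P w l = y then
            rho (P w 0) * rho (P w l) * (μ w / (rho (P w 0) * pkn G l (P w 0) (P w l))) else 0 := by
          intro y
          by_cases hy : P w l = y
          · rw [if_pos ⟨hx, hy⟩, if_pos hy, hx, hy]
          · rw [if_neg (fun h => hy h.2), if_neg hy, mul_zero]
        rw [Finset.sum_congr rfl (fun y _ => h2 y), Finset.sum_ite_eq Finset.univ (P w l)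
          (fun _ => rho (P w 0) * rho (P w l) * (μ w / (rho (P w 0) * pkn G l (P w 0) (P w l)))),
          if_pos (Finset.mem_univ _)]
      · rw [if_neg hx]
        apply Finset.sum_eq_zero
        intro y _
        rw [hq]
        simp only
        rw [if_neg (fun h => hx h.1), mul_zero]
    rw [Finset.sum_congr rfl (fun x _ => h1 x), Finset.sum_ite_eq Finset.univ (P w 0)
          (fun _ => rho (P w 0) * rho (P w l) * (μ w / (rho (P w 0) * pkn G l (P w 0) (P w l)))),
          if_pos (Finset.mem_univ _)]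
  have hQle : ∀ w, Q w ≤ 2 * μ w := by
    intro w
    rw [hQval w]
    by_cases hx : rho (P w 0) = 0
    · rw [hx]
      have := hμ0 w
      simp only [zero_mul]
      linarith
    · by_cases hp : pkn G l (P w 0) (P w l) = 0
      · rw [hp]
        have := hμ0 w
        simp only [mul_zero, div_zero]
        linarith
      · have hp' : 0 < pkn G l (P w 0) (P w l) := lt_of_le_of_ne (hpkn0 _ _) (Ne.symm hp)
        have h1 := hlow (P w 0) (P w l) hx
        have h2 : rho (P w 0) * rho (P w l) *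
            (μ w / (rho (P w 0) * pkn G l (P w 0) (P w l))) =
            (rho (P w l) * μ w) / pkn G l (P w 0) (P w l) := by
          field_simp
        rw [h2, div_le_iff₀ hp']
        have h3 := hμ0 w
        nlinarith
  have hNm0 : ∀ w w', 0 ≤ Nm G X l (P w) (P w') := by
    intro w w'
    unfold Nm
    apply add_nonneg
    · exact Finset.sum_nonneg fun t _ => Finset.sum_nonneg fun t' _ => by
        split_ifs <;> norm_num
    · exact Finset.sum_nonneg fun t _ => Finset.sum_nonneg fun t' _ => by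
        split_ifs <;> norm_num
  have hstep1 : ∑ w, ∑ w', Q w * Q w' * Nm G X l (P w) (P w') ≤
      4 * ∑ w, ∑ w', μ w * μ w' * Nm G X l (P w) (P w') := by
    rw [Finset.mul_sum]
    apply Finset.sum_le_sum
    intro w _
    rw [Finset.mul_sum]
    apply Finset.sum_le_sum
    intro w' _
    have h1 : Q w * Q w' ≤ (2 * μ w) * (2 * μ w') :=
      mul_le_mul (hQle w) (hQle w') (hQ0 w') (by have := hμ0 w; linarith)
    calc Q w * Q w' * Nm G X l (P w) (P w') ≤ (2 * μ w) * (2 * μ w') * Nm G X l (P w) (P w') :=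
          mul_le_mul_of_nonneg_right h1 (hNm0 w w')
      _ = 4 * (μ w * μ w' * Nm G X l (P w) (P w')) := by ring
  -- split the number of meetings
  have hsplit : ∑ w, ∑ w', μ w * μ w' * Nm G X l (P w) (P w') =
      (∑ t ∈ range (l + 1), ∑ t' ∈ range (l + 1), ∑ w, ∑ w', μ w * μ w' *
        (if P w t = P w' t' then (1 : ℝ) else 0)) +
      (∑ t ∈ range l, ∑ t' ∈ range l, ∑ w, ∑ w', μ w * μ w' *
        (if G.Adj (P w t) (P w (t + 1)) ∧ G.Adj (P w' t') (P w' (t' + 1)) ∧
          X (P w t) (P w (t + 1)) (P w' t') (P w' (t' + 1)) then (1 : ℝ) else 0)) := by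
    rw [← cutl_swap (l + 1) μ (fun t t' w w' => if P w t = P w' t' then (1 : ℝ) else 0),
      ← cutl_swap l μ (fun t t' w w' => if G.Adj (P w t) (P w (t + 1)) ∧
        G.Adj (P w' t') (P w' (t' + 1)) ∧
          X (P w t) (P w (t + 1)) (P w' t') (P w' (t' + 1)) then (1 : ℝ) else 0),
      ← Finset.sum_add_distrib]
    apply Finset.sum_congr rfl
    intro w _
    rw [← Finset.sum_add_distrib]
    apply Finset.sum_congr rfl
    intro w' _
    rw [← mul_add]
    rfl
  have hfirst : ∀ t ∈ range (l + 1), ∀ t' ∈ range (l + 1), ∑ w, ∑ w', μ w * μ w' *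
        (if P w t = P w' t' then (1 : ℝ) else 0) ≤ (Δ : ℝ) / darts G := by
    intro t ht t' ht'
    rw [Finset.mem_range] at ht ht'
    have h1 : ∀ w, ∑ w', μ w * μ w' * (if P w t = P w' t' then (1 : ℝ) else 0) =
        μ w * ((dg G (P w t) : ℝ) / darts G) := by
      intro w
      rw [← hmarg t' (by omega) (P w t), Finset.mul_sum]
      apply Finset.sum_congr rfl
      intro w' _
      by_cases h2 : P w t = P w' t'
      · rw [if_pos h2, if_pos h2.symm, mul_one]
      · rw [if_neg h2, if_neg (fun h => h2 h.symm), mul_zero, mul_zero]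
    rw [Finset.sum_congr rfl (fun w _ => h1 w)]
    calc ∑ w, μ w * ((dg G (P w t) : ℝ) / darts G) ≤ ∑ w, μ w * ((Δ : ℝ) / darts G) := by
          apply Finset.sum_le_sum
          intro w _
          apply mul_le_mul_of_nonneg_left _ (hμ0 w)
          have : (dg G (P w t) : ℝ) ≤ Δ := by exact_mod_cast hΔ _
          gcongr
      _ = (Δ : ℝ) / darts G := by rw [← Finset.sum_mul, hμ1, one_mul]
  have hcross := cutl_cross hK h Δ hΔ hM e0 he0 he
  have hsecond : ∀ t ∈ range l, ∀ t' ∈ range l, ∑ w, ∑ w', μ w * μ w' *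
        (if G.Adj (P w t) (P w (t + 1)) ∧ G.Adj (P w' t') (P w' (t' + 1)) ∧
          X (P w t) (P w (t + 1)) (P w' t') (P w' (t' + 1)) then (1 : ℝ) else 0) ≤ e0 := by
    intro t ht t' ht'
    rw [Finset.mem_range] at ht ht'
    obtain ⟨m, hm⟩ : ∃ m : V → V → ℝ, m = fun u v => ∑ w, (if P w t = u ∧ P w (t + 1) = v then
      μ w else 0) := ⟨_, rfl⟩
    obtain ⟨m', hm'⟩ : ∃ m' : V → V → ℝ, m' = fun u v => ∑ w, (if P w t' = u ∧
      P w (t' + 1) = v then μ w else 0) := ⟨_, rfl⟩
    have hmv : ∀ u v, G.Adj u v → m u v = 1 / (2 * (darts G : ℝ)) := by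
      intro u v huv
      rw [hm]
      exact hpair t ht u v huv
    have hmv' : ∀ u v, G.Adj u v → m' u v = 1 / (2 * (darts G : ℝ)) := by
      intro u v huv
      rw [hm']
      exact hpair t' ht' u v huv
    have h1 : ∀ w, ∑ w', μ w * μ w' *
        (if G.Adj (P w t) (P w (t + 1)) ∧ G.Adj (P w' t') (P w' (t' + 1)) ∧
          X (P w t) (P w (t + 1)) (P w' t') (P w' (t' + 1)) then (1 : ℝ) else 0) =
        μ w * (∑ u', ∑ v', (if G.Adj (P w t) (P w (t + 1)) ∧ G.Adj u' v' ∧
          X (P w t) (P w (t + 1)) u' v' then (1:ℝ) else 0) * m' u' v') := by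
      intro w
      rw [hm', ← cutl_push μ (fun w' => P w' t') (fun w' => P w' (t' + 1))
        (fun u' v' => if G.Adj (P w t) (P w (t + 1)) ∧ G.Adj u' v' ∧
          X (P w t) (P w (t + 1)) u' v' then (1:ℝ) else 0), Finset.mul_sum]
      apply Finset.sum_congr rfl
      intro w' _
      ring
    rw [Finset.sum_congr rfl (fun w _ => h1 w),
      cutl_push μ (fun w => P w t) (fun w => P w (t + 1))
        (fun u v => ∑ u', ∑ v', (if G.Adj u v ∧ G.Adj u' v' ∧
          X u v u' v' then (1:ℝ) else 0) * m' u' v')]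
    refine le_trans ?_ hcross
    apply Finset.sum_le_sum
    intro u _
    apply Finset.sum_le_sum
    intro v _
    rw [Finset.sum_mul]
    apply Finset.sum_le_sum
    intro u' _
    rw [Finset.sum_mul]
    apply Finset.sum_le_sum
    intro v' _
    by_cases h2 : G.Adj u v ∧ G.Adj u' v' ∧ X u v u' v'
    · rw [if_pos h2, hmv' u' v' h2.2.1]
      have h3 := hmv u v h2.1
      rw [hm] at h3
      simp only at h3
      rw [h3, one_mul, one_mul]
      have h4 : 1 / (2 * (darts G : ℝ)) ≤ 1 / (darts G : ℝ) := by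
        apply one_div_le_one_div_of_le hM'
        linarith
      exact mul_le_mul h4 h4 (by positivity) (by positivity)
    · rw [if_neg h2]
      simp
  have hsum1 : (∑ t ∈ range (l + 1), ∑ t' ∈ range (l + 1), ∑ w, ∑ w', μ w * μ w' *
        (if P w t = P w' t' then (1 : ℝ) else 0)) ≤
        ((l : ℝ) + 1) * (((l : ℝ) + 1) * ((Δ : ℝ) / darts G)) := by
    calc _ ≤ ∑ _t ∈ range (l + 1), ∑ _t' ∈ range (l + 1), ((Δ : ℝ) / darts G) :=
          Finset.sum_le_sum fun t ht => Finset.sum_le_sum fun t' ht' => hfirst t ht t' ht'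
      _ = _ := by
          rw [Finset.sum_const, Finset.sum_const, Finset.card_range, nsmul_eq_mul, nsmul_eq_mul]
          push_cast
          ring
  have hsum2 : (∑ t ∈ range l, ∑ t' ∈ range l, ∑ w, ∑ w', μ w * μ w' *
        (if G.Adj (P w t) (P w (t + 1)) ∧ G.Adj (P w' t') (P w' (t' + 1)) ∧
          X (P w t) (P w (t + 1)) (P w' t') (P w' (t' + 1)) then (1 : ℝ) else 0)) ≤
        (l : ℝ) * ((l : ℝ) * e0) := by
    calc _ ≤ ∑ _t ∈ range l, ∑ _t' ∈ range l, e0 :=
          Finset.sum_le_sum fun t ht => Finset.sum_le_sum fun t' ht' => hsecond t ht t' ht'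
      _ = _ := by
          rw [Finset.sum_const, Finset.sum_const, Finset.card_range, nsmul_eq_mul, nsmul_eq_mul]
  have hl0 : (0:ℝ) ≤ l := Nat.cast_nonneg l
  have hsum3 : (l : ℝ) * ((l : ℝ) * e0) ≤ ((l : ℝ) + 1) * (((l : ℝ) + 1) * e0) := by
    have h1 : (l : ℝ) * e0 ≤ ((l : ℝ) + 1) * e0 := mul_le_mul_of_nonneg_right (by linarith) he0
    exact mul_le_mul (by linarith) h1 (by positivity) (by linarith)
  rw [hsplit] at hstep1
  have hfin : 36 * ∑ w, ∑ w', Q w * Q w' * Nm G X l (P w) (P w') ≤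
      144 * ((l : ℝ) + 1) ^ 2 * ((Δ : ℝ) / darts G + e0) := by
    have : 144 * ((l : ℝ) + 1) ^ 2 * ((Δ : ℝ) / darts G + e0) =
        144 * (((l : ℝ) + 1) * (((l : ℝ) + 1) * ((Δ : ℝ) / darts G)) +
        ((l : ℝ) + 1) * (((l : ℝ) + 1) * e0)) := by ring
    rw [this]
    linarith
  linarith

end NGR
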