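import Pool.Agent.NGR.Defs

open Finset
open scoped Classical

noncomputable section

namespace NGR

variable {V : Type} [Fintype V]

/-- bound for the loss -/
private def decoL (h : ℕ) (δ : ℝ) (m : ℕ) : ℝ :=
  if m < h then 0 else 4 * δ * (1 - 1 / ((Nat.log 2 (m / h) : ℝ) + 2)) * m

/-- the edges inside a set -/
private def decoI (G : SimpleGraph V) (p : V → Prop) : SimpleGraph V where
  Adj u v := G.Adj u v ∧ p u ∧ p v
  symm := ⟨fun _ _ h => ⟨h.1.symm, h.2.2, h.2.1⟩⟩
  loopless := ⟨fun _ h => G.loopless.irrefl _ h.1⟩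

private theorem deco_I_le (G : SimpleGraph V) (p : V → Prop) : decoI G p ≤ G :=
  fun _ _ h => h.1

private theorem deco_dg (G : SimpleGraph V) (u : V) :
    dg G u = ∑ v, if G.Adj u v then 1 else 0 := by
  unfold dg
  rw [card_filter]

private theorem deco_darts (G : SimpleGraph V) :
    darts G = ∑ u, ∑ v, if G.Adj u v then 1 else 0 :=
  sum_congr rfl fun u _ => deco_dg G u

private theorem deco_cut (G : SimpleGraph V) (S : Finset V) :
    cut G S = ∑ u, ∑ v, if G.Adj u v ∧ u ∈ S ∧ v ∉ S then 1 else 0 := by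
  unfold cut
  rw [← sum_filter_add_sum_filter_not univ (fun u => u ∈ S)
    (fun u => ∑ v, if G.Adj u v ∧ u ∈ S ∧ v ∉ S then 1 else 0)]
  have e1 : ∑ u ∈ univ.filter (fun u => ¬ u ∈ S),
      (∑ v, if G.Adj u v ∧ u ∈ S ∧ v ∉ S then 1 else 0) = 0 := by
    refine sum_eq_zero fun u hu => sum_eq_zero fun v _ => ?_
    rw [mem_filter] at hu
    rw [if_neg]
    exact fun h => hu.2 h.2.1
  rw [e1, add_zero]
  have e2 : univ.filter (fun u => u ∈ S) = S := by ext; simp
  rw [e2]
  refine sum_congr rfl fun u hu => ?_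
  rw [card_filter]
  refine sum_congr rfl fun v _ => ?_
  by_cases h1 : G.Adj u v <;> by_cases h2 : v ∈ S <;> simp [h1, h2, hu]

private theorem deco_cut' (G : SimpleGraph V) (S : Finset V) :
    cut G S = ∑ u, ∑ v, if G.Adj u v ∧ u ∉ S ∧ v ∈ S then 1 else 0 := by
  rw [deco_cut, sum_comm]
  refine sum_congr rfl fun u _ => sum_congr rfl fun v _ => ?_
  have : (G.Adj v u ∧ v ∈ S ∧ u ∉ S) ↔ (G.Adj u v ∧ u ∉ S ∧ v ∈ S) := by
    rw [G.adj_comm]; tauto
  simp only [this]

private theorem deco_vol (G : SimpleGraph V) (S : Finset V) :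
    vol G S = darts (decoI G (· ∈ S)) + cut G S := by
  rw [deco_cut, deco_darts, ← sum_add_distrib]
  unfold vol
  have e2 : S = univ.filter (fun u => u ∈ S) := by ext; simp
  conv_lhs => rw [e2, sum_filter]
  refine sum_congr rfl fun u _ => ?_
  rw [← sum_add_distrib, deco_dg]
  by_cases hu : u ∈ S
  · rw [if_pos hu]
    refine sum_congr rfl fun v _ => ?_
    by_cases h1 : G.Adj u v <;> by_cases h2 : v ∈ S <;> simp [h1, h2, hu, decoI]
  · rw [if_neg hu]
    symm
    refine sum_eq_zero fun v _ => ?_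
    simp [hu, decoI]

private theorem deco_total (G : SimpleGraph V) (S : Finset V) :
    darts G = darts (decoI G (· ∈ S)) + darts (decoI G (· ∉ S)) + 2 * cut G S := by
  have h1 : 2 * cut G S = (∑ u, ∑ v, if G.Adj u v ∧ u ∈ S ∧ v ∉ S then 1 else 0) +
      ∑ u, ∑ v, if G.Adj u v ∧ u ∉ S ∧ v ∈ S then 1 else 0 := by
    rw [← deco_cut, ← deco_cut']; ring
  rw [h1, deco_darts, deco_darts, deco_darts, ← sum_add_distrib, ← sum_add_distrib,
    ← sum_add_distrib]
  refine sum_congr rfl fun u _ => ?_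
  rw [← sum_add_distrib, ← sum_add_distrib, ← sum_add_distrib]
  refine sum_congr rfl fun v _ => ?_
  by_cases h1 : G.Adj u v <;> by_cases h2 : v ∈ S <;> by_cases h3 : u ∈ S <;>
    simp [h1, h2, h3, decoI]

private theorem deco_iso (G : SimpleGraph V) (p : V → Prop) (G1 : SimpleGraph V)
    (h : G1 ≤ decoI G p) (v : V) (hv : ¬ p v) : dg G1 v = 0 := by
  unfold dg
  rw [card_eq_zero, filter_eq_empty_iff]
  intro w _ hw
  exact hv (h hw).2.1

private theorem deco_sup (G A B : SimpleGraph V) (S : Finset V) (hA : A ≤ decoI G (· ∈ S))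
    (hB : B ≤ decoI G (· ∉ S)) (v : V) : dg (A ⊔ B) v = dg A v + dg B v := by
  by_cases hv : v ∈ S
  · rw [deco_iso G _ B hB v (by simpa using hv), add_zero]
    unfold dg
    congr 1
    ext w
    simp only [mem_filter, mem_univ, true_and, SimpleGraph.sup_adj]
    constructor
    · rintro (h | h)
      · exact h
      · exact absurd hv (hB h).2.1
    · exact Or.inl
  · rw [deco_iso G _ A hA v hv, zero_add]
    unfold dg
    congr 1
    ext w
    simp only [mem_filter, mem_univ, true_and, SimpleGraph.sup_adj]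
    constructor
    · rintro (h | h)
      · exact absurd (hA h).2.1 hv
      · exact h
    · exact Or.inr

private theorem deco_num {h : ℕ} (hh : 0 < h) {δ : ℝ} (hδ : 0 < δ) {M M1 M2 c j : ℕ}
    (hj1 : 2 ^ j * h ≤ M) (hj2 : M < 2 ^ (j + 1) * h) (hM1 : 2 * M1 ≤ M) (hM2 : M2 ≤ M)
    (hM : M1 + M2 ≤ M) (hc : (c : ℝ) ≤ 2 * (δ / (((j : ℝ) + 1) * (j + 2))) * M1) :
    2 * (c : ℝ) + decoL h δ M1 + decoL h δ M2 ≤ decoL h δ M := by
  have hMh : ¬ M < h := by
    have : 1 * h ≤ 2 ^ j * h := Nat.mul_le_mul_right _ Nat.one_le_two_pow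
    omega
  have hlog : Nat.log 2 (M / h) = j := by
    rw [Nat.log_eq_iff (Or.inr ⟨by norm_num, ?_⟩)]
    · exact ⟨(Nat.le_div_iff_mul_le hh).2 hj1, (Nat.div_lt_iff_lt_mul hh).2 hj2⟩
    · have := (Nat.le_div_iff_mul_le hh).2 hj1
      have h1 : 1 ≤ 2 ^ j := Nat.one_le_two_pow
      omega
  have hL : decoL h δ M = 4 * δ * (1 - 1 / ((j : ℝ) + 2)) * M := by
    unfold decoL
    rw [if_neg hMh, hlog]
  have hj0 : (0 : ℝ) ≤ j := Nat.cast_nonneg j
  have h2 : decoL h δ M2 ≤ 4 * δ * (1 - 1 / ((j : ℝ) + 2)) * M2 := by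
    unfold decoL
    split_ifs with hlt
    · have : 1 / ((j : ℝ) + 2) ≤ 1 := by
        rw [div_le_one (by positivity)]; linarith
      have : 0 ≤ 1 - 1 / ((j : ℝ) + 2) := by linarith
      positivity
    · have hle : Nat.log 2 (M2 / h) ≤ j := by
        rw [← hlog]
        exact Nat.log_mono_right (Nat.div_le_div_right hM2)
      have hle' : ((Nat.log 2 (M2 / h) : ℕ) : ℝ) ≤ j := by exact_mod_cast hle
      have : 1 / ((j : ℝ) + 2) ≤ 1 / (((Nat.log 2 (M2 / h) : ℕ) : ℝ) + 2) :=
        one_div_le_one_div_of_le (by positivity) (by linarith)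
      refine mul_le_mul_of_nonneg_right ?_ (Nat.cast_nonneg _)
      exact mul_le_mul_of_nonneg_left (by linarith) (by positivity)
  have h1 : decoL h δ M1 ≤ 4 * δ * (1 - 1 / ((j : ℝ) + 1)) * M1 := by
    unfold decoL
    split_ifs with hlt
    · have : 1 / ((j : ℝ) + 1) ≤ 1 := by
        rw [div_le_one (by positivity)]; linarith
      have : 0 ≤ 1 - 1 / ((j : ℝ) + 1) := by linarith
      positivity
    · have hle : Nat.log 2 (M1 / h) + 1 ≤ j := by
        rw [← hlog, Nat.add_one_le_iff]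
        have hq : 1 ≤ M1 / h := (Nat.le_div_iff_mul_le hh).2 (by omega)
        have e1 : Nat.log 2 (M1 / h * 2) = Nat.log 2 (M1 / h) + 1 :=
          Nat.log_mul_base (by norm_num) (by omega)
        have e2 : M1 / h * 2 ≤ M / h := by
          rw [Nat.le_div_iff_mul_le hh]
          have := Nat.div_mul_le_self M1 h
          nlinarith
        have e3 := Nat.log_mono_right (b := 2) e2
        omega
      have hle' : ((Nat.log 2 (M1 / h) : ℕ) : ℝ) + 1 ≤ j := by exact_mod_cast hle
      have : 1 / ((j : ℝ) + 1) ≤ 1 / (((Nat.log 2 (M1 / h) : ℕ) : ℝ) + 2) :=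
        one_div_le_one_div_of_le (by positivity) (by linarith)
      refine mul_le_mul_of_nonneg_right ?_ (Nat.cast_nonneg _)
      exact mul_le_mul_of_nonneg_left (by linarith) (by positivity)
  have hfr : δ / (((j : ℝ) + 1) * (j + 2)) = δ * (1 / ((j : ℝ) + 1) - 1 / ((j : ℝ) + 2)) := by
    field_simp
    ring
  rw [hfr] at hc
  rw [hL]
  have hMR : (M1 : ℝ) + M2 ≤ M := by exact_mod_cast hM
  have hpos : 0 ≤ 4 * δ * (1 - 1 / ((j : ℝ) + 2)) := by
    have : 1 / ((j : ℝ) + 2) ≤ 1 := by
      rw [div_le_one (by positivity)]; linarith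
    have : 0 ≤ 1 - 1 / ((j : ℝ) + 2) := by linarith
    positivity
  have h3 := mul_le_mul_of_nonneg_left hMR hpos
  nlinarith [h1, h2, h3, hc]

private theorem deco_aux (G : SimpleGraph V) (h : ℕ) (hh : 0 < h) (δ : ℝ) (hδ : 0 < δ)
    (hδ1 : δ ≤ 1)
    (hcut : ∀ G' : SimpleGraph V, G' ≤ G → ∀ j : ℕ, 2 ^ j * h ≤ darts G' →
      darts G' < 2 ^ (j + 1) * h → ∃ S : Finset V, 0 < vol G' S ∧ 2 * vol G' S ≤ darts G' ∧
        (cut G' S : ℝ) < δ / (((j : ℝ) + 1) * (j + 2)) * (vol G' S : ℝ)) (m : ℕ) :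
    ∀ G' : SimpleGraph V, G' ≤ G → darts G' = m →
    ∃ (G1 : SimpleGraph V) (c : V → ℕ), G1 ≤ G' ∧ (∀ u v, G1.Adj u v → c u = c v) ∧
      (∀ i, (∑ v, if c v = i then dg G1 v else 0) < h) ∧
      (darts G' : ℝ) - darts G1 ≤ decoL h δ m := by
  induction m using Nat.strong_induction_on with
  | _ m ih =>
    intro G' hG' hm
    by_cases hmh : m < h
    · refine ⟨G', fun _ => 0, le_rfl, fun _ _ _ => rfl, ?_, ?_⟩
      · intro i
        refine lt_of_le_of_lt ?_ hmh
        rw [← hm]
        exact sum_le_sum fun v _ => by split_ifs <;> simp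
      · unfold decoL
        rw [if_pos hmh]
        simp
    · push Not at hmh
      set j := Nat.log 2 (m / h) with hj
      have hq : m / h ≠ 0 := by
        have : 1 ≤ m / h := (Nat.le_div_iff_mul_le hh).2 (by omega)
        omega
      have hj1 : 2 ^ j * h ≤ m := (Nat.le_div_iff_mul_le hh).1 (Nat.pow_log_le_self 2 hq)
      have hj2 : m < 2 ^ (j + 1) * h :=
        (Nat.div_lt_iff_lt_mul hh).1 (Nat.lt_pow_succ_log_self (by norm_num) _)
      obtain ⟨S, hS1, hS2, hS3⟩ := hcut G' hG' j (by rw [hm]; exact hj1) (by rw [hm]; exact hj2)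
      have hv := deco_vol G' S
      have ht := deco_total G' S
      set M1 := darts (decoI G' (· ∈ S)) with hM1
      set M2 := darts (decoI G' (· ∉ S)) with hM2
      set C := cut G' S with hC
      rw [hm] at ht hS2
      have hj0 : (0 : ℝ) ≤ j := Nat.cast_nonneg j
      have hphi0 : 0 < δ / (((j : ℝ) + 1) * (j + 2)) := by positivity
      have hphi : δ / (((j : ℝ) + 1) * (j + 2)) ≤ 1 / 2 := by
        rw [div_le_div_iff₀ (by positivity) (by norm_num)]
        nlinarith
      have hCM : (C : ℝ) ≤ 2 * (δ / (((j : ℝ) + 1) * (j + 2))) * M1 := by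
        have hvR : (vol G' S : ℝ) = M1 + C := by exact_mod_cast hv
        rw [hvR] at hS3
        have hC0 : (0 : ℝ) ≤ C := Nat.cast_nonneg _
        nlinarith [mul_le_mul_of_nonneg_right hphi hC0]
      obtain ⟨A, ca, hA1, hA2, hA3, hA4⟩ := ih M1 (by omega) (decoI G' (· ∈ S))
        ((deco_I_le _ _).trans hG') rfl
      obtain ⟨B, cb, hB1, hB2, hB3, hB4⟩ := ih M2 (by omega) (decoI G' (· ∉ S))
        ((deco_I_le _ _).trans hG') rfl
      have hdg := deco_sup G' A B S hA1 hB1
      refine ⟨A ⊔ B, fun v => if v ∈ S then 2 * ca v else 2 * cb v + 1,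
        sup_le (hA1.trans (deco_I_le _ _)) (hB1.trans (deco_I_le _ _)), ?_, ?_, ?_⟩
      · intro u v huv
        rcases huv with h1 | h1
        · have h2 := hA1 h1
          simp only [if_pos h2.2.1, if_pos h2.2.2, hA2 u v h1]
        · have h2 := hB1 h1
          simp only [if_neg h2.2.1, if_neg h2.2.2, hB2 u v h1]
      · intro i
        rcases Nat.even_or_odd' i with ⟨t, ht' | ht'⟩
        · refine lt_of_le_of_lt (sum_le_sum fun v _ => ?_) (hA3 t)
          beta_reduce
          by_cases hvS : v ∈ S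
          · rw [if_pos hvS, hdg v, deco_iso G' _ B hB1 v (by simpa using hvS), add_zero]
            by_cases h1 : ca v = t
            · rw [if_pos h1]
              split_ifs <;> simp
            · rw [if_neg (by omega)]
              exact Nat.zero_le _
          · rw [if_neg hvS, if_neg (by omega)]
            exact Nat.zero_le _
        · refine lt_of_le_of_lt (sum_le_sum fun v _ => ?_) (hB3 t)
          beta_reduce
          by_cases hvS : v ∈ S
          · rw [if_pos hvS, if_neg (by omega)]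
            exact Nat.zero_le _
          · rw [if_neg hvS, hdg v, deco_iso G' _ A hA1 v hvS, zero_add]
            by_cases h1 : cb v = t
            · rw [if_pos h1]
              split_ifs <;> simp
            · rw [if_neg (by omega)]
              exact Nat.zero_le _
      · have hd : darts (A ⊔ B) = darts A + darts B := by
          unfold darts
          rw [← sum_add_distrib]
          exact sum_congr rfl fun v _ => hdg v
        have hnum := deco_num hh hδ (M := m) (M1 := M1) (M2 := M2) (c := C) hj1 hj2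
          (by omega) (by omega) (by omega) hCM
        rw [hm, hd]
        have htR : (m : ℝ) = M1 + M2 + 2 * C := by exact_mod_cast ht
        push_cast
        linarith

/-- DECO: recursive decomposition along sparse cuts. -/
theorem deco (G : SimpleGraph V) (h : ℕ) (hh : 0 < h) (δ : ℝ) (hδ : 0 < δ) (hδ1 : δ ≤ 1)
    (hcut : ∀ G' : SimpleGraph V, G' ≤ G → ∀ j : ℕ, 2 ^ j * h ≤ darts G' →
      darts G' < 2 ^ (j + 1) * h → ∃ S : Finset V, 0 < vol G' S ∧ 2 * vol G' S ≤ darts G' ∧
        (cut G' S : ℝ) < δ / (((j : ℝ) + 1) * (j + 2)) * (vol G' S : ℝ)) :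
    ∃ (G1 : SimpleGraph V) (c : V → ℕ), G1 ≤ G ∧ (∀ u v, G1.Adj u v → c u = c v) ∧
      (∀ i, (∑ v, if c v = i then dg G1 v else 0) < h) ∧
      (darts G : ℝ) - darts G1 ≤ 4 * δ * darts G := by
  obtain ⟨G1, c, h1, h2, h3, h4⟩ := deco_aux G h hh δ hδ hδ1 hcut (darts G) G le_rfl rfl
  refine ⟨G1, c, h1, h2, h3, h4.trans ?_⟩
  unfold decoL
  split_ifs
  · positivity
  · refine mul_le_mul_of_nonneg_right ?_ (Nat.cast_nonneg _)
    have : 0 ≤ 1 / ((Nat.log 2 (darts G / h) : ℝ) + 2) := by positivity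
    nlinarith

end NGR
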