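import Mathlib

/-!
Combinatorial definitions for the linear bound on topological graphs without natural grids.
-/

open Finset
open scoped Classical

noncomputable section

namespace NGR

/-- `X u v u' v'` : the edge `uv` crosses the edge `u'v'` (only edges without a common
vertex can cross). -/
structure IsCross {V : Type} (X : V → V → V → V → Prop) : Prop where
  swap : ∀ u v u' v', X u v u' v' → X v u u' v'
  symm : ∀ u v u' v', X u v u' v' → X u' v' u v
  disj : ∀ u v u' v', X u v u' v' → u ≠ u' ∧ u ≠ v' ∧ v ≠ u' ∧ v ≠ v'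

/-- A walk with `l` steps, each step stays or moves along an edge. -/
def LazyWalk {V : Type} (G : SimpleGraph V) (l : ℕ) (P : ℕ → V) : Prop :=
  ∀ t, t < l → (P (t + 1) = P t ∨ G.Adj (P t) (P (t + 1)))

/-- Two walks with `l` steps share a vertex or contain two crossing edges. -/
def Meet {V : Type} (G : SimpleGraph V) (X : V → V → V → V → Prop) (l : ℕ) (P Q : ℕ → V) :
    Prop :=
  (∃ t t', t ≤ l ∧ t' ≤ l ∧ P t = Q t') ∨
  (∃ t t', t < l ∧ t' < l ∧ G.Adj (P t) (P (t + 1)) ∧ G.Adj (Q t') (Q (t' + 1)) ∧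
    X (P t) (P (t + 1)) (Q t') (Q (t' + 1)))

/-- The van Kampen property: nine walks between three starting points and three end points
cannot be independent. -/
def VK {V : Type} (G : SimpleGraph V) (X : V → V → V → V → Prop) : Prop :=
  ∀ (l : ℕ) (a b : Fin 3 → V) (P : Fin 3 → Fin 3 → ℕ → V),
    (∀ i j, P i j 0 = a i) → (∀ i j, P i j l = b j) → (∀ i j, LazyWalk G l (P i j)) →
    ∃ i i' j j', i ≠ i' ∧ j ≠ j' ∧ Meet G X l (P i j) (P i' j')

/-- Crossing density of every weight on the darts is bounded by the maximal vertex weight. -/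
def NL {V : Type} [Fintype V] (K : ℕ) (lam : ℝ) (G : SimpleGraph V)
    (X : V → V → V → V → Prop) : Prop :=
  ∀ (p : V → V → ℝ) (η : ℝ), 0 ≤ η → (∀ u v, 0 ≤ p u v) → (∀ u v, p u v = p v u) →
    (∀ u v, ¬ G.Adj u v → p u v = 0) → (∑ u, ∑ v, p u v ≤ 1) → (∀ u, ∑ v, p u v ≤ η) →
    (∑ u, ∑ v, ∑ u', ∑ v', if X u v u' v' then p u v * p u' v' else 0) ^ K ≤ lam * η

/-- The class of graphs with a crossing relation used in the proof. -/
structure InC {V : Type} [Fintype V] (K lam : ℕ) (G : SimpleGraph V)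
    (X : V → V → V → V → Prop) : Prop where
  cross : IsCross X
  vk : VK G X
  nl : NL K (lam : ℝ) G X

/-- degree -/
def dg {V : Type} [Fintype V] (G : SimpleGraph V) (v : V) : ℕ :=
  (univ.filter (fun w => G.Adj v w)).card

/-- number of darts = twice the number of edges -/
def darts {V : Type} [Fintype V] (G : SimpleGraph V) : ℕ := ∑ v, dg G v

/-- an injective key that is monotone in the degree -/
def key {V : Type} [Fintype V] (G : SimpleGraph V) (v : V) : ℕ :=
  dg G v * Fintype.card V + (Fintype.equivFin V v : ℕ)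

/-- the neighbours of `w` with larger key than `u` -/
def upn {V : Type} [Fintype V] (G : SimpleGraph V) (w u : V) : Finset V :=
  univ.filter (fun c => G.Adj w c ∧ key G u < key G c)

/-- the pairs `(w,u)` treated at one degree class in the bootstrapping step -/
def cls {V : Type} [Fintype V] (G : SimpleGraph V) (s x : ℕ) : Finset (V × V) :=
  univ.filter (fun q => G.Adj q.1 q.2 ∧ key G q.1 < key G q.2 ∧ x ≤ dg G q.2 ∧
    dg G q.2 < 2 ^ (4 * s) * x ∧ s ≤ (upn G q.1 q.2).card)

/-- volume of a vertex set -/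
def vol {V : Type} [Fintype V] (G : SimpleGraph V) (S : Finset V) : ℕ := ∑ v ∈ S, dg G v

/-- number of edges leaving a vertex set -/
def cut {V : Type} [Fintype V] (G : SimpleGraph V) (S : Finset V) : ℕ :=
  ∑ u ∈ S, (univ.filter (fun v => v ∉ S ∧ G.Adj u v)).card

/-- all edges have both ends in `S` -/
def Inside {V : Type} (G : SimpleGraph V) (S : Finset V) : Prop :=
  ∀ u v, G.Adj u v → u ∈ S

/-- density bound for the class -/
def Dens (V : Type) [Fintype V] (K lam : ℕ) (B : ℝ) : Prop :=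
  ∀ (G : SimpleGraph V) (X : V → V → V → V → Prop) (S : Finset V),
    InC K lam G X → Inside G S → (darts G : ℝ) ≤ B * (S.card : ℝ)

/-- density bound for the graphs of the class with maximum degree at most `Δ` -/
def DensD (V : Type) [Fintype V] (K lam Δ : ℕ) (B : ℝ) : Prop :=
  ∀ (G : SimpleGraph V) (X : V → V → V → V → Prop) (S : Finset V),
    InC K lam G X → (∀ v, dg G v ≤ Δ) → Inside G S → (darts G : ℝ) ≤ B * (S.card : ℝ)

/-- size of complete bipartite graphs that cannot occur -/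
def sK (K lam : ℕ) : ℕ := 144 + lam * 72 ^ K

/-- number of meetings of two walks -/
def Nm {V : Type} (G : SimpleGraph V) (X : V → V → V → V → Prop) (l : ℕ) (P Q : ℕ → V) : ℝ :=
  (∑ t ∈ range (l + 1), ∑ t' ∈ range (l + 1), if P t = Q t' then (1 : ℝ) else 0) +
  (∑ t ∈ range l, ∑ t' ∈ range l, if G.Adj (P t) (P (t + 1)) ∧ G.Adj (Q t') (Q (t' + 1)) ∧
    X (P t) (P (t + 1)) (Q t') (Q (t' + 1)) then (1 : ℝ) else 0)

/-- transition probabilities of the lazy random walk -/
def pk {V : Type} [Fintype V] (G : SimpleGraph V) (u v : V) : ℝ :=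
  if dg G u = 0 then (if v = u then 1 else 0)
  else (if v = u then 1 / 2 else 0) + (if G.Adj u v then 1 / (2 * (dg G u : ℝ)) else 0)

/-- `n` step transition probabilities -/
def pkn {V : Type} [Fintype V] (G : SimpleGraph V) : ℕ → V → V → ℝ
  | 0, x, y => if x = y then 1 else 0
  | n + 1, x, y => ∑ z, pkn G n x z * pk G z y

/-- No natural `(k,k)`-grid, in terms of darts. -/
def NoGrid {V : Type} (k : ℕ) (G : SimpleGraph V) (X : V → V → V → V → Prop) : Prop :=
  ¬ ∃ e f : Fin k → V × V,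
    (∀ i, G.Adj (e i).1 (e i).2) ∧ (∀ i, G.Adj (f i).1 (f i).2) ∧
    (∀ i j, X (e i).1 (e i).2 (f j).1 (f j).2) ∧
    (∀ i j, i ≠ j → (e i).1 ≠ (e j).1 ∧ (e i).1 ≠ (e j).2 ∧ (e i).2 ≠ (e j).1 ∧
      (e i).2 ≠ (e j).2) ∧
    (∀ i j, i ≠ j → (f i).1 ≠ (f j).1 ∧ (f i).1 ≠ (f j).2 ∧ (f i).2 ≠ (f j).1 ∧
      (f i).2 ≠ (f j).2)

end NGR
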