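import Pool.Agent.NGR.St5c

open Finset
open scoped Classical

noncomputable section

namespace NGR

variable {V : Type} [Fintype V]

/-- all adjacent pairs, ordered by the key -/
def aP (G : SimpleGraph V) : Finset (V × V) :=
  univ.filter (fun q => G.Adj q.1 q.2 ∧ key G q.1 < key G q.2)

theorem darts_eq_aP (G : SimpleGraph V) : darts G ≤ 2 * (aP G).card := by
  rw [darts_eq_card]
  have hsw : ((aP G).image Prod.swap).card = (aP G).card :=
    card_image_of_injective _ Prod.swap_injective
  have h1 : (univ.filter (fun q : V × V => G.Adj q.1 q.2)) ⊆ aP G ∪ (aP G).image Prod.swap := by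
    intro q hq
    simp only [mem_filter, mem_univ, true_and] at hq
    rw [mem_union, mem_image]
    rcases lt_trichotomy (key G q.1) (key G q.2) with h | h | h
    · left
      simp only [aP, mem_filter, mem_univ, true_and]
      exact ⟨hq, h⟩
    · exact absurd (key_inj G h) hq.ne
    · right
      refine ⟨q.swap, ?_, by simp⟩
      simp only [aP, mem_filter, mem_univ, true_and, Prod.fst_swap, Prod.snd_swap]
      exact ⟨hq.symm, h⟩
  have h2 := card_le_card h1
  have h3 := card_union_le (aP G) ((aP G).image Prod.swap)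
  omega

/-- few vertices have few neighbours above -/
theorem few_low (G : SimpleGraph V) (s : ℕ) (hs : 1 ≤ s) (w : V) :
    (univ.filter (fun u => G.Adj w u ∧ (upn G w u).card < s)).card ≤ s := by
  set T := univ.filter (fun u => G.Adj w u ∧ (upn G w u).card < s) with hT
  rcases T.eq_empty_or_nonempty with h0 | hne
  · rw [h0]; simp
  · obtain ⟨u, hu, hmin⟩ := exists_min_image T (key G) hne
    have h1 : T.erase u ⊆ upn G w u := by
      intro c hc
      rw [mem_erase] at hc
      have hcT := hc.2
      rw [hT, mem_filter] at hcT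
      simp only [upn, mem_filter, mem_univ, true_and]
      refine ⟨hcT.2.1, lt_of_le_of_ne (hmin c hc.2) ?_⟩
      intro e
      exact hc.1 (key_inj G e).symm
    have h2 := card_le_card h1
    rw [card_erase_of_mem hu] at h2
    have h3 : (upn G w u).card < s := by
      rw [hT, mem_filter] at hu
      exact hu.2.2
    omega

theorem geo_half (N : ℕ) : ∑ q ∈ range N, ((1 : ℝ) / 2) ^ q ≤ 2 := by
  rw [geom_sum_eq (by norm_num)]
  have : (0 : ℝ) ≤ (1 / 2) ^ N := by positivity
  rw [div_le_iff_of_neg (by norm_num)]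
  linarith

/-- ST5: the bootstrapping step. -/
theorem st5 {K lam s Y : ℕ} (hK : 1 ≤ K) (hlam : 1 ≤ lam) (hs : s = sK K lam)
    (D : ℝ) (hD1 : 1 ≤ D) (hD : Dens V K (4 ^ K * lam) D)
    (hY : (2 : ℝ) ^ (4 * s + 6) * s * D ≤ Y) (B : ℝ) (hB0 : 0 ≤ B)
    (hB : DensD V K lam (Y ^ (4 * s)) B) : Dens V K lam (4 * (s : ℝ) + 2 * B) := by
  intro G X S h hS
  have hs1 : 1 ≤ s := by
    rw [hs]; unfold sK; omega
  have hsR : (1 : ℝ) ≤ (s : ℝ) := by exact_mod_cast hs1
  have hp1 : (1 : ℝ) ≤ (2 : ℝ) ^ (4 * s) := one_le_pow₀ (by norm_num)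
  have hp2 : (2 : ℝ) ^ (4 * s + 6) = 64 * (2 : ℝ) ^ (4 * s) := by
    rw [pow_add]; norm_num; ring
  have hsD : 1 ≤ (s : ℝ) * D := by nlinarith
  have hYD : D ≤ (Y : ℝ) := by
    refine le_trans ?_ hY
    rw [hp2]
    have : (1 : ℝ) ≤ 64 * (2 : ℝ) ^ (4 * s) * s := by nlinarith
    nlinarith
  have hY1R : (1 : ℝ) ≤ (Y : ℝ) := le_trans hD1 hYD
  have hY1 : 1 ≤ Y := by exact_mod_cast hY1R
  have hM0 : (0 : ℝ) ≤ (darts G : ℝ) := Nat.cast_nonneg _
  set N := Fintype.card V + 1 with hN
  set A1 : Finset (V × V) := (range N).biUnion (fun q => cls G s ((2 ^ q * Y) ^ (4 * s)))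
    with hA1
  set A2 : Finset (V × V) := (aP G).filter (fun q => (upn G q.1 q.2).card < s) with hA2
  set A3 : Finset (V × V) := (aP G).filter (fun q => dg G q.2 < Y ^ (4 * s)) with hA3
  have hcov : aP G ⊆ A1 ∪ A2 ∪ A3 := by
    intro q hq
    rw [mem_union, mem_union]
    by_cases h3 : dg G q.2 < Y ^ (4 * s)
    · right
      rw [hA3, mem_filter]
      exact ⟨hq, h3⟩
    · left
      by_cases h2 : (upn G q.1 q.2).card < s
      · right
        rw [hA2, mem_filter]
        exact ⟨hq, h2⟩
      · left
        have hq' := hq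
        simp only [aP, mem_filter, mem_univ, true_and] at hq'
        -- largest r with (2^r Y)^(4s) ≤ dg
        have hex : ∃ r, dg G q.2 < (2 ^ (r + 1) * Y) ^ (4 * s) := by
          refine ⟨dg G q.2, ?_⟩
          have e1 : dg G q.2 < 2 ^ (dg G q.2 + 1) :=
            lt_trans Nat.lt_two_pow_self (Nat.pow_lt_pow_right (by norm_num) (Nat.lt_succ_self _))
          have e2 : 2 ^ (dg G q.2 + 1) ≤ 2 ^ (dg G q.2 + 1) * Y := Nat.le_mul_of_pos_right _ hY1
          have e3 : 2 ^ (dg G q.2 + 1) * Y ≤ (2 ^ (dg G q.2 + 1) * Y) ^ (4 * s) :=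
            Nat.le_self_pow (by omega) _
          omega
        have hr := Nat.find_spec hex
        have hr' := fun m hm => Nat.find_min hex (m := m) hm
        set r := Nat.find hex with hrdef
        have hlow : (2 ^ r * Y) ^ (4 * s) ≤ dg G q.2 := by
          rcases Nat.eq_zero_or_pos r with h0 | hpos
          · rw [h0]
            simpa using h3
          · have := hr' (r - 1) (by omega)
            rw [Nat.sub_add_cancel hpos] at this
            omega
        have hrN : r < N := by
          have e1 : r < 2 ^ r := Nat.lt_two_pow_self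
          have e2 : 2 ^ r ≤ 2 ^ r * Y := Nat.le_mul_of_pos_right _ hY1
          have e3 : 2 ^ r * Y ≤ (2 ^ r * Y) ^ (4 * s) := Nat.le_self_pow (by omega) _
          have e4 : dg G q.2 ≤ Fintype.card V := by
            unfold dg
            exact le_trans (card_filter_le _ _) (by simp)
          omega
        rw [hA1, mem_biUnion]
        refine ⟨r, mem_range.mpr hrN, ?_⟩
        simp only [cls, mem_filter, mem_univ, true_and]
        refine ⟨hq'.1, hq'.2, hlow, ?_, by omega⟩
        have e5 : (2 ^ (r + 1) * Y) ^ (4 * s) = 2 ^ (4 * s) * (2 ^ r * Y) ^ (4 * s) := by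
          rw [← mul_pow]
          congr 1
          ring
        rw [← e5]
        exact hr
  have hcard : (darts G : ℝ) ≤ 2 * ((A1.card : ℝ) + (A2.card : ℝ) + (A3.card : ℝ)) := by
    have h1 := darts_eq_aP G
    have h2 := card_le_card hcov
    have h3 := card_union_le (A1 ∪ A2) A3
    have h4 := card_union_le A1 A2
    have h5 : darts G ≤ 2 * (A1.card + A2.card + A3.card) := by omega
    exact_mod_cast h5
  -- A3
  have h3 : 2 * (A3.card : ℝ) ≤ B * (S.card : ℝ) := by
    have e1 : InC K lam (pG A3) X := by
      apply mono_G h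
      apply pG_le
      intro q hq
      rw [hA3, mem_filter] at hq
      have hq1 := hq.1
      simp only [aP, mem_filter, mem_univ, true_and] at hq1
      exact hq1.1
    have hkey : ∀ q ∈ A3, G.Adj q.1 q.2 ∧ key G q.1 < key G q.2 ∧ dg G q.2 < Y ^ (4 * s) := by
      intro q hq
      rw [hA3, mem_filter] at hq
      have hq1 := hq.1
      simp only [aP, mem_filter, mem_univ, true_and] at hq1
      exact ⟨hq1.1, hq1.2, hq.2⟩
    have e2 : ∀ v, dg (pG A3) v ≤ Y ^ (4 * s) := by
      intro v
      by_cases hv : ∃ w, (pG A3).Adj v w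
      · obtain ⟨w, hw⟩ := hv
        have hle : dg (pG A3) v ≤ dg G v :=
          dg_le_of_le (pG_le A3 (fun q hq => (hkey q hq).1)) v
        rcases hw.2 with h' | h'
        · have := hkey _ h'
          have h6 := key_mono G this.2.1
          have h7 := this.2.2
          simp only at h6 h7
          omega
        · have := hkey _ h'
          have h7 := this.2.2
          simp only at h7
          omega
      · have : dg (pG A3) v = 0 := by
          unfold dg
          rw [card_eq_zero, filter_eq_empty_iff]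
          intro w _ hw
          exact hv ⟨w, hw⟩
        rw [this]
        exact Nat.zero_le _
    have e3 : Inside (pG A3) S := by
      apply pG_inside
      intro q hq
      have := (hkey q hq).1
      exact ⟨hS _ _ this, hS _ _ this.symm⟩
    have e4 := hB (pG A3) X S e1 e2 e3
    have e5 := pG_darts (G := G) A3 (fun q hq => (hkey q hq).2.1)
    have e6 : ((2 * A3.card : ℕ) : ℝ) ≤ (darts (pG A3) : ℝ) := by exact_mod_cast e5
    push_cast at e6
    linarith
  -- A2
  have h2 : (A2.card : ℝ) ≤ (s : ℝ) * (S.card : ℝ) := by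
    have e1 : A2.card ≤ s * S.card := by
      rw [card_eq_sum_card_fiberwise (f := Prod.fst) (t := S)]
      · calc ∑ w ∈ S, (A2.filter (fun q => q.1 = w)).card
            ≤ ∑ _w ∈ S, s := by
              apply sum_le_sum
              intro w _
              refine le_trans ?_ (few_low G s hs1 w)
              apply card_le_card_of_injOn (fun q => q.2)
              · intro q hq
                rw [mem_coe, mem_filter, hA2, mem_filter] at hq
                have hq1 := hq.1.1
                simp only [aP, mem_filter, mem_univ, true_and] at hq1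
                rw [mem_coe, mem_filter]
                refine ⟨mem_univ _, ?_, ?_⟩
                · rw [← hq.2]; exact hq1.1
                · rw [← hq.2]; exact hq.1.2
              · intro q hq q' hq' e
                rw [mem_coe, mem_filter] at hq hq'
                exact Prod.ext (hq.2.trans hq'.2.symm) e
          _ = s * S.card := by rw [sum_const, smul_eq_mul, mul_comm]
      · intro q hq
        rw [mem_coe, hA2, mem_filter] at hq
        have hq1 := hq.1
        simp only [aP, mem_filter, mem_univ, true_and] at hq1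
        exact hS _ _ hq1.1
    exact_mod_cast e1
  -- A1
  have h1 : (A1.card : ℝ) ≤ (darts G : ℝ) / 4 := by
    have e1 : (A1.card : ℝ) ≤ ∑ q ∈ range N, ((cls G s ((2 ^ q * Y) ^ (4 * s))).card : ℝ) := by
      have := card_biUnion_le (s := range N) (t := fun q => cls G s ((2 ^ q * Y) ^ (4 * s)))
      exact_mod_cast this
    have e2 : ∀ q ∈ range N, ((cls G s ((2 ^ q * Y) ^ (4 * s))).card : ℝ) ≤
        (((2 : ℝ) ^ (4 * s) * D + 2 * s) * (darts G : ℝ) / (Y : ℝ)) * ((1 : ℝ) / 2) ^ q := by
      intro q _
      have hq1 : 1 ≤ 2 ^ q * Y := Nat.mul_pos (pow_pos (by norm_num) q) hY1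
      have hqD : D ≤ ((2 ^ q * Y : ℕ) : ℝ) := by
        push_cast
        have : (1 : ℝ) ≤ (2 : ℝ) ^ q := one_le_pow₀ (by norm_num)
        nlinarith
      have e3 := st5_class hK hlam hs D hD1 hD h hq1 hqD rfl
      refine le_trans e3 (le_of_eq ?_)
      push_cast
      have h2q : (2 : ℝ) ^ q ≠ 0 := by positivity
      have hY0 : (Y : ℝ) ≠ 0 := by linarith
      rw [one_div, inv_pow]
      field_simp
    have e4 := le_trans e1 (sum_le_sum e2)
    rw [← mul_sum] at e4
    have hc0 : 0 ≤ ((2 : ℝ) ^ (4 * s) * D + 2 * s) * (darts G : ℝ) / (Y : ℝ) := by positivity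
    have e5 := le_trans e4 (mul_le_mul_of_nonneg_left (geo_half N) hc0)
    refine le_trans e5 ?_
    rw [div_mul_eq_mul_div, div_le_div_iff₀ (by linarith) (by norm_num)]
    rw [hp2] at hY
    have hkey : ((2 : ℝ) ^ (4 * s) * D + 2 * s) * 2 * 4 ≤ 64 * (2 : ℝ) ^ (4 * s) * s * D := by
      set P := (2 : ℝ) ^ (4 * s) with hP
      have a1 : P * D ≤ P * D * s := by
        have : 0 ≤ P * D := by positivity
        nlinarith
      have a2 : (s : ℝ) ≤ P * D * s := by
        have : 1 ≤ P * D := by nlinarith
        nlinarith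
      nlinarith
    have : ((2 : ℝ) ^ (4 * s) * D + 2 * s) * 2 * 4 ≤ (Y : ℝ) := le_trans hkey hY
    nlinarith
  nlinarith

end NGR
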