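import Pool.Agent.NGR.St4i
import Pool.Agent.NGR.St5

open Finset
open scoped Classical

noncomputable section

namespace NGR

variable {V : Type} [Fintype V]

private theorem fin_mono {V : Type} [Fintype V] {K lam : ℕ} {B B' : ℝ} (h : Dens V K lam B)
    (hB : B ≤ B') : Dens V K lam B' := by
  intro G X S h1 h2
  exact (h G X S h1 h2).trans (mul_le_mul_of_nonneg_right hB (Nat.cast_nonneg _))

private theorem fin_s (K lam : ℕ) (hlam : 1 ≤ lam) :
    (144 : ℝ) ≤ (sK K lam : ℝ) ∧ (sK K lam : ℝ) ≤ (lam : ℝ) * (144 + 72 ^ K) := by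
  have hl : (1 : ℝ) ≤ (lam : ℝ) := by exact_mod_cast hlam
  have h72 : (0 : ℝ) < (72 : ℝ) ^ K := by positivity
  unfold sK
  push_cast
  constructor
  · nlinarith
  · nlinarith

private theorem fin_real (K C0 lam : ℕ) (hlam : 1 ≤ lam) (D : ℝ) (hD : 1 ≤ D) (Y : ℕ)
    (hY : (Y : ℝ) ≤ (2 : ℝ) ^ (4 * sK K lam + 6) * (sK K lam : ℝ) * D + 1) (hY1 : 1 ≤ Y)
    (E : ℕ) (hE : (342 : ℝ) + 2 * 72 ^ K ≤ E) :
    4 * ((sK K lam : ℕ) : ℝ) + 2 * (Real.exp ((C0 : ℝ) * (lam : ℝ) ^ C0) *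
      (1 + Real.log ((Y ^ (4 * sK K lam) : ℕ) : ℝ))) ≤
      Real.exp (((C0 + E + 1 : ℕ) : ℝ) * (lam : ℝ) ^ (C0 + E + 1)) * (1 + Real.log D) := by
  obtain ⟨hs1, hs2⟩ := fin_s K lam hlam
  set s : ℝ := (sK K lam : ℝ) with hs
  have hl : (1 : ℝ) ≤ (lam : ℝ) := by exact_mod_cast hlam
  have hlD : 0 ≤ Real.log D := Real.log_nonneg hD
  have hY0 : (0 : ℝ) < (Y : ℝ) := by exact_mod_cast hY1
  have hp : (1 : ℝ) ≤ (2 : ℝ) ^ (4 * sK K lam + 6) := one_le_pow₀ (by norm_num)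
  have hsD : 1 ≤ s * D := by nlinarith
  have hY2 : (Y : ℝ) ≤ (2 : ℝ) ^ (4 * sK K lam + 7) * s * D := by
    have h1 : (2 : ℝ) ^ (4 * sK K lam + 7) = 2 * (2 : ℝ) ^ (4 * sK K lam + 6) := by
      rw [pow_succ (2 : ℝ) (4 * sK K lam + 6)]
      ring
    rw [h1]
    have h2 : (1 : ℝ) ≤ (2 : ℝ) ^ (4 * sK K lam + 6) * (s * D) := by nlinarith
    nlinarith
  have hlY : Real.log (Y : ℝ) ≤ 6 * s * (1 + Real.log D) := by
    have h1 : Real.log (Y : ℝ) ≤ Real.log ((2 : ℝ) ^ (4 * sK K lam + 7) * s * D) :=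
      Real.log_le_log hY0 hY2
    have h2 : Real.log ((2 : ℝ) ^ (4 * sK K lam + 7) * s * D) =
        (4 * s + 7) * Real.log 2 + Real.log s + Real.log D := by
      rw [Real.log_mul (by positivity) (by positivity), Real.log_mul (by positivity) (by positivity),
        Real.log_pow]
      push_cast
      rfl
    have h3 : Real.log 2 ≤ 1 := by
      have := Real.log_two_lt_d9
      linarith
    have h4 : Real.log s ≤ s := by
      have := Real.log_le_sub_one_of_pos (show 0 < s by linarith)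
      linarith
    have h5 : (4 * s + 7) * Real.log 2 ≤ 4 * s + 7 := by nlinarith
    have h6 : 6 * s * (1 + Real.log D) = 6 * s + 6 * s * Real.log D := by ring
    have h7 : Real.log D ≤ 6 * s * Real.log D := by nlinarith
    rw [h2] at h1
    rw [h6]
    linarith
  have hlD2 : 1 + Real.log ((Y ^ (4 * sK K lam) : ℕ) : ℝ) ≤ 25 * s ^ 2 * (1 + Real.log D) := by
    push_cast
    rw [Real.log_pow]
    push_cast
    rw [← hs]
    have h1 : 4 * s * Real.log (Y : ℝ) ≤ 4 * s * (6 * s * (1 + Real.log D)) :=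
      mul_le_mul_of_nonneg_left hlY (by linarith)
    have h2 : (1 : ℝ) ≤ s ^ 2 * (1 + Real.log D) := by nlinarith
    nlinarith
  have hx : 0 < Real.exp ((C0 : ℝ) * (lam : ℝ) ^ C0) := Real.exp_pos _
  have hx1 : 1 ≤ Real.exp ((C0 : ℝ) * (lam : ℝ) ^ C0) := Real.one_le_exp (by positivity)
  set x := Real.exp ((C0 : ℝ) * (lam : ℝ) ^ C0) with hxdef
  have hmain : 4 * s + 2 * (x * (1 + Real.log ((Y ^ (4 * sK K lam) : ℕ) : ℝ))) ≤
      54 * s ^ 2 * x * (1 + Real.log D) := by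
    have h1 : x * (1 + Real.log ((Y ^ (4 * sK K lam) : ℕ) : ℝ)) ≤
        x * (25 * s ^ 2 * (1 + Real.log D)) := mul_le_mul_of_nonneg_left hlD2 hx.le
    have h2 : s ≤ s ^ 2 * x * (1 + Real.log D) := by
      have h3 : (1 : ℝ) ≤ x * (1 + Real.log D) := by nlinarith
      have h4 : s ^ 2 ≤ s ^ 2 * (x * (1 + Real.log D)) := by nlinarith [sq_nonneg s]
      nlinarith
    nlinarith
  refine hmain.trans ?_
  refine mul_le_mul_of_nonneg_right ?_ (by linarith)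
  have he1 : s ≤ Real.exp s := by
    have := Real.add_one_le_exp s
    linarith
  have he2 : (54 : ℝ) ≤ Real.exp 54 := by
    have := Real.add_one_le_exp (54 : ℝ)
    linarith
  have he3 : 54 * s ^ 2 ≤ Real.exp (54 + 2 * s) := by
    have h1 : Real.exp (54 + 2 * s) = Real.exp 54 * (Real.exp s) ^ 2 := by
      rw [Real.exp_add, ← Real.exp_nat_mul]
      norm_num
    rw [h1]
    have h2 : s ^ 2 ≤ (Real.exp s) ^ 2 := by
      apply pow_le_pow_left₀ (by linarith) he1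
    calc 54 * s ^ 2 ≤ Real.exp 54 * s ^ 2 := mul_le_mul_of_nonneg_right he2 (sq_nonneg s)
      _ ≤ Real.exp 54 * (Real.exp s) ^ 2 := mul_le_mul_of_nonneg_left h2 (Real.exp_pos _).le
  calc 54 * s ^ 2 * x ≤ Real.exp (54 + 2 * s) * x := mul_le_mul_of_nonneg_right he3 hx.le
    _ = Real.exp (54 + 2 * s + (C0 : ℝ) * (lam : ℝ) ^ C0) := by rw [hxdef, ← Real.exp_add]
    _ ≤ Real.exp (((C0 + E + 1 : ℕ) : ℝ) * (lam : ℝ) ^ (C0 + E + 1)) := by
        apply Real.exp_le_exp.mpr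
        have hp1 : (lam : ℝ) ^ C0 ≤ (lam : ℝ) ^ (C0 + E + 1) := pow_le_pow_right₀ hl (by omega)
        have hp2 : (lam : ℝ) ≤ (lam : ℝ) ^ (C0 + E + 1) := by
          calc (lam : ℝ) = (lam : ℝ) ^ 1 := (pow_one _).symm
            _ ≤ (lam : ℝ) ^ (C0 + E + 1) := pow_le_pow_right₀ hl (by omega)
        have h1 : 54 + 2 * s ≤ (E : ℝ) * (lam : ℝ) := by
          have h2 : (342 + 2 * 72 ^ K) * (lam : ℝ) ≤ (E : ℝ) * (lam : ℝ) :=
            mul_le_mul_of_nonneg_right hE (by linarith)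
          nlinarith
        have h3 : (E : ℝ) * (lam : ℝ) ≤ (E : ℝ) * (lam : ℝ) ^ (C0 + E + 1) :=
          mul_le_mul_of_nonneg_left hp2 (Nat.cast_nonneg _)
        have h4 : (C0 : ℝ) * (lam : ℝ) ^ C0 ≤ (C0 : ℝ) * (lam : ℝ) ^ (C0 + E + 1) :=
          mul_le_mul_of_nonneg_left hp1 (Nat.cast_nonneg _)
        have h5 : (0 : ℝ) ≤ (lam : ℝ) ^ (C0 + E + 1) := by positivity
        push_cast
        nlinarith

/-- FIN1: combination. -/
theorem fin1 (K : ℕ) (hK : 1 ≤ K) : ∃ C : ℕ, ∀ lam : ℕ, 1 ≤ lam → ∀ (V : Type) [Fintype V],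
    ∀ D : ℝ, 1 ≤ D → Dens V K (4 ^ K * lam) D →
      Dens V K lam (Real.exp ((C : ℝ) * (lam : ℝ) ^ C) * (1 + Real.log D)) := by
  obtain ⟨C0, hC0⟩ := st4i K hK
  refine ⟨C0 + (342 + 2 * 72 ^ K) + 1, ?_⟩
  intro lam hlam V _ D hD1 hD
  set Y : ℕ := ⌈(2 : ℝ) ^ (4 * sK K lam + 6) * (sK K lam : ℝ) * D⌉₊ with hYdef
  obtain ⟨hs1, hs2⟩ := fin_s K lam hlam
  have hpos : 0 < (2 : ℝ) ^ (4 * sK K lam + 6) * (sK K lam : ℝ) * D := by
    have : (0 : ℝ) < (sK K lam : ℝ) := by linarith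
    have : (0 : ℝ) < D := by linarith
    positivity
  have hY : (2 : ℝ) ^ (4 * sK K lam + 6) * (sK K lam : ℝ) * D ≤ (Y : ℝ) := Nat.le_ceil _
  have hY1 : 1 ≤ Y := Nat.ceil_pos.mpr hpos
  have hY2 : (Y : ℝ) ≤ (2 : ℝ) ^ (4 * sK K lam + 6) * (sK K lam : ℝ) * D + 1 :=
    (Nat.ceil_lt_add_one hpos.le).le
  have hYp : 1 ≤ Y ^ (4 * sK K lam) := Nat.one_le_pow _ _ hY1
  have hB0 : 0 ≤ Real.exp ((C0 : ℝ) * (lam : ℝ) ^ C0) *
      (1 + Real.log ((Y ^ (4 * sK K lam) : ℕ) : ℝ)) := by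
    have : 0 ≤ Real.log ((Y ^ (4 * sK K lam) : ℕ) : ℝ) :=
      Real.log_nonneg (by exact_mod_cast hYp)
    positivity
  have h := st5 hK hlam rfl D hD1 hD hY _ hB0 (hC0 lam hlam V (Y ^ (4 * sK K lam)) hYp)
  refine fin_mono h ?_
  exact fin_real K C0 lam hlam D hD1 Y hY2 hY1 (342 + 2 * 72 ^ K) (by push_cast; exact le_rfl)

private theorem fin_triv (V : Type) [Fintype V] (K lam : ℕ) :
    Dens V K lam (Fintype.card V : ℝ) := by
  intro G X S _ h2
  have h0 : ∀ v, v ∉ S → dg G v = 0 := by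
    intro v hv
    unfold dg
    rw [Finset.card_eq_zero, Finset.filter_eq_empty_iff]
    intro w _ hw
    exact hv (h2 v w hw)
  have h1 : darts G = ∑ v ∈ S, dg G v := by
    unfold darts
    symm
    apply Finset.sum_subset (Finset.subset_univ S)
    intro v _ hv
    exact h0 v hv
  have h3 : darts G ≤ S.card * Fintype.card V := by
    rw [h1]
    calc ∑ v ∈ S, dg G v ≤ ∑ _v ∈ S, Fintype.card V := by
          apply Finset.sum_le_sum
          intro v _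
          exact Finset.card_le_univ _
      _ = S.card * Fintype.card V := by rw [Finset.sum_const, smul_eq_mul]
  calc (darts G : ℝ) ≤ ((S.card * Fintype.card V : ℕ) : ℝ) := by exact_mod_cast h3
    _ = (Fintype.card V : ℝ) * (S.card : ℝ) := by
        push_cast
        ring

private theorem fin_step (C M x : ℝ) (hC : 0 ≤ C) (hM : 1 ≤ M) (hx : 1 ≤ x) :
    Real.exp (C * x) * (1 + 2 * (C + 4 * M) * (M * x)) ≤ Real.exp (2 * (C + 4 * M) * x) := by
  set A : ℝ := 2 * (C + 4 * M) with hA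
  have hA1 : 8 ≤ A := by linarith
  have h1 : 1 + A * (M * x) ≤ 2 * M * (A * x) := by
    have h2 : 1 ≤ M * (A * x) := by
      have h3 : 1 ≤ A * x := by nlinarith
      nlinarith
    nlinarith
  have h4 : A * x ≤ 2 * Real.exp (A * x / 2) := by
    have := Real.add_one_le_exp (A * x / 2)
    linarith
  have h5 : 4 * M ≤ Real.exp (4 * M) := by
    have := Real.add_one_le_exp (4 * M)
    linarith
  have h6 : 1 + A * (M * x) ≤ Real.exp (4 * M) * Real.exp (A * x / 2) := by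
    calc 1 + A * (M * x) ≤ 2 * M * (A * x) := h1
      _ ≤ 2 * M * (2 * Real.exp (A * x / 2)) := mul_le_mul_of_nonneg_left h4 (by linarith)
      _ = 4 * M * Real.exp (A * x / 2) := by ring
      _ ≤ Real.exp (4 * M) * Real.exp (A * x / 2) :=
          mul_le_mul_of_nonneg_right h5 (Real.exp_pos _).le
  calc Real.exp (C * x) * (1 + A * (M * x))
      ≤ Real.exp (C * x) * (Real.exp (4 * M) * Real.exp (A * x / 2)) :=
        mul_le_mul_of_nonneg_left h6 (Real.exp_pos _).le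
    _ = Real.exp (C * x + (4 * M + A * x / 2)) := by rw [← Real.exp_add, ← Real.exp_add]
    _ ≤ Real.exp (A * x) := by
        apply Real.exp_le_exp.mpr
        have h7 : 4 * M ≤ 4 * M * x := by nlinarith
        have h8 : A * x = 2 * (C * x + 4 * M * x) := by rw [hA]; ring
        linarith

private theorem fin1' (K : ℕ) (hK : 1 ≤ K) : ∃ C : ℕ, 1 ≤ C ∧ ∀ lam : ℕ, 1 ≤ lam →
    ∀ (V : Type) [Fintype V], ∀ D : ℝ, 1 ≤ D → Dens V K (4 ^ K * lam) D →
      Dens V K lam (Real.exp ((C : ℝ) * (lam : ℝ) ^ C) * (1 + Real.log D)) := by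
  obtain ⟨C, hC⟩ := fin1 K hK
  refine ⟨C + 1, by omega, ?_⟩
  intro lam hlam V _ D hD1 hD
  refine fin_mono (hC lam hlam V D hD1 hD) ?_
  have hl : (1 : ℝ) ≤ (lam : ℝ) := by exact_mod_cast hlam
  have h0 : 0 ≤ 1 + Real.log D := by
    have := Real.log_nonneg hD1
    linarith
  refine mul_le_mul_of_nonneg_right (Real.exp_le_exp.mpr ?_) h0
  have h1 : (lam : ℝ) ^ C ≤ (lam : ℝ) ^ (C + 1) := pow_le_pow_right₀ hl (by omega)
  have h2 : (C : ℝ) ≤ ((C + 1 : ℕ) : ℝ) := by exact_mod_cast Nat.le_succ C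
  exact mul_le_mul h2 h1 (by positivity) (by positivity)

/-- FIN2: iteration. -/
theorem fin2 (K lam : ℕ) (hK : 1 ≤ K) (hlam : 1 ≤ lam) :
    ∃ C : ℝ, ∀ (V : Type) [Fintype V], Dens V K lam C := by
  obtain ⟨C, hC1, hC⟩ := fin1' K hK
  set M : ℝ := ((4 ^ K : ℕ) : ℝ) ^ C with hM
  have hM1 : 1 ≤ M := by
    apply one_le_pow₀
    exact_mod_cast Nat.one_le_pow _ _ (by norm_num)
  set A : ℝ := 2 * ((C : ℝ) + 4 * M) with hA
  have hA1 : 1 ≤ A := by
    have : (0 : ℝ) ≤ (C : ℝ) := Nat.cast_nonneg _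
    linarith
  have h4 : 1 < 4 ^ K := Nat.one_lt_pow (by omega) (by norm_num)
  have hlj : ∀ j : ℕ, 1 ≤ (4 ^ K) ^ j * lam := fun j =>
    Nat.one_le_iff_ne_zero.mpr (Nat.mul_ne_zero (by positivity) (by omega))
  have hbase : ∀ (V : Type) [Fintype V] (j : ℕ), Fintype.card V ≤ j →
      Dens V K ((4 ^ K) ^ j * lam) (Real.exp (A * (((4 ^ K) ^ j * lam : ℕ) : ℝ) ^ C)) := by
    intro V _ j hj
    refine fin_mono (fin_triv V K _) ?_
    have h1 : j < (4 ^ K) ^ j := Nat.lt_pow_self h4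
    have h2 : Fintype.card V ≤ (4 ^ K) ^ j * lam := by
      calc Fintype.card V ≤ (4 ^ K) ^ j := by omega
        _ ≤ (4 ^ K) ^ j * lam := Nat.le_mul_of_pos_right _ (by omega)
    have h3 : (Fintype.card V : ℝ) ≤ (((4 ^ K) ^ j * lam : ℕ) : ℝ) := by exact_mod_cast h2
    have h5 : (1 : ℝ) ≤ (((4 ^ K) ^ j * lam : ℕ) : ℝ) := by exact_mod_cast hlj j
    generalize (((4 ^ K) ^ j * lam : ℕ) : ℝ) = x at h3 h5 ⊢
    have h6 : x ≤ x ^ C := by
      calc x = x ^ 1 := (pow_one x).symm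
        _ ≤ x ^ C := pow_le_pow_right₀ h5 hC1
    have h7 : x ^ C ≤ A * x ^ C := by nlinarith
    have h8 := Real.add_one_le_exp (A * x ^ C)
    linarith
  have hstep : ∀ (V : Type) [Fintype V] (j : ℕ),
      Dens V K ((4 ^ K) ^ (j + 1) * lam)
        (Real.exp (A * (((4 ^ K) ^ (j + 1) * lam : ℕ) : ℝ) ^ C)) →
      Dens V K ((4 ^ K) ^ j * lam) (Real.exp (A * (((4 ^ K) ^ j * lam : ℕ) : ℝ) ^ C)) := by
    intro V _ j h
    have e1 : (4 ^ K) ^ (j + 1) * lam = 4 ^ K * ((4 ^ K) ^ j * lam) := by ring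
    rw [e1] at h
    have hD1 : 1 ≤ Real.exp (A * ((4 ^ K * ((4 ^ K) ^ j * lam) : ℕ) : ℝ) ^ C) :=
      Real.one_le_exp (by positivity)
    refine fin_mono (hC _ (hlj j) V _ hD1 h) ?_
    rw [Real.log_exp]
    have h5 : (1 : ℝ) ≤ (((4 ^ K) ^ j * lam : ℕ) : ℝ) ^ C := by
      apply one_le_pow₀
      exact_mod_cast hlj j
    have h6 := fin_step (C : ℝ) M ((((4 ^ K) ^ j * lam : ℕ) : ℝ) ^ C) (Nat.cast_nonneg _) hM1 h5
    have e2 : ((4 ^ K * ((4 ^ K) ^ j * lam) : ℕ) : ℝ) ^ C =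
        M * (((4 ^ K) ^ j * lam : ℕ) : ℝ) ^ C := by
      rw [hM, ← mul_pow, ← Nat.cast_mul]
    rw [e2]
    exact h6
  have hdown : ∀ (V : Type) [Fintype V] (j : ℕ),
      Dens V K ((4 ^ K) ^ j * lam) (Real.exp (A * (((4 ^ K) ^ j * lam : ℕ) : ℝ) ^ C)) →
      Dens V K ((4 ^ K) ^ 0 * lam) (Real.exp (A * (((4 ^ K) ^ 0 * lam : ℕ) : ℝ) ^ C)) := by
    intro V _ j
    induction j with
    | zero => exact id
    | succ n ih => exact fun h => ih (hstep V n h)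
  refine ⟨Real.exp (A * (((4 ^ K) ^ 0 * lam : ℕ) : ℝ) ^ C), ?_⟩
  intro V _
  have h := hdown V (Fintype.card V) (hbase V (Fintype.card V) le_rfl)
  have e3 : (4 ^ K) ^ 0 * lam = lam := by rw [pow_zero, one_mul]
  rw [e3] at h ⊢
  exact h

end NGR
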