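import Pool.Agent.NGR.Topo
import Pool.Agent.NGR.Ang

open Finset
open scoped Classical

noncomputable section

namespace NGR

/-- the points of the plane covered by a lazy walk -/
def geoW {V : Type} (T : TopGraph V) (P : ℕ → V) (l : ℕ) : Set ℂ :=
  {p | (∃ t, t ≤ l ∧ p = T.pos (P t)) ∨
    ∃ t, t < l ∧ T.G.Adj (P t) (P (t + 1)) ∧ p ∈ T.arc s(P t, P (t + 1))}

theorem geoW_mono {V : Type} (T : TopGraph V) (P : ℕ → V) (l : ℕ) :
    geoW T P l ⊆ geoW T P (l + 1) := by
  rintro p (⟨t, ht, hp⟩ | ⟨t, ht, hp⟩)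
  · exact Or.inl ⟨t, by omega, hp⟩
  · exact Or.inr ⟨t, by omega, hp⟩

theorem geo_path {V : Type} (T : TopGraph V) (P : ℕ → V) (l : ℕ) (hP : LazyWalk T.G l P) :
    ∃ γ : Path (T.pos (P 0)) (T.pos (P l)), ∀ s, γ s ∈ geoW T P l := by
  induction l with
  | zero =>
    exact ⟨Path.refl _, fun s => Or.inl ⟨0, le_rfl, rfl⟩⟩
  | succ l ih =>
    obtain ⟨γ, hγ⟩ := ih (fun t ht => hP t (by omega))
    rcases hP l (by omega) with he | hadj
    · refine ⟨γ.cast rfl (by rw [he]), fun s => ?_⟩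
      exact geoW_mono T P l (hγ s)
    · obtain ⟨δ, -, hδ⟩ := T.arc_spec _ _ hadj
      refine ⟨γ.trans δ, fun s => ?_⟩
      have hs : (γ.trans δ) s ∈ Set.range γ ∪ Set.range δ := by
        rw [← Path.trans_range]
        exact Set.mem_range_self s
      rcases hs with ⟨s', hs'⟩ | hs'
      · rw [← hs']
        exact geoW_mono T P l (hγ s')
      · rw [hδ] at hs'
        exact Or.inr ⟨l, by omega, hadj, hs'⟩

theorem geo_meet {V : Type} (T : TopGraph V) (l : ℕ) (P Q : ℕ → V) (p : ℂ)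
    (hp : p ∈ geoW T P l) (hq : p ∈ geoW T Q l) : Meet T.G T.X l P Q := by
  rcases hp with ⟨t, ht, hp⟩ | ⟨t, ht, ha, hp⟩
  · rcases hq with ⟨t', ht', hq⟩ | ⟨t', ht', ha', hq⟩
    · exact Or.inl ⟨t, t', ht, ht', T.pos_inj (hp.symm.trans hq)⟩
    · rw [hp] at hq
      rcases T.arc_avoid _ _ _ ha' hq with h | h
      · exact Or.inl ⟨t, t', ht, by omega, h⟩
      · exact Or.inl ⟨t, t' + 1, ht, by omega, h⟩
  · rcases hq with ⟨t', ht', hq⟩ | ⟨t', ht', ha', hq⟩
    · rw [hq] at hp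
      rcases T.arc_avoid _ _ _ ha hp with h | h
      · exact Or.inl ⟨t, t', by omega, ht', h.symm⟩
      · exact Or.inl ⟨t + 1, t', by omega, ht', h.symm⟩
    · by_cases h1 : P t = Q t'
      · exact Or.inl ⟨t, t', by omega, by omega, h1⟩
      by_cases h2 : P t = Q (t' + 1)
      · exact Or.inl ⟨t, t' + 1, by omega, by omega, h2⟩
      by_cases h3 : P (t + 1) = Q t'
      · exact Or.inl ⟨t + 1, t', by omega, by omega, h3⟩
      by_cases h4 : P (t + 1) = Q (t' + 1)
      · exact Or.inl ⟨t + 1, t' + 1, by omega, by omega, h4⟩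
      refine Or.inr ⟨t, t', ht, ht', ha, ha', h1, h2, h3, h4, ha, ha', p, hp, hq, ?_, ?_⟩
      · intro v hv hpv
        rw [hpv] at hq
        have h5 := T.arc_avoid _ _ _ ha' hq
        rw [Sym2.mem_iff] at hv
        rcases hv with rfl | rfl
        · rcases h5 with h | h
          · exact h1 h
          · exact h2 h
        · rcases h5 with h | h
          · exact h3 h
          · exact h4 h
      · intro v hv hpv
        rw [hpv] at hp
        have h5 := T.arc_avoid _ _ _ ha hp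
        rw [Sym2.mem_iff] at hv
        rcases hv with rfl | rfl
        · rcases h5 with h | h
          · exact h1 h.symm
          · exact h3 h.symm
        · rcases h5 with h | h
          · exact h2 h.symm
          · exact h4 h.symm

/-- GEO -/
theorem geo {V : Type} (T : TopGraph V) : IsCross T.X ∧ VK T.G T.X := by
  refine ⟨⟨?_, ?_, ?_⟩, ?_⟩
  · rintro u v u' v' ⟨h1, h2, h3, h4, h5, h6, h7⟩
    refine ⟨h3, h4, h1, h2, h5.symm, h6, ?_⟩
    rw [Sym2.eq_swap]
    exact h7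
  · rintro u v u' v' ⟨h1, h2, h3, h4, h5, h6, p, hp, hq, hr, hs⟩
    exact ⟨h1.symm, h3.symm, h2.symm, h4.symm, h6, h5, p, hq, hp, hs, hr⟩
  · rintro u v u' v' ⟨h1, h2, h3, h4, -⟩
    exact ⟨h1, h2, h3, h4⟩
  · intro l a b P hPa hPb hP
    by_contra hcon
    push Not at hcon
    have hpath : ∀ i j, ∃ γ : Path (T.pos (a i)) (T.pos (b j)), ∀ s, γ s ∈ geoW T (P i j) l := by
      intro i j
      obtain ⟨γ, hγ⟩ := geo_path T (P i j) l (hP i j)
      exact ⟨γ.cast (by rw [hPa]) (by rw [hPb]), fun s => hγ s⟩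
    choose γ hγ using hpath
    refine no_k33 (fun i => T.pos (a i)) (fun j => T.pos (b j)) γ ?_
    intro i i' j j' hi hj s t hst
    apply hcon i i' j j' hi hj
    apply geo_meet T l (P i j) (P i' j') (γ i j s) (hγ i j s)
    rw [hst]
    exact hγ i' j' t

end NGR
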