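import Pool.Agent.NGR.Avg

open Finset
open scoped Classical

noncomputable section

namespace NGR

variable {V : Type} [Fintype V]

/-- weighted crossing sum -/
private def kssT (X : V → V → V → V → Prop) (α β : V → V → ℝ) : ℝ :=
  ∑ u, ∑ v, ∑ u', ∑ v', if X u v u' v' then α u v * β u' v' else 0

private theorem kss_eq (X : V → V → V → V → Prop) (α β : V → V → ℝ) :
    kssT X α β = ∑ u, ∑ v, α u v * ∑ u', ∑ v', if X u v u' v' then β u' v' else 0 := by
  unfold kssT
  refine Finset.sum_congr rfl fun u _ => Finset.sum_congr rfl fun v _ => ?_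
  rw [Finset.mul_sum]
  refine Finset.sum_congr rfl fun u' _ => ?_
  rw [Finset.mul_sum]
  refine Finset.sum_congr rfl fun v' _ => ?_
  split_ifs <;> simp

private theorem kss_left {X : V → V → V → V → Prop} (hX : IsCross X) (α β : V → V → ℝ) :
    kssT X (fun u v => α u v + α v u) β = 2 * kssT X α β := by
  have h1 : kssT X (fun u v => α v u) β = kssT X α β := by
    rw [kss_eq, kss_eq, Finset.sum_comm]
    refine Finset.sum_congr rfl fun u _ => Finset.sum_congr rfl fun v _ => ?_
    congr 1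
    refine Finset.sum_congr rfl fun u' _ => Finset.sum_congr rfl fun v' _ => ?_
    have : X v u u' v' ↔ X u v u' v' := ⟨hX.swap _ _ _ _, hX.swap _ _ _ _⟩
    simp only [this]
  have h2 : kssT X (fun u v => α u v + α v u) β = kssT X α β + kssT X (fun u v => α v u) β := by
    rw [kss_eq, kss_eq, kss_eq, ← Finset.sum_add_distrib]
    refine Finset.sum_congr rfl fun u _ => ?_
    rw [← Finset.sum_add_distrib]
    refine Finset.sum_congr rfl fun v _ => ?_
    ring
  rw [h2, h1]; ring

private theorem kss_symm {X : V → V → V → V → Prop} (hX : IsCross X) (α β : V → V → ℝ) :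
    kssT X α β = kssT X β α := by
  have h : kssT X α β = ∑ u, ∑ v, ∑ u', ∑ v', if X u' v' u v then α u v * β u' v' else 0 := by
    unfold kssT
    refine Finset.sum_congr rfl fun u _ => Finset.sum_congr rfl fun v _ =>
      Finset.sum_congr rfl fun u' _ => Finset.sum_congr rfl fun v' _ => ?_
    have : X u v u' v' ↔ X u' v' u v := ⟨hX.symm _ _ _ _, hX.symm _ _ _ _⟩
    simp only [this]
  rw [h]
  unfold kssT
  have c1 : ∀ (f : V → V → V → V → ℝ),
      ∑ u, ∑ v, ∑ u', ∑ v', f u v u' v' = ∑ u', ∑ v', ∑ u, ∑ v, f u v u' v' := by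
    intro f
    have d1 : ∀ u, ∑ v, ∑ u', ∑ v', f u v u' v' = ∑ u', ∑ v', ∑ v, f u v u' v' := by
      intro u
      rw [Finset.sum_comm]
      refine Finset.sum_congr rfl fun u' _ => ?_
      rw [Finset.sum_comm]
    simp only [d1]
    rw [Finset.sum_comm]
    refine Finset.sum_congr rfl fun u' _ => ?_
    rw [Finset.sum_comm]
  rw [c1]
  refine Finset.sum_congr rfl fun u _ => Finset.sum_congr rfl fun v _ =>
      Finset.sum_congr rfl fun u' _ => Finset.sum_congr rfl fun v' _ => ?_
  rw [mul_comm]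

private theorem kss_four {X : V → V → V → V → Prop} (hX : IsCross X) (α : V → V → ℝ) :
    kssT X (fun u v => α u v + α v u) (fun u v => α u v + α v u) = 4 * kssT X α α := by
  rw [kss_left hX, kss_symm hX, kss_left hX]
  ring

/-- the characteristic function of `A × B` -/
private def kssA (A B : Finset V) (c : ℝ) (u v : V) : ℝ := if u ∈ A ∧ v ∈ B then c else 0

private theorem kssA_sum (A B : Finset V) (c : ℝ) (f : V → V → ℝ) :
    ∑ u, ∑ v, kssA A B c u v * f u v = c * ∑ u ∈ A, ∑ v ∈ B, f u v := by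
  rw [Finset.mul_sum, ← Finset.sum_subset (Finset.subset_univ A)]
  · refine Finset.sum_congr rfl fun u hu => ?_
    rw [Finset.mul_sum, ← Finset.sum_subset (Finset.subset_univ B)]
    · refine Finset.sum_congr rfl fun v hv => ?_
      rw [kssA, if_pos ⟨hu, hv⟩]
    · intro v _ hv
      rw [kssA, if_neg (fun h => hv h.2), zero_mul]
  · intro u _ hu
    refine Finset.sum_eq_zero fun v _ => ?_
    rw [kssA, if_neg (fun h => hu h.1), zero_mul]

/-- KSS: no large complete bipartite graph. -/
theorem no_kss {K lam s : ℕ} (hK : 1 ≤ K) (hs : sK K lam ≤ s) {G : SimpleGraph V}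
    {X : V → V → V → V → Prop} (h : InC K lam G X) (A B : Finset V) (hd : Disjoint A B)
    (hA : A.card = s) (hB : B.card = s) (hAB : ∀ a ∈ A, ∀ b ∈ B, G.Adj a b) : False := by
  have hs144 : 144 ≤ s := le_trans (Nat.le_add_right _ _) hs
  have hsR : (144 : ℝ) ≤ s := by exact_mod_cast hs144
  have hs0 : (0 : ℝ) < s := by linarith
  -- the weighted van Kampen property
  set P : V × V → ℕ → V := fun w t => if t = 0 then w.1 else w.2 with hP
  set c : ℝ := (1 / (s : ℝ)) * (1 / s) with hc
  have hc0 : 0 ≤ c := by positivity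
  set Q : V × V → ℝ := fun w => kssA A B c w.1 w.2 with hQd
  have hav := avg G X h.vk 1 (Om := V × V) P (fun v => if v ∈ A then 1 / (s : ℝ) else 0)
    (fun v => if v ∈ B then 1 / (s : ℝ) else 0)
    (fun v => by split_ifs <;> positivity) (fun v => by split_ifs <;> positivity)
    (by rw [Finset.sum_ite_mem, Finset.univ_inter, Finset.sum_const, hA, nsmul_eq_mul]; field_simp)
    (by rw [Finset.sum_ite_mem, Finset.univ_inter, Finset.sum_const, hB, nsmul_eq_mul]; field_simp)
    (fun x y w => if w = (x, y) ∧ x ∈ A ∧ y ∈ B then 1 else 0)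
    (fun x y w => by split_ifs <;> norm_num)
    (by
      intro x y hx hy
      have hx' : x ∈ A := by
        by_contra hc'
        exact hx (if_neg hc')
      have hy' : y ∈ B := by
        by_contra hc'
        exact hy (if_neg hc')
      simp only [hx', hy', and_true]
      rw [Finset.sum_ite_eq' univ ((x, y) : V × V) (fun _ => (1 : ℝ)), if_pos (Finset.mem_univ _)])
    (by
      intro x y w hw
      have hw' : w = (x, y) ∧ x ∈ A ∧ y ∈ B := by
        by_contra hc'
        exact hw (if_neg hc')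
      obtain ⟨rfl, hx, hy⟩ := hw'
      refine ⟨?_, by simp [hP], by simp [hP]⟩
      intro t ht
      right
      have ht0 : t = 0 := by omega
      subst ht0
      simp only [hP, if_true, zero_add, one_ne_zero, if_false]
      exact hAB x hx y hy)
    Q
    (by
      intro w
      rw [Finset.sum_eq_single w.1, Finset.sum_eq_single w.2]
      · simp only [hQd, kssA]
        by_cases h1 : w.1 ∈ A <;> by_cases h2 : w.2 ∈ B <;> simp [h1, h2, hc]
      · intro y _ hy
        rw [if_neg (fun h3 : w = (w.1, y) ∧ w.1 ∈ A ∧ y ∈ B =>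
          hy (congrArg Prod.snd h3.1).symm), mul_zero]
      · intro h3; exact absurd (Finset.mem_univ _) h3
      · intro x _ hx
        refine Finset.sum_eq_zero fun y _ => ?_
        rw [if_neg (fun h3 : w = (x, y) ∧ x ∈ A ∧ y ∈ B =>
          hx (congrArg Prod.fst h3.1).symm), mul_zero]
      · intro h3; exact absurd (Finset.mem_univ _) h3)
  -- the number of crossings
  set N : ℝ := ∑ a ∈ A, ∑ b ∈ B, ∑ a' ∈ A, ∑ b' ∈ B, if X a b a' b' then (1 : ℝ) else 0 with hN
  have hexp : ∑ w, ∑ w', Q w * Q w' * Nm G X 1 (P w) (P w') =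
      c * c * ∑ a ∈ A, ∑ b ∈ B, ∑ a' ∈ A, ∑ b' ∈ B, Nm G X 1 (P (a, b)) (P (a', b')) := by
    rw [Fintype.sum_prod_type]
    have e1 : ∀ a b, ∑ w', Q (a, b) * Q w' * Nm G X 1 (P (a, b)) (P w') =
        kssA A B c a b * (c * ∑ a' ∈ A, ∑ b' ∈ B, Nm G X 1 (P (a, b)) (P (a', b'))) := by
      intro a b
      rw [Fintype.sum_prod_type, ← kssA_sum A B c
        (fun a' b' => Nm G X 1 (P (a, b)) (P (a', b'))), Finset.mul_sum]
      refine Finset.sum_congr rfl fun a' _ => ?_
      rw [Finset.mul_sum]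
      refine Finset.sum_congr rfl fun b' _ => ?_
      simp only [hQd]
      ring
    simp only [e1]
    rw [kssA_sum A B c (fun a b => c * ∑ a' ∈ A, ∑ b' ∈ B, Nm G X 1 (P (a, b)) (P (a', b')))]
    simp only [← Finset.mul_sum]
    ring
  have hNm : ∀ a ∈ A, ∀ b ∈ B, ∀ a' ∈ A, ∀ b' ∈ B, Nm G X 1 (P (a, b)) (P (a', b')) =
      (if a = a' then (1 : ℝ) else 0) + (if b = b' then (1 : ℝ) else 0) +
        (if X a b a' b' then (1 : ℝ) else 0) := by
    intro a ha b hb a' ha' b' hb'
    have n1 : a ≠ b' := fun h3 => (Finset.disjoint_left.1 hd ha) (h3 ▸ hb')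
    have n2 : b ≠ a' := fun h3 => (Finset.disjoint_left.1 hd ha') (h3 ▸ hb)
    unfold Nm
    simp only [Finset.sum_range_succ, Finset.sum_range_zero, zero_add, hP, if_true, one_ne_zero,
      if_false, hAB a ha b hb, hAB a' ha' b' hb', n1, n2, true_and, add_zero]
  have hsum : ∑ a ∈ A, ∑ b ∈ B, ∑ a' ∈ A, ∑ b' ∈ B, Nm G X 1 (P (a, b)) (P (a', b')) =
      2 * (s : ℝ) ^ 3 + N := by
    have e1 : ∑ a ∈ A, ∑ b ∈ B, ∑ a' ∈ A, ∑ b' ∈ B, Nm G X 1 (P (a, b)) (P (a', b')) =
        ∑ a ∈ A, ∑ b ∈ B, ∑ a' ∈ A, ∑ b' ∈ B, ((if a = a' then (1 : ℝ) else 0) +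
          (if b = b' then (1 : ℝ) else 0) + (if X a b a' b' then (1 : ℝ) else 0)) := by
      refine Finset.sum_congr rfl fun a ha => Finset.sum_congr rfl fun b hb =>
        Finset.sum_congr rfl fun a' ha' => Finset.sum_congr rfl fun b' hb' => ?_
      exact hNm a ha b hb a' ha' b' hb'
    rw [e1]
    simp only [Finset.sum_add_distrib]
    congr 1
    have e2 : ∀ a ∈ A, ∑ b ∈ B, ∑ a' ∈ A, ∑ b' ∈ B, (if a = a' then (1 : ℝ) else 0) =
        (s : ℝ) * s := by
      intro a ha
      have : ∀ b ∈ B, ∑ a' ∈ A, ∑ b' ∈ B, (if a = a' then (1 : ℝ) else 0) = s := by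
        intro b _
        simp only [Finset.sum_const, hB, nsmul_eq_mul]
        rw [← Finset.mul_sum, Finset.sum_ite_eq, if_pos ha, mul_one]
      rw [Finset.sum_congr rfl this, Finset.sum_const, hB, nsmul_eq_mul]
    have e3 : ∀ a ∈ A, ∑ b ∈ B, ∑ a' ∈ A, ∑ b' ∈ B, (if b = b' then (1 : ℝ) else 0) =
        (s : ℝ) * s := by
      intro a _
      have : ∀ b ∈ B, ∑ a' ∈ A, ∑ b' ∈ B, (if b = b' then (1 : ℝ) else 0) = s := by
        intro b hb
        have h4 : ∀ a' ∈ A, ∑ b' ∈ B, (if b = b' then (1 : ℝ) else 0) = 1 := by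
          intro a' _
          rw [Finset.sum_ite_eq, if_pos hb]
        rw [Finset.sum_congr rfl h4, Finset.sum_const, hA, nsmul_eq_mul, mul_one]
      rw [Finset.sum_congr rfl this, Finset.sum_const, hB, nsmul_eq_mul]
    rw [Finset.sum_congr rfl e2, Finset.sum_congr rfl e3, Finset.sum_const, hA, nsmul_eq_mul]
    ring
  have hcs : c * c * (s : ℝ) ^ 4 = 1 := by
    rw [hc]; field_simp
  have hN1 : 1 / 72 ≤ c * c * N := by
    rw [hexp, hsum] at hav
    have e1 : 36 * (c * c * (2 * (s : ℝ) ^ 3 + N)) = 72 * (c * c * (s : ℝ) ^ 3) + 36 * (c * c * N) := by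
      ring
    have e2 : c * c * (s : ℝ) ^ 3 ≤ 1 / 144 := by
      have e3 : c * c * (s : ℝ) ^ 3 * s = 1 := by rw [← hcs]; ring
      have e4 : 0 ≤ c * c * (s : ℝ) ^ 3 := by positivity
      nlinarith [mul_le_mul_of_nonneg_left hsR e4]
    rw [e1] at hav
    linarith
  -- the weight on the darts
  have hnl := h.nl (fun u v => kssA A B (c / 2) u v + kssA A B (c / 2) v u) (1 / (2 * s))
    (by positivity)
    (fun u v => add_nonneg (by unfold kssA; split_ifs <;> positivity)
      (by unfold kssA; split_ifs <;> positivity))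
    (fun u v => add_comm _ _)
    (by
      intro u v huv
      have e1 : kssA A B (c / 2) u v = 0 := if_neg (fun h3 => huv (hAB u h3.1 v h3.2))
      have e2 : kssA A B (c / 2) v u = 0 := if_neg (fun h3 => huv (hAB v h3.1 u h3.2).symm)
      rw [e1, e2, add_zero])
    (by
      simp only [Finset.sum_add_distrib]
      have e1 : ∑ u, ∑ v, kssA A B (c / 2) u v = 1 / 2 := by
        have := kssA_sum A B (c / 2) (fun _ _ => 1)
        simp only [mul_one, Finset.sum_const, hA, hB, nsmul_eq_mul] at this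
        rw [this, hc]; field_simp
      have e2 : ∑ u, ∑ v, kssA A B (c / 2) v u = 1 / 2 := by
        rw [Finset.sum_comm]; exact e1
      rw [e1, e2]; norm_num)
    (by
      intro u
      rw [Finset.sum_add_distrib]
      have e1 : ∑ v, kssA A B (c / 2) u v = if u ∈ A then c / 2 * s else 0 := by
        by_cases hu : u ∈ A
        · simp only [kssA, hu, true_and, if_true]
          rw [Finset.sum_ite_mem, Finset.univ_inter, Finset.sum_const, hB, nsmul_eq_mul]
          ring
        · simp [kssA, hu]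
      have e2 : ∑ v, kssA A B (c / 2) v u = if u ∈ B then c / 2 * s else 0 := by
        by_cases hu : u ∈ B
        · simp only [kssA, hu, and_true, if_true]
          rw [Finset.sum_ite_mem, Finset.univ_inter, Finset.sum_const, hA, nsmul_eq_mul]
          ring
        · simp [kssA, hu]
      have e3 : c / 2 * s = 1 / (2 * s) := by rw [hc]; field_simp
      rw [e1, e2, e3]
      have e4 : (0 : ℝ) ≤ 1 / (2 * s) := by positivity
      by_cases hu : u ∈ A
      · have : u ∉ B := Finset.disjoint_left.1 hd hu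
        rw [if_pos hu, if_neg this, add_zero]
      · rw [if_neg hu, zero_add]
        split_ifs
        · exact le_rfl
        · exact e4)
  have hT : (∑ u, ∑ v, ∑ u', ∑ v', if X u v u' v' then
      (kssA A B (c / 2) u v + kssA A B (c / 2) v u) *
        (kssA A B (c / 2) u' v' + kssA A B (c / 2) v' u') else 0) = c * c * N := by
    have e1 := kss_four h.cross (kssA A B (c / 2))
    have e2 : kssT X (kssA A B (c / 2)) (kssA A B (c / 2)) = c / 2 * (c / 2) * N := by
      rw [kss_eq, kssA_sum A B (c / 2)]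
      have e3 : ∀ u v, ∑ u', ∑ v', (if X u v u' v' then kssA A B (c / 2) u' v' else 0) =
          c / 2 * ∑ a' ∈ A, ∑ b' ∈ B, if X u v a' b' then (1 : ℝ) else 0 := by
        intro u v
        rw [← kssA_sum A B (c / 2) (fun a' b' => if X u v a' b' then (1 : ℝ) else 0)]
        refine Finset.sum_congr rfl fun u' _ => Finset.sum_congr rfl fun v' _ => ?_
        split_ifs <;> simp
      simp only [e3, ← Finset.mul_sum]
      ring
    rw [e2] at e1
    have e5 : 4 * (c / 2 * (c / 2) * N) = c * c * N := by ring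
    rw [e5] at e1
    exact e1
  rw [hT] at hnl
  have h1 : ((1 : ℝ) / 72) ^ K ≤ lam * (1 / (2 * s)) :=
    le_trans (pow_le_pow_left₀ (by norm_num) hN1 K) hnl
  have h2 : ((144 + lam * 72 ^ K : ℕ) : ℝ) ≤ s := by exact_mod_cast hs
  push_cast at h2
  rw [one_div, inv_pow] at h1
  have h72 : (0 : ℝ) < 72 ^ K := by positivity
  have h3 : 2 * (s : ℝ) ≤ lam * 72 ^ K := by
    have h4 := mul_le_mul_of_nonneg_right h1 (le_of_lt (mul_pos h72 (by positivity : (0 : ℝ) < 2 * s)))
    have e6 : ((72 : ℝ) ^ K)⁻¹ * (72 ^ K * (2 * s)) = 2 * s := by field_simp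
    have e7 : (lam : ℝ) * (1 / (2 * s)) * (72 ^ K * (2 * s)) = lam * 72 ^ K := by field_simp
    rw [e6, e7] at h4
    exact h4
  linarith

/-- RICH (from no_kss): few vertices have many neighbours in a small set. -/
theorem few_rich {K lam s : ℕ} (hK : 1 ≤ K) (hs : sK K lam ≤ s) {G : SimpleGraph V}
    {X : V → V → V → V → Prop} (h : InC K lam G X) (Z W : Finset V)
    (hW : ∀ w ∈ W, s ≤ (Z.filter (fun v => G.Adj w v)).card) :
    W.card ≤ s * Z.card ^ s := by
  by_contra hcon
  push Not at hcon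
  have hch : ∀ w, ∃ T : Finset V, w ∈ W → T ⊆ Z.filter (fun v => G.Adj w v) ∧ T.card = s := by
    intro w
    by_cases hw : w ∈ W
    · obtain ⟨T, h1, h2⟩ := Finset.exists_subset_card_eq (hW w hw)
      exact ⟨T, fun _ => ⟨h1, h2⟩⟩
    · exact ⟨∅, fun h3 => absurd h3 hw⟩
  choose T hT using hch
  have hmaps : ∀ w ∈ W, T w ∈ Z.powersetCard s := by
    intro w hw
    rw [Finset.mem_powersetCard]
    exact ⟨(hT w hw).1.trans (Finset.filter_subset _ _), (hT w hw).2⟩
  have hcard : (Z.powersetCard s).card * s < W.card := by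
    rw [Finset.card_powersetCard]
    calc Z.card.choose s * s ≤ Z.card ^ s * s :=
          Nat.mul_le_mul_right s (Nat.choose_le_pow Z.card s)
      _ = s * Z.card ^ s := mul_comm _ _
      _ < W.card := hcon
  obtain ⟨T0, hT0, hlt⟩ :=
    Finset.exists_lt_card_fiber_of_mul_lt_card_of_maps_to hmaps hcard
  obtain ⟨W0, hW0, hW0c⟩ := Finset.exists_subset_card_eq (le_of_lt hlt)
  have hW1 : ∀ w ∈ W0, w ∈ W ∧ T w = T0 := fun w hw => Finset.mem_filter.1 (hW0 hw)
  refine no_kss hK hs h T0 W0 ?_ (Finset.mem_powersetCard.1 hT0).2 hW0c ?_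
  · rw [Finset.disjoint_left]
    intro w hw1 hw2
    obtain ⟨hwW, hwT⟩ := hW1 w hw2
    rw [← hwT] at hw1
    exact G.loopless.irrefl w (Finset.mem_filter.1 ((hT w hwW).1 hw1)).2
  · intro a ha b hb
    obtain ⟨hbW, hbT⟩ := hW1 b hb
    rw [← hbT] at ha
    exact (Finset.mem_filter.1 ((hT b hbW).1 ha)).2.symm

end NGR
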