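import Pool.Agent.NGR.Defs

open Finset
open scoped Classical

noncomputable section

namespace NGR

variable {V : Type} [Fintype V]

private lemma kstm_prodsum {D : Type} [Fintype D] {k : ℕ} (F : Fin k → D → ℝ) :
    ∑ e : Fin k → D, ∏ l, F l (e l) = ∏ l, ∑ d, F l d := by
  rw [Finset.prod_univ_sum (fun _ => (univ : Finset D)) F, Fintype.piFinset_univ]

private lemma kstm_jensen {ι : Type} [Fintype ι] (u a : ι → ℝ) (hu : ∀ i, 0 ≤ u i)
    (ha : ∀ i, 0 ≤ a i) (hs : ∑ i, u i ≤ 1) {k : ℕ} (hk : 1 ≤ k) :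
    (∑ i, u i * a i) ^ k ≤ ∑ i, u i * a i ^ k := by
  have h0 : 0 ≤ ∑ i, u i := Finset.sum_nonneg fun i _ => hu i
  rcases h0.eq_or_lt with h | h
  · have hz : ∀ i, u i = 0 := by
      intro i
      exact (Finset.sum_eq_zero_iff_of_nonneg (fun i _ => hu i)).1 h.symm i (mem_univ i)
    simp [hz, zero_pow (show k ≠ 0 by omega)]
  · set W := ∑ i, u i with hW
    have hJ := Real.pow_arith_mean_le_arith_mean_pow univ (fun i => u i / W) a
      (fun i _ => div_nonneg (hu i) h.le) (by
        rw [← Finset.sum_div]; exact div_self h.ne') (fun i _ => ha i) k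
    have e1 : ∑ i, u i * a i = W * ∑ i, u i / W * a i := by
      rw [Finset.mul_sum]
      refine Finset.sum_congr rfl fun i _ => ?_
      field_simp
    have e2 : ∑ i, u i * a i ^ k = W * ∑ i, u i / W * a i ^ k := by
      rw [Finset.mul_sum]
      refine Finset.sum_congr rfl fun i _ => ?_
      field_simp
    have hnn : 0 ≤ ∑ i, u i / W * a i ^ k :=
      Finset.sum_nonneg fun i _ => mul_nonneg (div_nonneg (hu i) h.le) (pow_nonneg (ha i) k)
    rw [e1, e2, mul_pow]
    calc W ^ k * (∑ i, u i / W * a i) ^ k ≤ W ^ k * ∑ i, u i / W * a i ^ k :=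
          mul_le_mul_of_nonneg_left hJ (pow_nonneg h.le k)
      _ ≤ W ^ 1 * ∑ i, u i / W * a i ^ k :=
          mul_le_mul_of_nonneg_right (pow_le_pow_of_le_one h.le hs hk) hnn
      _ = W * ∑ i, u i / W * a i ^ k := by rw [pow_one]

/-- lower bound for the weighted number of grids -/
private lemma kstm_lower {D : Type} [Fintype D] (w : D → ℝ) (c : D → D → ℝ)
    (hw : ∀ d, 0 ≤ w d) (hc : ∀ d d', 0 ≤ c d d') (hW : ∑ d, w d ≤ 1) {k : ℕ} (hk : 1 ≤ k) :
    (∑ d, ∑ d', w d * w d' * c d d') ^ (k ^ 2) ≤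
      ∑ f : Fin k → D, ∑ e : Fin k → D, (∏ j, w (f j)) * ∏ i, (w (e i) * ∏ j, c (e i) (f j)) := by
  have hWk : ∑ f : Fin k → D, ∏ j, w (f j) ≤ 1 := by
    rw [kstm_prodsum (fun _ d => w d)]
    rw [Finset.prod_const]
    exact pow_le_one₀ (Finset.sum_nonneg fun d _ => hw d) hW
  have h1 : ∀ f : Fin k → D, ∑ e : Fin k → D, (∏ j, w (f j)) * ∏ i, (w (e i) * ∏ j, c (e i) (f j))
      = (∏ j, w (f j)) * (∑ d, w d * ∏ j, c d (f j)) ^ k := by
    intro f
    rw [← Finset.mul_sum, kstm_prodsum (fun _ d => w d * ∏ j, c d (f j))]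
    rw [Finset.prod_const, Finset.card_univ, Fintype.card_fin]
  rw [Finset.sum_congr rfl fun f _ => h1 f]
  have h2 := kstm_jensen (fun f : Fin k → D => ∏ j, w (f j))
    (fun f => ∑ d, w d * ∏ j, c d (f j)) (fun f => Finset.prod_nonneg fun j _ => hw _)
    (fun f => Finset.sum_nonneg fun d _ => mul_nonneg (hw d)
      (Finset.prod_nonneg fun j _ => hc _ _)) hWk hk
  refine le_trans ?_ h2
  have h3 : ∑ f : Fin k → D, (∏ j, w (f j)) * ∑ d, w d * ∏ j, c d (f j)
      = ∑ d, w d * (∑ d', w d' * c d d') ^ k := by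
    have : ∀ f : Fin k → D, (∏ j, w (f j)) * ∑ d, w d * ∏ j, c d (f j)
        = ∑ d, w d * ∏ j, (w (f j) * c d (f j)) := by
      intro f
      rw [Finset.mul_sum]
      refine Finset.sum_congr rfl fun d _ => ?_
      rw [Finset.prod_mul_distrib]; ring
    rw [Finset.sum_congr rfl fun f _ => this f, Finset.sum_comm]
    refine Finset.sum_congr rfl fun d _ => ?_
    rw [← Finset.mul_sum, kstm_prodsum (fun _ d' => w d' * c d d')]
    rw [Finset.prod_const, Finset.card_univ, Fintype.card_fin]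
  rw [h3]
  have h4 := kstm_jensen w (fun d => ∑ d', w d' * c d d') hw
    (fun d => Finset.sum_nonneg fun d' _ => mul_nonneg (hw d') (hc _ _)) hW hk
  have h5 : ∑ d, w d * ∑ d', w d' * c d d' = ∑ d, ∑ d', w d * w d' * c d d' := by
    refine Finset.sum_congr rfl fun d _ => ?_
    rw [Finset.mul_sum]
    exact Finset.sum_congr rfl fun d' _ => by ring
  rw [h5] at h4
  have h6 : 0 ≤ ∑ d, ∑ d', w d * w d' * c d d' :=
    Finset.sum_nonneg fun d _ => Finset.sum_nonneg fun d' _ =>
      mul_nonneg (mul_nonneg (hw d) (hw d')) (hc _ _)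
  calc (∑ d, ∑ d', w d * w d' * c d d') ^ (k ^ 2)
      = ((∑ d, ∑ d', w d * w d' * c d d') ^ k) ^ k := by rw [← pow_mul, sq]
    _ ≤ (∑ d, w d * (∑ d', w d' * c d d') ^ k) ^ k :=
        pow_le_pow_left₀ (pow_nonneg h6 k) h4 k

/-- the weighted number of pairs of tuples with a common vertex -/
private lemma kstm_pair {D : Type} [Fintype D] (w : D → ℝ) (inc : V → D → ℝ) (η : ℝ)
    (hw : ∀ d, 0 ≤ w d) (hi : ∀ v d, 0 ≤ inc v d) (hW : ∑ d, w d ≤ 1)
    (hη : ∀ v, ∑ d, w d * inc v d ≤ 2 * η) (h2 : ∀ d, ∑ v, inc v d ≤ 2) (h0 : 0 ≤ η)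
    {k : ℕ} (i j : Fin k) (hij : i ≠ j) :
    ∑ e : Fin k → D, (∏ l, w (e l)) * ∑ v, inc v (e i) * inc v (e j) ≤ 4 * η := by
  have hW0 : 0 ≤ ∑ d, w d := Finset.sum_nonneg fun d _ => hw d
  have e1 : ∀ e : Fin k → D, (∏ l, w (e l)) * ∑ v, inc v (e i) * inc v (e j)
      = ∑ v, ∏ l, (w (e l) * (if l = i then inc v (e l) else 1) *
          (if l = j then inc v (e l) else 1)) := by
    intro e
    rw [Finset.mul_sum]
    refine Finset.sum_congr rfl fun v _ => ?_
    rw [Finset.prod_mul_distrib, Finset.prod_mul_distrib]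
    rw [Finset.prod_ite_eq' univ i (fun l => inc v (e l)),
      Finset.prod_ite_eq' univ j (fun l => inc v (e l))]
    simp only [mem_univ, if_true]
    ring
  rw [Finset.sum_congr rfl fun e _ => e1 e, Finset.sum_comm]
  have e2 : ∀ v, ∑ e : Fin k → D, ∏ l, (w (e l) * (if l = i then inc v (e l) else 1) *
          (if l = j then inc v (e l) else 1)) ≤ 2 * η * ∑ d, w d * inc v d := by
    intro v
    rw [kstm_prodsum (fun l d => w d * (if l = i then inc v d else 1) *
          (if l = j then inc v d else 1))]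
    have hs0 : 0 ≤ ∑ d, w d * inc v d := Finset.sum_nonneg fun d _ => mul_nonneg (hw d) (hi v d)
    rw [← Finset.mul_prod_erase univ _ (mem_univ i)]
    have hji : j ∈ univ.erase i := Finset.mem_erase.2 ⟨hij.symm, mem_univ j⟩
    rw [← Finset.mul_prod_erase (univ.erase i) _ hji]
    have hi' : ∑ d, (w d * (if i = i then inc v d else 1) * (if i = j then inc v d else 1))
        = ∑ d, w d * inc v d := by
      refine Finset.sum_congr rfl fun d _ => ?_
      rw [if_pos rfl, if_neg hij]; ring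
    have hj' : ∑ d, (w d * (if j = i then inc v d else 1) * (if j = j then inc v d else 1))
        = ∑ d, w d * inc v d := by
      refine Finset.sum_congr rfl fun d _ => ?_
      rw [if_pos rfl, if_neg hij.symm]; ring
    rw [hi', hj']
    have hrest : ∏ l ∈ (univ.erase i).erase j, ∑ d, (w d * (if l = i then inc v d else 1) *
        (if l = j then inc v d else 1)) ≤ 1 := by
      refine Finset.prod_le_one (fun l hl => ?_) (fun l hl => ?_)
      · refine Finset.sum_nonneg fun d _ => mul_nonneg (mul_nonneg (hw d) ?_) ?_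
        · split_ifs
          · exact hi v d
          · exact zero_le_one
        · split_ifs
          · exact hi v d
          · exact zero_le_one
      · have hlj : l ≠ j := (Finset.mem_erase.1 hl).1
        have hli : l ≠ i := (Finset.mem_erase.1 (Finset.mem_erase.1 hl).2).1
        refine le_trans (le_of_eq ?_) hW
        refine Finset.sum_congr rfl fun d _ => ?_
        rw [if_neg hli, if_neg hlj]; ring
    have hrest0 : 0 ≤ ∏ l ∈ (univ.erase i).erase j, ∑ d, (w d * (if l = i then inc v d else 1) *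
        (if l = j then inc v d else 1)) := by
      refine Finset.prod_nonneg fun l hl => ?_
      refine Finset.sum_nonneg fun d _ => mul_nonneg (mul_nonneg (hw d) ?_) ?_
      · split_ifs
        · exact hi v d
        · exact zero_le_one
      · split_ifs
        · exact hi v d
        · exact zero_le_one
    calc (∑ d, w d * inc v d) * ((∑ d, w d * inc v d) * _) ≤
        (2 * η) * ((∑ d, w d * inc v d) * 1) := by
          refine mul_le_mul (hη v) ?_ (mul_nonneg hs0 hrest0) (by linarith)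
          exact mul_le_mul_of_nonneg_left hrest hs0
      _ = 2 * η * ∑ d, w d * inc v d := by ring
  refine le_trans (Finset.sum_le_sum fun v _ => e2 v) ?_
  rw [← Finset.mul_sum, Finset.sum_comm]
  have e3 : ∑ d, ∑ v, w d * inc v d ≤ 2 := by
    calc ∑ d, ∑ v, w d * inc v d = ∑ d, w d * ∑ v, inc v d := by
          refine Finset.sum_congr rfl fun d _ => ?_
          rw [Finset.mul_sum]
      _ ≤ ∑ d, w d * 2 := Finset.sum_le_sum fun d _ => mul_le_mul_of_nonneg_left (h2 d) (hw d)
      _ = 2 * ∑ d, w d := by rw [← Finset.sum_mul]; ring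
      _ ≤ 2 := by linarith
  nlinarith

/-- KSTM: graphs without natural grids belong to the class. -/
theorem kst {k : ℕ} (hk : 1 ≤ k) {G : SimpleGraph V} {X : V → V → V → V → Prop}
    (hX : IsCross X) (h : NoGrid k G X) : NL (k ^ 2) ((4 * k ^ 2 : ℕ) : ℝ) G X := by
  intro p η h0 hp hsym hadj htot hη
  set w : V × V → ℝ := fun d => p d.1 d.2 with hwdef
  set c : V × V → V × V → ℝ := fun d d' => if X d.1 d.2 d'.1 d'.2 then 1 else 0 with hcdef
  set inc : V → V × V → ℝ := fun v d => (if v = d.1 then 1 else 0) + (if v = d.2 then 1 else 0)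
    with hincdef
  have hw : ∀ d, 0 ≤ w d := fun d => hp _ _
  have hc : ∀ d d', 0 ≤ c d d' := by
    intro d d'; simp only [hcdef]; split_ifs <;> norm_num
  have hc1 : ∀ d d', c d d' ≤ 1 := by
    intro d d'; simp only [hcdef]; split_ifs <;> norm_num
  have hi : ∀ v d, 0 ≤ inc v d := by
    intro v d; simp only [hincdef]; split_ifs <;> norm_num
  have hW : ∑ d, w d ≤ 1 := by
    rw [Fintype.sum_prod_type]; exact htot
  have hη' : ∀ v, ∑ d, w d * inc v d ≤ 2 * η := by
    intro v
    rw [Fintype.sum_prod_type]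
    simp only [hwdef, hincdef, mul_add, Finset.sum_add_distrib, mul_ite, mul_one, mul_zero]
    have a1 : ∑ x, ∑ x_1, (if v = x then p x x_1 else 0) = ∑ x_1, p v x_1 := by
      rw [Finset.sum_comm]
      refine Finset.sum_congr rfl fun y _ => ?_
      rw [Finset.sum_ite_eq]; simp
    have a2 : ∑ x, ∑ x_1, (if v = x_1 then p x x_1 else 0) = ∑ x_1, p v x_1 := by
      refine Finset.sum_congr rfl fun y _ => ?_
      rw [Finset.sum_ite_eq]; simp [hsym v y]
    rw [a1, a2]
    linarith [hη v]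
  have h2 : ∀ d, ∑ v, inc v d ≤ 2 := by
    intro d
    simp only [hincdef, Finset.sum_add_distrib, Finset.sum_ite_eq', mem_univ, if_true]
    norm_num
  -- lower bound
  have hlow := kstm_lower w c hw hc hW hk
  have heps : ∑ u, ∑ v, ∑ u', ∑ v', (if X u v u' v' then p u v * p u' v' else 0)
      = ∑ d, ∑ d', w d * w d' * c d d' := by
    rw [Fintype.sum_prod_type]
    refine Finset.sum_congr rfl fun u _ => Finset.sum_congr rfl fun v _ => ?_
    rw [Fintype.sum_prod_type]
    refine Finset.sum_congr rfl fun u' _ => Finset.sum_congr rfl fun v' _ => ?_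
    simp only [hwdef, hcdef]
    split_ifs <;> simp
  rw [heps]
  refine le_trans hlow ?_
  -- pointwise bound
  set S : (Fin k → V × V) → ℝ := fun e => ∑ i, ∑ j, if i < j then
    ∑ v, inc v (e i) * inc v (e j) else 0 with hS
  have hSnn : ∀ e, 0 ≤ S e := by
    intro e
    refine Finset.sum_nonneg fun i _ => Finset.sum_nonneg fun j _ => ?_
    split_ifs
    · exact Finset.sum_nonneg fun v _ => mul_nonneg (hi _ _) (hi _ _)
    · exact le_rfl
  have hshare : ∀ (e : Fin k → V × V), ¬ (∀ i j, i ≠ j → (e i).1 ≠ (e j).1 ∧ (e i).1 ≠ (e j).2 ∧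
      (e i).2 ≠ (e j).1 ∧ (e i).2 ≠ (e j).2) → 1 ≤ S e := by
    intro e hne
    push Not at hne
    obtain ⟨i, j, hij, hh⟩ := hne
    have aux : ∀ (v : V) (d : V × V), (v = d.1 ∨ v = d.2) → 1 ≤ inc v d := by
      intro v d hv
      simp only [hincdef]
      rcases hv with hv | hv
      · rw [if_pos hv]; split_ifs <;> norm_num
      · rw [if_pos hv]; split_ifs <;> norm_num
    have key1 : ∃ v, 1 ≤ inc v (e i) ∧ 1 ≤ inc v (e j) := by
      by_cases c1 : (e i).1 = (e j).1
      · exact ⟨(e i).1, aux _ _ (Or.inl rfl), aux _ _ (Or.inl c1)⟩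
      by_cases c2 : (e i).1 = (e j).2
      · exact ⟨(e i).1, aux _ _ (Or.inl rfl), aux _ _ (Or.inr c2)⟩
      by_cases c3 : (e i).2 = (e j).1
      · exact ⟨(e i).2, aux _ _ (Or.inr rfl), aux _ _ (Or.inl c3)⟩
      exact ⟨(e i).2, aux _ _ (Or.inr rfl), aux _ _ (Or.inr (hh c1 c2 c3))⟩
    have key2 : ∃ i' j', i' < j' ∧ ∃ v, 1 ≤ inc v (e i') ∧ 1 ≤ inc v (e j') := by
      obtain ⟨v, hv1, hv2⟩ := key1
      rcases lt_or_gt_of_ne hij with hl | hl
      · exact ⟨i, j, hl, v, hv1, hv2⟩
      · exact ⟨j, i, hl, v, hv2, hv1⟩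
    clear hij hh key1
    obtain ⟨i, j, hij, v, hv1, hv2⟩ := key2
    have b1 : 1 ≤ ∑ v, inc v (e i) * inc v (e j) := by
      refine le_trans ?_ (Finset.single_le_sum (f := fun v => inc v (e i) * inc v (e j))
        (fun v _ => mul_nonneg (hi _ _) (hi _ _)) (mem_univ v))
      show 1 ≤ inc v (e i) * inc v (e j)
      nlinarith
    have b2 : (if i < j then ∑ v, inc v (e i) * inc v (e j) else 0) ≤ S e := by
      have c1 := Finset.single_le_sum (f := fun j => if i < j then
        ∑ v, inc v (e i) * inc v (e j) else (0:ℝ)) (fun j _ => by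
          split_ifs
          · exact Finset.sum_nonneg fun v _ => mul_nonneg (hi _ _) (hi _ _)
          · exact le_rfl) (mem_univ j)
      have c2 := Finset.single_le_sum (f := fun i => ∑ j, if i < j then
        ∑ v, inc v (e i) * inc v (e j) else (0:ℝ)) (fun i _ => Finset.sum_nonneg fun j _ => by
          split_ifs
          · exact Finset.sum_nonneg fun v _ => mul_nonneg (hi _ _) (hi _ _)
          · exact le_rfl) (mem_univ i)
      exact le_trans c1 c2
    rw [if_pos hij] at b2
    linarith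
  have hpt : ∀ f e : Fin k → V × V, (∏ j, w (f j)) * ∏ i, (w (e i) * ∏ j, c (e i) (f j)) ≤
      (∏ j, w (f j)) * (∏ i, w (e i)) * (S e + S f) := by
    intro f e
    have hwf : 0 ≤ ∏ j, w (f j) := Finset.prod_nonneg fun j _ => hw _
    have hwe : 0 ≤ ∏ j, w (e j) := Finset.prod_nonneg fun j _ => hw _
    by_cases hz : (∏ j, w (f j)) * ∏ i, (w (e i) * ∏ j, c (e i) (f j)) = 0
    · rw [hz]
      exact mul_nonneg (mul_nonneg hwf hwe) (add_nonneg (hSnn e) (hSnn f))
    · have z1 : ∏ j, w (f j) ≠ 0 := fun hh => hz (by rw [hh, zero_mul])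
      have z2 : ∏ i, (w (e i) * ∏ j, c (e i) (f j)) ≠ 0 := fun hh => hz (by rw [hh, mul_zero])
      have z3 : ∀ j, w (f j) ≠ 0 := fun j => (Finset.prod_ne_zero_iff.1 z1) j (mem_univ j)
      have z4 : ∀ i, w (e i) * ∏ j, c (e i) (f j) ≠ 0 :=
        fun i => (Finset.prod_ne_zero_iff.1 z2) i (mem_univ i)
      have z5 : ∀ i, w (e i) ≠ 0 := fun i hh => z4 i (by rw [hh, zero_mul])
      have z6 : ∀ i j, c (e i) (f j) ≠ 0 := fun i j =>
        (Finset.prod_ne_zero_iff.1 (fun hh => z4 i (by rw [hh, mul_zero]))) j (mem_univ j)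
      have y1 : ∀ i, G.Adj (e i).1 (e i).2 := fun i => by
        by_contra hh; exact z5 i (hadj _ _ hh)
      have y2 : ∀ i, G.Adj (f i).1 (f i).2 := fun i => by
        by_contra hh; exact z3 i (hadj _ _ hh)
      have y3 : ∀ i j, X (e i).1 (e i).2 (f j).1 (f j).2 := fun i j => by
        by_contra hh
        exact z6 i j (by simp only [hcdef]; rw [if_neg hh])
      have y4 : 1 ≤ S e + S f := by
        by_cases q1 : ∀ i j, i ≠ j → (e i).1 ≠ (e j).1 ∧ (e i).1 ≠ (e j).2 ∧
          (e i).2 ≠ (e j).1 ∧ (e i).2 ≠ (e j).2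
        · by_cases q2 : ∀ i j, i ≠ j → (f i).1 ≠ (f j).1 ∧ (f i).1 ≠ (f j).2 ∧
            (f i).2 ≠ (f j).1 ∧ (f i).2 ≠ (f j).2
          · exact absurd ⟨e, f, y1, y2, y3, q1, q2⟩ h
          · have := hshare f q2
            have := hSnn e
            linarith
        · have := hshare e q1
          have := hSnn f
          linarith
      rw [Finset.prod_mul_distrib, ← mul_assoc]
      have y5 : ∏ i, ∏ j, c (e i) (f j) ≤ 1 :=
        Finset.prod_le_one (fun i _ => Finset.prod_nonneg fun j _ => hc _ _)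
          (fun i _ => Finset.prod_le_one (fun j _ => hc _ _) (fun j _ => hc1 _ _))
      exact mul_le_mul_of_nonneg_left (le_trans y5 y4) (mul_nonneg hwf hwe)
  refine le_trans (Finset.sum_le_sum fun f _ => Finset.sum_le_sum fun e _ => hpt f e) ?_
  -- sum of S
  have hWk : ∑ f : Fin k → V × V, ∏ j, w (f j) ≤ 1 := by
    rw [kstm_prodsum (fun _ d => w d)]
    rw [Finset.prod_const]
    exact pow_le_one₀ (Finset.sum_nonneg fun d _ => hw d) hW
  have hWk0 : 0 ≤ ∑ f : Fin k → V × V, ∏ j, w (f j) :=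
    Finset.sum_nonneg fun f _ => Finset.prod_nonneg fun j _ => hw _
  have hcount : ∑ i : Fin k, ∑ j : Fin k, (if i < j then (1:ℝ) else 0) ≤ (k : ℝ) ^ 2 / 2 := by
    have q1 : ∑ i : Fin k, ∑ j : Fin k, (if i < j then (1:ℝ) else 0)
        = ∑ i : Fin k, ∑ j : Fin k, (if j < i then (1:ℝ) else 0) := Finset.sum_comm
    have q2 : ∑ i : Fin k, ∑ j : Fin k, (if i < j then (1:ℝ) else 0)
        + ∑ i : Fin k, ∑ j : Fin k, (if j < i then (1:ℝ) else 0) ≤ (k : ℝ) ^ 2 := by
      rw [← Finset.sum_add_distrib]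
      have q3 : ∀ i : Fin k, (∑ j : Fin k, (if i < j then (1:ℝ) else 0))
          + ∑ j : Fin k, (if j < i then (1:ℝ) else 0) ≤ k := by
        intro i
        rw [← Finset.sum_add_distrib]
        refine le_trans (Finset.sum_le_card_nsmul _ _ 1 ?_) ?_
        · intro j _
          rcases lt_trichotomy i j with hl | hl | hl
          · rw [if_pos hl, if_neg hl.le.not_gt]; norm_num
          · rw [if_neg hl.ge.not_gt, if_neg hl.le.not_gt]; norm_num
          · rw [if_neg hl.le.not_gt, if_pos hl]; norm_num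
        · rw [Finset.card_univ, Fintype.card_fin, nsmul_eq_mul, mul_one]
      refine le_trans (Finset.sum_le_sum fun i _ => q3 i) ?_
      rw [Finset.sum_const, Finset.card_univ, Fintype.card_fin, nsmul_eq_mul, sq]
    linarith
  have hSs : ∑ e : Fin k → V × V, (∏ i, w (e i)) * S e ≤ 2 * (k : ℝ) ^ 2 * η := by
    have r1 : ∑ e : Fin k → V × V, (∏ i, w (e i)) * S e
        = ∑ i, ∑ j, ∑ e : Fin k → V × V, (∏ l, w (e l)) * (if i < j then
          ∑ v, inc v (e i) * inc v (e j) else 0) := by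
      have : ∀ e : Fin k → V × V, (∏ i, w (e i)) * S e = ∑ i, ∑ j, (∏ l, w (e l)) *
          (if i < j then ∑ v, inc v (e i) * inc v (e j) else 0) := by
        intro e
        simp only [hS]
        rw [Finset.mul_sum]
        refine Finset.sum_congr rfl fun i _ => ?_
        rw [Finset.mul_sum]
      rw [Finset.sum_congr rfl fun e _ => this e, Finset.sum_comm]
      refine Finset.sum_congr rfl fun i _ => ?_
      rw [Finset.sum_comm]
    rw [r1]
    have r2 : ∀ i j : Fin k, ∑ e : Fin k → V × V, (∏ l, w (e l)) * (if i < j then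
          ∑ v, inc v (e i) * inc v (e j) else 0) ≤ (4 * η) * (if i < j then (1:ℝ) else 0) := by
      intro i j
      split_ifs with hij
      · rw [mul_one]
        exact kstm_pair w inc η hw hi hW hη' h2 h0 i j hij.ne
      · simp
    refine le_trans (Finset.sum_le_sum fun i _ => Finset.sum_le_sum fun j _ => r2 i j) ?_
    simp only [← Finset.mul_sum]
    nlinarith
  have hfin : ∑ f : Fin k → V × V, ∑ e : Fin k → V × V,
      (∏ j, w (f j)) * (∏ i, w (e i)) * (S e + S f) ≤ 4 * (k : ℝ) ^ 2 * η := by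
    have t1 : ∀ f : Fin k → V × V, ∑ e : Fin k → V × V,
        (∏ j, w (f j)) * (∏ i, w (e i)) * (S e + S f)
        = (∏ j, w (f j)) * (∑ e : Fin k → V × V, (∏ i, w (e i)) * S e)
          + ((∏ j, w (f j)) * S f) * ∑ e : Fin k → V × V, ∏ i, w (e i) := by
      intro f
      rw [Finset.mul_sum, Finset.mul_sum, ← Finset.sum_add_distrib]
      exact Finset.sum_congr rfl fun e _ => by ring
    rw [Finset.sum_congr rfl fun f _ => t1 f, Finset.sum_add_distrib, ← Finset.sum_mul,
      ← Finset.sum_mul]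
    have t2 : 0 ≤ ∑ e : Fin k → V × V, (∏ i, w (e i)) * S e :=
      Finset.sum_nonneg fun e _ => mul_nonneg (Finset.prod_nonneg fun j _ => hw _) (hSnn e)
    have t3 : (∑ f : Fin k → V × V, ∏ j, w (f j)) *
        (∑ e : Fin k → V × V, (∏ i, w (e i)) * S e) ≤
        1 * ∑ e : Fin k → V × V, (∏ i, w (e i)) * S e := mul_le_mul_of_nonneg_right hWk t2
    have t4 : (∑ e : Fin k → V × V, (∏ i, w (e i)) * S e) *
        (∑ f : Fin k → V × V, ∏ j, w (f j)) ≤
        (∑ e : Fin k → V × V, (∏ i, w (e i)) * S e) * 1 := mul_le_mul_of_nonneg_left hWk t2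
    linarith
  refine le_trans hfin ?_
  push_cast
  exact le_rfl

end NGR
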