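import Pool.Agent.NGR.Fin
import Pool.Agent.NGR.Kstm
import Pool.Agent.NGR.Geo

open Finset
open scoped Classical

noncomputable section

namespace NGR

private theorem main_card {V : Type} [Fintype V] (G : SimpleGraph V) :
    2 * G.edgeSet.ncard = darts G := by
  have h1 := G.sum_degrees_eq_twice_card_edges
  have h2 : G.edgeSet.ncard = G.edgeFinset.card := by
    rw [← SimpleGraph.coe_edgeFinset, Set.ncard_coe_finset]
  rw [h2, ← h1]
  unfold darts dg
  apply Finset.sum_congr rfl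
  intro v _
  rw [← SimpleGraph.card_neighborFinset_eq_degree, SimpleGraph.neighborFinset_eq_filter]

private theorem main_nogrid {V : Type} (T : TopGraph V) (k l : ℕ)
    (h : ¬ T.NaturalGrid k l) : NoGrid (max k l) T.G T.X := by
  rintro ⟨e, f, he, hf, hX, hee, hff⟩
  apply h
  have hk : k ≤ max k l := le_max_left _ _
  have hl : l ≤ max k l := le_max_right _ _
  let a : Fin k → Sym2 V := fun i => s((e (Fin.castLE hk i)).1, (e (Fin.castLE hk i)).2)
  let b : Fin l → Sym2 V := fun i => s((f (Fin.castLE hl i)).1, (f (Fin.castLE hl i)).2)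
  have nonadj : ∀ p q : V × V, (p.1 ≠ q.1 ∧ p.1 ≠ q.2 ∧ p.2 ≠ q.1 ∧ p.2 ≠ q.2) →
      ∀ v, v ∈ s(p.1, p.2) → v ∉ s(q.1, q.2) := by
    intro p q hpq v hv hv'
    rw [Sym2.mem_iff] at hv hv'
    obtain ⟨h1, h2, h3, h4⟩ := hpq
    rcases hv with hv | hv <;> rcases hv' with hv' | hv'
    · exact h1 (hv.symm.trans hv')
    · exact h2 (hv.symm.trans hv')
    · exact h3 (hv.symm.trans hv')
    · exact h4 (hv.symm.trans hv')
  have aa : ∀ i j, i ≠ j → ∀ v, v ∈ a i → v ∉ a j := by
    intro i j hij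
    exact nonadj _ _ (hee _ _ (fun h => hij (Fin.castLE_injective hk h)))
  have bb : ∀ i j, i ≠ j → ∀ v, v ∈ b i → v ∉ b j := by
    intro i j hij
    exact nonadj _ _ (hff _ _ (fun h => hij (Fin.castLE_injective hl h)))
  have ab : ∀ i j, ∀ v, v ∈ a i → v ∉ b j := by
    intro i j
    have := hX (Fin.castLE hk i) (Fin.castLE hl j)
    exact nonadj _ _ ⟨this.1, this.2.1, this.2.2.1, this.2.2.2.1⟩
  have ba : ∀ i j, ∀ v, v ∈ b i → v ∉ a j := by
    intro i j v hv hv'
    exact ab j i v hv' hv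
  have ma : ∀ i, (e (Fin.castLE hk i)).1 ∈ a i := fun i => Sym2.mem_mk_left _ _
  have mb : ∀ i, (f (Fin.castLE hl i)).1 ∈ b i := fun i => Sym2.mem_mk_left _ _
  have ia : Function.Injective a := by
    intro i j hij
    by_contra hne
    exact aa i j hne _ (ma i) (hij ▸ ma i)
  have ib : Function.Injective b := by
    intro i j hij
    by_contra hne
    exact bb i j hne _ (mb i) (hij ▸ mb i)
  refine ⟨univ.image a, univ.image b, ?_, ?_, ?_, ?_, ?_, ?_, ?_⟩
  · intro x hx
    simp only [coe_image, coe_univ, Set.image_univ, Set.mem_range] at hx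
    obtain ⟨i, rfl⟩ := hx
    exact he _
  · intro x hx
    simp only [coe_image, coe_univ, Set.image_univ, Set.mem_range] at hx
    obtain ⟨i, rfl⟩ := hx
    exact hf _
  · rw [Finset.disjoint_left]
    intro x hx hx'
    simp only [mem_image, mem_univ, true_and] at hx hx'
    obtain ⟨i, rfl⟩ := hx
    obtain ⟨j, hj⟩ := hx'
    exact ab i j _ (ma i) (hj ▸ ma i)
  · rw [card_image_of_injective _ ia, card_univ, Fintype.card_fin]
  · rw [card_image_of_injective _ ib, card_univ, Fintype.card_fin]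
  · intro x hx y hy
    simp only [mem_image, mem_univ, true_and] at hx hy
    obtain ⟨i, rfl⟩ := hx
    obtain ⟨j, rfl⟩ := hy
    exact (hX _ _).2.2.2.2.2.2
  · intro x y hx hy hne
    simp only [mem_image, mem_univ, true_and] at hx hy
    rcases hx with ⟨i, rfl⟩ | ⟨i, rfl⟩ <;> rcases hy with ⟨j, rfl⟩ | ⟨j, rfl⟩
    · exact aa i j (fun h => hne (by rw [h]))
    · exact ab i j
    · exact ba i j
    · exact bb i j (fun h => hne (by rw [h]))

/-- MAIN -/
theorem main (k l : ℕ) (hk : 1 ≤ k) (_hl : 1 ≤ l) : ∃ c : ℝ, ∀ (V : Type) [Fintype V]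
    (T : TopGraph V), ¬ T.NaturalGrid k l →
      (T.G.edgeSet.ncard : ℝ) ≤ c * (Fintype.card V : ℝ) := by
  have hn : 1 ≤ max k l := le_trans hk (le_max_left _ _)
  obtain ⟨C, hC⟩ := fin2 ((max k l) ^ 2) (4 * (max k l) ^ 2)
    (Nat.one_le_pow _ _ hn) (by have := Nat.one_le_pow 2 _ hn; omega)
  refine ⟨C / 2, ?_⟩
  intro V _ T hT
  have hg := main_nogrid T k l hT
  have hgeo := geo T
  have hcl : InC ((max k l) ^ 2) (4 * (max k l) ^ 2) T.G T.X :=
    ⟨hgeo.1, hgeo.2, kst hn hgeo.1 hg⟩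
  have h1 := hC V T.G T.X univ hcl (fun u v _ => mem_univ u)
  have h2 : (2 : ℝ) * (T.G.edgeSet.ncard : ℝ) = (darts T.G : ℝ) := by
    exact_mod_cast main_card T.G
  rw [card_univ] at h1
  linarith

end NGR
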