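import Pool.Agent.NGR.Defs

open Finset
open scoped Classical

noncomputable section

namespace NGR

variable {V : Type} [Fintype V]

/-- MONO -/
theorem mono_G {K lam : ℕ} {G G' : SimpleGraph V} {X : V → V → V → V → Prop}
    (h : InC K lam G X) (hle : G' ≤ G) : InC K lam G' X := by
  refine ⟨h.cross, ?_, ?_⟩
  · intro l a b P h0 hl hw
    have hw' : ∀ i j, LazyWalk G l (P i j) := by
      intro i j t ht
      rcases hw i j t ht with h1 | h1
      · exact Or.inl h1
      · exact Or.inr (hle h1)
    obtain ⟨i, i', j, j', hi, hj, hm⟩ := h.vk l a b P h0 hl hw'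
    refine ⟨i, i', j, j', hi, hj, ?_⟩
    rcases hm with hm | ⟨t, t', ht, ht', ha, ha', hx⟩
    · exact Or.inl hm
    · right
      refine ⟨t, t', ht, ht', ?_, ?_, hx⟩
      · rcases hw i j t ht with h1 | h1
        · rw [h1] at ha
          exact absurd ha (G.loopless.irrefl _)
        · exact h1
      · rcases hw i' j' t' ht' with h1 | h1
        · rw [h1] at ha'
          exact absurd ha' (G.loopless.irrefl _)
        · exact h1
  · intro p η hη h0 hs hn ht hv
    exact h.nl p η hη h0 hs (fun u v huv => hn u v (fun h' => huv (hle h'))) ht hv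

/-- MONO -/
theorem mono_lam {K lam lam' : ℕ} {G : SimpleGraph V} {X : V → V → V → V → Prop}
    (h : InC K lam G X) (hle : lam ≤ lam') : InC K lam' G X := by
  refine ⟨h.cross, h.vk, ?_⟩
  intro p η hη h0 hs hn ht hv
  refine (h.nl p η hη h0 hs hn ht hv).trans ?_
  apply mul_le_mul_of_nonneg_right _ hη
  exact_mod_cast hle

/-- KEY -/
theorem key_inj (G : SimpleGraph V) : Function.Injective (key G) := by
  intro u v h
  unfold key at h
  have hu := (Fintype.equivFin V u).isLt
  have hv := (Fintype.equivFin V v).isLt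
  have h1 : (Fintype.equivFin V u : ℕ) = (Fintype.equivFin V v : ℕ) := by
    have := congrArg (fun n => n % Fintype.card V) h
    simp only [Nat.mul_add_mod_self_right] at this
    rwa [Nat.mod_eq_of_lt hu, Nat.mod_eq_of_lt hv] at this
  exact (Fintype.equivFin V).injective (Fin.ext h1)

/-- KEY -/
theorem key_mono (G : SimpleGraph V) {u v : V} (h : key G u < key G v) :
    dg G u ≤ dg G v := by
  unfold key at h
  have hu := (Fintype.equivFin V u).isLt
  have hv := (Fintype.equivFin V v).isLt
  by_contra hc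
  push Not at hc
  have h2 : (dg G v + 1) * Fintype.card V ≤ dg G u * Fintype.card V :=
    Nat.mul_le_mul_right _ hc
  have h3 : (dg G v + 1) * Fintype.card V = dg G v * Fintype.card V + Fintype.card V := by ring
  omega

/-- KEY: a maximal matching. -/
theorem max_match {A B : Type} [Fintype A] [Fintype B] (R : A → B → Prop) :
    ∃ M : Finset (A × B), (∀ m ∈ M, R m.1 m.2) ∧
      (∀ m ∈ M, ∀ n ∈ M, m.1 = n.1 → m = n) ∧ (∀ m ∈ M, ∀ n ∈ M, m.2 = n.2 → m = n) ∧
      (∀ a b, R a b → (∃ m ∈ M, m.1 = a) ∨ (∃ m ∈ M, m.2 = b)) := by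
  let good : Finset (A × B) → Prop := fun M => (∀ m ∈ M, R m.1 m.2) ∧
      (∀ m ∈ M, ∀ n ∈ M, m.1 = n.1 → m = n) ∧ (∀ m ∈ M, ∀ n ∈ M, m.2 = n.2 → m = n)
  have hne : (univ.filter good).Nonempty :=
    ⟨∅, by simp [good]⟩
  obtain ⟨M, hM, hmax⟩ := Finset.exists_max_image (univ.filter good) Finset.card hne
  have hMg : good M := (mem_filter.mp hM).2
  refine ⟨M, hMg.1, hMg.2.1, hMg.2.2, ?_⟩
  intro a b hab
  by_contra hc
  push Not at hc
  obtain ⟨hca, hcb⟩ := hc
  have hnot : (a, b) ∉ M := fun hm => hca _ hm rfl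
  have hg : good (insert (a, b) M) := by
    refine ⟨?_, ?_, ?_⟩
    · intro m hm
      rcases mem_insert.mp hm with rfl | hm
      · exact hab
      · exact hMg.1 m hm
    · intro m hm n hn hmn
      rcases mem_insert.mp hm with rfl | hm <;> rcases mem_insert.mp hn with rfl | hn
      · rfl
      · exact absurd hmn.symm (hca n hn)
      · exact absurd hmn (hca m hm)
      · exact hMg.2.1 m hm n hn hmn
    · intro m hm n hn hmn
      rcases mem_insert.mp hm with rfl | hm <;> rcases mem_insert.mp hn with rfl | hn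
      · rfl
      · exact absurd hmn.symm (hcb n hn)
      · exact absurd hmn (hcb m hm)
      · exact hMg.2.2 m hm n hn hmn
  have := hmax _ (mem_filter.mpr ⟨mem_univ _, hg⟩)
  rw [card_insert_of_notMem hnot] at this
  omega

end NGR
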