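import Pool.Agent.NGR.Defs

open Finset
open scoped Classical

noncomputable section

namespace NGR

variable {V : Type} [Fintype V]

private theorem par_pow2 (p : ℕ) : ∃ c : ℝ, 0 < c ∧ ∀ j : ℕ, ((j : ℝ) + 2) ^ p ≤ c * 2 ^ j := by
  have hl : 0 < Real.log 2 := Real.log_pos (by norm_num)
  refine ⟨4 * p.factorial / (Real.log 2) ^ p, by positivity, ?_⟩
  intro j
  have h := Real.pow_div_factorial_le_exp (((j : ℝ) + 2) * Real.log 2) (by positivity) p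
  have h2 : Real.exp (((j : ℝ) + 2) * Real.log 2) = 4 * 2 ^ j := by
    rw [mul_comm, ← Real.rpow_def_of_pos (by norm_num : (0 : ℝ) < 2),
      Real.rpow_add (by norm_num), Real.rpow_natCast]
    norm_num
    ring
  rw [h2, mul_pow, div_le_iff₀ (by positivity)] at h
  rw [div_mul_eq_mul_div, le_div_iff₀ (by positivity)]
  linarith

private theorem par_log (p : ℕ) : ∃ c : ℝ, 0 < c ∧ ∀ z : ℝ, 1 ≤ z →
    (1 + Real.log z) ^ p ≤ c * √z := by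
  refine ⟨2 ^ p * p.factorial * Real.exp (1 / 2), by positivity, ?_⟩
  intro z hz
  have hlz : 0 ≤ Real.log z := Real.log_nonneg hz
  have h := Real.pow_div_factorial_le_exp ((1 + Real.log z) / 2) (by positivity) p
  have h2 : Real.exp ((1 + Real.log z) / 2) = Real.exp (1 / 2) * √z := by
    rw [add_div, Real.exp_add, Real.exp_half (Real.log z), Real.exp_log (by linarith)]
  rw [h2, div_pow, div_div, div_le_iff₀ (by positivity)] at h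
  linarith

/-- PAR: the numbers. -/
theorem par (K : ℕ) (hK : 1 ≤ K) : ∃ C : ℕ, ∀ lam Q z j M : ℕ, 1 ≤ lam → 1 ≤ Q →
    C * (lam * Q) ^ C ≤ z → 2 ^ j * z ^ (Q + 1) ≤ M → M < 2 ^ (j + 1) * z ^ (Q + 1) →
    ∃ (l : ℕ) (e0 : ℝ), 0 ≤ e0 ∧
      (M : ℝ) ^ 2 * (1 - (1 / (40 * (Q : ℝ) * (j + 1) * (j + 2))) ^ 2 / 4) ^ l ≤ 1 / 4 ∧
      (lam : ℝ) * (((z ^ Q : ℕ) : ℝ) / M) ≤ e0 ^ K ∧
      144 * ((l : ℝ) + 1) ^ 2 * (((z ^ Q : ℕ) : ℝ) / M + e0) < 1 := by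
  obtain ⟨c1, hc1, hp1⟩ := par_pow2 (10 * K)
  obtain ⟨c2, hc2, hp2⟩ := par_log (2 * K)
  set A : ℝ := (3 * 10 ^ 11) ^ K * c1 * c2 with hA
  have hA0 : 0 < A := by positivity
  refine ⟨⌈A ^ 2⌉₊ + 1 + 12 * K, ?_⟩
  set C := ⌈A ^ 2⌉₊ + 1 + 12 * K with hC
  intro lam Q z j M hlam hQ hz hM1 hM2
  have hCA : A ^ 2 < (C : ℝ) := by
    have := Nat.le_ceil (A ^ 2)
    rw [hC]
    push_cast
    have h12 : (0 : ℝ) ≤ 12 * (K : ℝ) := by positivity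
    linarith
  have hC12 : 12 * K ≤ C := by omega
  have hC1 : 1 ≤ C := by omega
  have hz1 : 1 ≤ z := by
    refine le_trans ?_ hz
    exact Nat.one_le_iff_ne_zero.mpr (by positivity)
  have hZ1 : (1 : ℝ) ≤ (z : ℝ) := by exact_mod_cast hz1
  have hq1 : (1 : ℝ) ≤ (Q : ℝ) := by exact_mod_cast hQ
  have hl1 : (1 : ℝ) ≤ (lam : ℝ) := by exact_mod_cast hlam
  have hj0 : (0 : ℝ) ≤ (j : ℝ) := by positivity
  have hm1 : (2 : ℝ) ^ j * (z : ℝ) ^ (Q + 1) ≤ (M : ℝ) := by exact_mod_cast hM1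
  have hm2 : (M : ℝ) < (2 : ℝ) ^ (j + 1) * (z : ℝ) ^ (Q + 1) := by exact_mod_cast hM2
  have hm0 : 0 < (M : ℝ) := lt_of_lt_of_le (by positivity) hm1
  have hM1' : (1 : ℝ) ≤ (M : ℝ) := by
    have : 0 < M := by exact_mod_cast hm0
    exact_mod_cast this
  set N : ℝ := 40 * (Q : ℝ) * (j + 1) * (j + 2) with hN
  have hN80 : 80 ≤ N := by
    have h1 : (1 : ℝ) ≤ (Q : ℝ) * ((j : ℝ) + 1) := by nlinarith
    have h2 : (2 : ℝ) ≤ (Q : ℝ) * ((j : ℝ) + 1) * ((j : ℝ) + 2) := by nlinarith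
    rw [hN]; linarith
  have hlz : 0 ≤ Real.log z := Real.log_nonneg hZ1
  set T : ℝ := Real.log (2 * (M : ℝ)) with hT
  have hT0 : 0 ≤ T := Real.log_nonneg (by linarith)
  set l : ℕ := ⌈8 * N ^ 2 * T⌉₊ with hl
  have hl_lower : 8 * N ^ 2 * T ≤ (l : ℝ) := Nat.le_ceil _
  have hl_upper : (l : ℝ) < 8 * N ^ 2 * T + 1 := Nat.ceil_lt_add_one (by positivity)
  -- upper bound for T
  have hTU : T ≤ ((j : ℝ) + 2) + ((Q : ℝ) + 1) * Real.log z := by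
    have h1 : 2 * (M : ℝ) ≤ (2 : ℝ) ^ (j + 2) * (z : ℝ) ^ (Q + 1) := by
      have : (2 : ℝ) ^ (j + 2) = 2 * 2 ^ (j + 1) := by ring
      rw [this]; linarith
    have h2 : T ≤ Real.log ((2 : ℝ) ^ (j + 2) * (z : ℝ) ^ (Q + 1)) :=
      Real.log_le_log (by linarith) h1
    rw [Real.log_mul (by positivity) (by positivity), Real.log_pow, Real.log_pow] at h2
    have h3 : Real.log 2 ≤ 1 := by
      have := Real.log_le_sub_one_of_pos (show (0 : ℝ) < 2 by norm_num)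
      linarith
    have h4 : ((j + 2 : ℕ) : ℝ) * Real.log 2 ≤ ((j : ℝ) + 2) := by
      push_cast
      nlinarith
    push_cast at h2 h4
    linarith
  set U : ℝ := ((j : ℝ) + 2) + ((Q : ℝ) + 1) * Real.log z with hU
  have hU2 : 2 ≤ U := by
    have : 0 ≤ ((Q : ℝ) + 1) * Real.log z := by positivity
    rw [hU]; linarith
  have hUb : U ≤ 2 * (Q : ℝ) * ((j : ℝ) + 2) * (1 + Real.log z) := by
    have h1 : ((j : ℝ) + 2) ≤ 2 * (Q : ℝ) * ((j : ℝ) + 2) := by nlinarith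
    have h2 : ((Q : ℝ) + 1) * Real.log z ≤ 2 * (Q : ℝ) * ((j : ℝ) + 2) * Real.log z := by
      apply mul_le_mul_of_nonneg_right _ hlz
      nlinarith
    rw [hU]
    nlinarith
  have hNb : N ≤ 40 * (Q : ℝ) * ((j : ℝ) + 2) ^ 2 := by
    rw [hN]
    have : 40 * (Q : ℝ) * ((j : ℝ) + 1) * ((j : ℝ) + 2) ≤
        40 * (Q : ℝ) * ((j : ℝ) + 2) * ((j : ℝ) + 2) := by gcongr; linarith
    calc 40 * (Q : ℝ) * ((j : ℝ) + 1) * ((j : ℝ) + 2) ≤ _ := this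
      _ = _ := by ring
  have hN2U : 1 ≤ N ^ 2 * U := by nlinarith
  have hl1b : (l : ℝ) + 1 ≤ 32000 * (Q : ℝ) ^ 3 * ((j : ℝ) + 2) ^ 5 * (1 + Real.log z) := by
    have h1 : 8 * N ^ 2 * T ≤ 8 * N ^ 2 * U := by gcongr
    have h2 : (l : ℝ) + 1 ≤ 10 * N ^ 2 * U := by nlinarith
    calc (l : ℝ) + 1 ≤ 10 * N ^ 2 * U := h2
      _ ≤ 10 * (40 * (Q : ℝ) * ((j : ℝ) + 2) ^ 2) ^ 2 *
          (2 * (Q : ℝ) * ((j : ℝ) + 2) * (1 + Real.log z)) := by gcongr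
      _ = _ := by ring
  have h288 : 288 * ((l : ℝ) + 1) ^ 2 ≤
      3 * 10 ^ 11 * (Q : ℝ) ^ 6 * ((j : ℝ) + 2) ^ 10 * (1 + Real.log z) ^ 2 := by
    calc 288 * ((l : ℝ) + 1) ^ 2 ≤
        288 * (32000 * (Q : ℝ) ^ 3 * ((j : ℝ) + 2) ^ 5 * (1 + Real.log z)) ^ 2 := by gcongr
      _ = 294912000000 * ((Q : ℝ) ^ 6 * ((j : ℝ) + 2) ^ 10 * (1 + Real.log z) ^ 2) := by ring
      _ ≤ 3 * 10 ^ 11 * ((Q : ℝ) ^ 6 * ((j : ℝ) + 2) ^ 10 * (1 + Real.log z) ^ 2) := by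
          gcongr
          norm_num
      _ = _ := by ring
  set x : ℝ := (((z ^ Q : ℕ) : ℝ) / M) with hx
  have hx0 : 0 < x := by
    rw [hx]
    apply div_pos _ hm0
    push_cast
    positivity
  have hx2 : x * 2 ^ j * z ≤ 1 := by
    rw [hx]
    push_cast
    rw [div_mul_eq_mul_div, div_mul_eq_mul_div, div_le_one hm0]
    calc (z : ℝ) ^ Q * 2 ^ j * z = 2 ^ j * (z : ℝ) ^ (Q + 1) := by ring
      _ ≤ M := hm1
  have hx1 : x ≤ 1 := by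
    have h1 : (1 : ℝ) ≤ 2 ^ j * z := by
      have : (1 : ℝ) ≤ 2 ^ j := one_le_pow₀ (by norm_num)
      nlinarith
    have h2 : x * 1 ≤ x * (2 ^ j * z) := by gcongr
    nlinarith
  have hK0 : K ≠ 0 := by omega
  set e0 : ℝ := ((lam : ℝ) * x) ^ ((K : ℝ)⁻¹) with he0
  have he00 : 0 ≤ e0 := by positivity
  have heK : e0 ^ K = (lam : ℝ) * x := Real.rpow_inv_natCast_pow (by positivity) hK0
  have hxe : x ≤ e0 := by
    rw [← pow_le_pow_iff_left₀ hx0.le he00 hK0, heK]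
    calc x ^ K ≤ x ^ 1 := pow_le_pow_of_le_one hx0.le hx1 hK
      _ = 1 * x := by ring
      _ ≤ (lam : ℝ) * x := by gcongr
  refine ⟨l, e0, he00, ?_, heK.ge, ?_⟩
  · -- mixing time
    have ha : (1 : ℝ) - (1 / N) ^ 2 / 4 ≤ Real.exp (-(1 / (4 * N ^ 2))) := by
      have := Real.one_sub_le_exp_neg (1 / (4 * N ^ 2))
      have h2 : (1 / N) ^ 2 / 4 = 1 / (4 * N ^ 2) := by
        field_simp
      rw [h2]; exact this
    have ha0 : (0 : ℝ) ≤ 1 - (1 / N) ^ 2 / 4 := by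
      have h1 : (1 / N) ≤ 1 := by
        rw [div_le_one (by linarith)]; linarith
      have h0 : 0 ≤ 1 / N := by positivity
      nlinarith
    have h1 : (1 - (1 / N) ^ 2 / 4) ^ l ≤ Real.exp (-(2 * T)) := by
      calc (1 - (1 / N) ^ 2 / 4) ^ l ≤ (Real.exp (-(1 / (4 * N ^ 2)))) ^ l := by gcongr
        _ = Real.exp (-((l : ℝ) * (1 / (4 * N ^ 2)))) := by
            rw [← Real.exp_nat_mul]; ring_nf
        _ ≤ Real.exp (-(2 * T)) := by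
            apply Real.exp_le_exp.mpr
            have : 2 * T ≤ (l : ℝ) * (1 / (4 * N ^ 2)) := by
              rw [mul_one_div, le_div_iff₀ (by positivity)]
              calc 2 * T * (4 * N ^ 2) = 8 * N ^ 2 * T := by ring
                _ ≤ (l : ℝ) := hl_lower
            linarith
    have h2 : Real.exp (-(2 * T)) = 1 / (4 * (M : ℝ) ^ 2) := by
      rw [hT, Real.exp_neg, two_mul (Real.log _), Real.exp_add, Real.exp_log (by linarith)]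
      field_simp
      ring
    calc (M : ℝ) ^ 2 * (1 - (1 / N) ^ 2 / 4) ^ l ≤ (M : ℝ) ^ 2 * (1 / (4 * (M : ℝ) ^ 2)) := by
          rw [← h2]; gcongr
      _ = 1 / 4 := by field_simp
  · -- smallness
    have hb : 144 * ((l : ℝ) + 1) ^ 2 * (x + e0) ≤ 288 * ((l : ℝ) + 1) ^ 2 * e0 := by
      calc 144 * ((l : ℝ) + 1) ^ 2 * (x + e0) ≤ 144 * ((l : ℝ) + 1) ^ 2 * (e0 + e0) := by gcongr
        _ = _ := by ring
    refine lt_of_le_of_lt hb ?_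
    have hy0 : 0 ≤ 288 * ((l : ℝ) + 1) ^ 2 * e0 := by positivity
    rw [← pow_lt_one_iff_of_nonneg hy0 hK0, mul_pow, heK]
    have h1 : (288 * ((l : ℝ) + 1) ^ 2) ^ K ≤
        (3 * 10 ^ 11) ^ K * (Q : ℝ) ^ (6 * K) * (c1 * 2 ^ j) * (c2 * √z) := by
      calc (288 * ((l : ℝ) + 1) ^ 2) ^ K ≤
          (3 * 10 ^ 11 * (Q : ℝ) ^ 6 * ((j : ℝ) + 2) ^ 10 * (1 + Real.log z) ^ 2) ^ K := by
            gcongr
        _ = (3 * 10 ^ 11) ^ K * (Q : ℝ) ^ (6 * K) * ((j : ℝ) + 2) ^ (10 * K) *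
            (1 + Real.log z) ^ (2 * K) := by
            rw [mul_pow, mul_pow, mul_pow, pow_mul, pow_mul, pow_mul]
        _ ≤ _ := by
            gcongr
            · exact hp1 j
            · exact hp2 z hZ1
    have hsz : 0 < √(z : ℝ) := Real.sqrt_pos.mpr (by linarith)
    have hss : √(z : ℝ) * √(z : ℝ) = z := Real.mul_self_sqrt (by linarith)
    have h2 : A * ((lam : ℝ) * (Q : ℝ) ^ (6 * K)) < √z := by
      rw [Real.lt_sqrt (by positivity)]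
      have h3 : ((lam : ℝ) * (Q : ℝ) ^ (6 * K)) ^ 2 ≤ ((lam : ℝ) * (Q : ℝ)) ^ C := by
        calc ((lam : ℝ) * (Q : ℝ) ^ (6 * K)) ^ 2 = (lam : ℝ) ^ 2 * (Q : ℝ) ^ (12 * K) := by
              rw [mul_pow, ← pow_mul]; ring_nf
          _ ≤ (lam : ℝ) ^ (12 * K) * (Q : ℝ) ^ (12 * K) := by
              gcongr
              omega
          _ = ((lam : ℝ) * (Q : ℝ)) ^ (12 * K) := by rw [mul_pow]
          _ ≤ ((lam : ℝ) * (Q : ℝ)) ^ C := by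
              apply pow_le_pow_right₀ _ hC12
              nlinarith
      have h4 : (C : ℝ) * ((lam : ℝ) * (Q : ℝ)) ^ C ≤ (z : ℝ) := by exact_mod_cast hz
      have h5 : 0 < ((lam : ℝ) * (Q : ℝ) ^ (6 * K)) ^ 2 := by positivity
      calc (A * ((lam : ℝ) * (Q : ℝ) ^ (6 * K))) ^ 2
          = A ^ 2 * ((lam : ℝ) * (Q : ℝ) ^ (6 * K)) ^ 2 := by ring
        _ < C * ((lam : ℝ) * (Q : ℝ) ^ (6 * K)) ^ 2 := by gcongr
        _ ≤ C * ((lam : ℝ) * (Q : ℝ)) ^ C := by gcongr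
        _ ≤ z := h4
    calc (288 * ((l : ℝ) + 1) ^ 2) ^ K * ((lam : ℝ) * x)
        ≤ ((3 * 10 ^ 11) ^ K * (Q : ℝ) ^ (6 * K) * (c1 * 2 ^ j) * (c2 * √z)) *
          ((lam : ℝ) * x) := by gcongr
      _ = A * ((lam : ℝ) * (Q : ℝ) ^ (6 * K)) * √z * (x * 2 ^ j) := by rw [hA]; ring
      _ < √z * √z * (x * 2 ^ j) := by
          gcongr
      _ = x * 2 ^ j * z := by rw [hss]; ring
      _ ≤ 1 := hx2

end NGR
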