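import Pool.Agent.NGR.Mono
import Pool.Agent.NGR.Kss
import Pool.Agent.NGR.Deco

open Finset
open scoped Classical

noncomputable section

namespace NGR

variable {V : Type} [Fintype V]

private theorem ST4_dg_mono {G' G : SimpleGraph V} (h : G' ≤ G) (v : V) : dg G' v ≤ dg G v := by
  unfold dg
  apply card_le_card
  intro w hw
  simp only [mem_filter, mem_univ, true_and] at hw ⊢
  exact h hw

private theorem ST4_dg_sum (G : SimpleGraph V) (v : V) :
    dg G v = ∑ w, if G.Adj v w then 1 else 0 := by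
  unfold dg
  rw [card_filter]

/-- counting: few vertices of large degree in one class -/
private theorem ST4_class {G1 : SimpleGraph V} {c : V → ℕ} {z Q : ℕ} (hQ : 1 ≤ Q)
    (hc : ∀ i, (∑ v, if c v = i then dg G1 v else 0) < z ^ (Q + 1)) (i : ℕ) :
    (univ.filter (fun v => z ^ (Q - 1) < dg G1 v ∧ c v = i)).card ≤ z ^ 2 := by
  set Z := univ.filter (fun v => z ^ (Q - 1) < dg G1 v ∧ c v = i) with hZ
  have h1 : Z.card * z ^ (Q - 1) ≤ ∑ v ∈ Z, dg G1 v := by
    rw [← smul_eq_mul]
    apply card_nsmul_le_sum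
    intro v hv
    rw [hZ, mem_filter] at hv
    exact hv.2.1.le
  have h2 : ∑ v ∈ Z, dg G1 v ≤ ∑ v, if c v = i then dg G1 v else 0 := by
    rw [← sum_filter]
    apply sum_le_sum_of_subset
    intro v hv
    rw [hZ, mem_filter] at hv
    simp only [mem_filter, mem_univ, true_and]
    exact hv.2.2
  have h3 := hc i
  have h4 : Z.card * z ^ (Q - 1) < z ^ 2 * z ^ (Q - 1) := by
    rw [← pow_add]
    have : 2 + (Q - 1) = Q + 1 := by omega
    rw [this]
    omega
  exact (lt_of_mul_lt_mul_right h4 (Nat.zero_le _)).le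

/-- ST4: one step, from maximum degree `z^(Q-1)` to `z^Q`, `Q = 2s+4`. -/
theorem st4 {K lam s Q z : ℕ} (hK : 1 ≤ K) (hlam : 1 ≤ lam) (hs : s = sK K lam)
    (hQ : Q = 2 * s + 4) (hz : 80 * s * Q ≤ z)
    (hcut : ∀ (G : SimpleGraph V) (X : V → V → V → V → Prop), InC K lam G X →
      (∀ v, dg G v ≤ z ^ Q) → ∀ j : ℕ, 2 ^ j * z ^ (Q + 1) ≤ darts G →
      darts G < 2 ^ (j + 1) * z ^ (Q + 1) → ∃ S : Finset V, 0 < vol G S ∧
        2 * vol G S ≤ darts G ∧
        (cut G S : ℝ) < (1 / (40 * (Q : ℝ))) / (((j : ℝ) + 1) * (j + 2)) * (vol G S : ℝ))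
    (B : ℝ) (hB0 : 0 ≤ B) (hB : DensD V K lam (z ^ (Q - 1)) B) :
    DensD V K lam (z ^ Q) ((2 * (s : ℝ) + B) / (1 - 1 / (8 * (Q : ℝ)))) := by
  intro G X S hC hdeg hins
  have hs144 : 144 ≤ s := by rw [hs]; unfold sK; omega
  have hQ4 : 4 ≤ Q := by omega
  have hzpos : 0 < z := by
    have : 0 < 80 * s * Q := by positivity
    omega
  have hQr : (4 : ℝ) ≤ (Q : ℝ) := by exact_mod_cast hQ4
  have hQpos : (0 : ℝ) < (Q : ℝ) := by linarith
  set δ : ℝ := 1 / (40 * (Q : ℝ)) with hδ
  have hδpos : 0 < δ := by positivity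
  have hδ1 : δ ≤ 1 := by
    rw [hδ, div_le_one (by positivity)]
    linarith
  obtain ⟨G1, c, hG1, hcadj, hclass, hloss⟩ := deco G (z ^ (Q + 1)) (by positivity) δ hδpos hδ1
    (by
      intro G' hG' j hj1 hj2
      exact hcut G' X (mono_G hC hG') (fun v => (ST4_dg_mono hG' v).trans (hdeg v)) j hj1 hj2)
  have hC1 : InC K lam G1 X := mono_G hC hG1
  -- vertices of large degree
  set Bs : Finset V := univ.filter (fun v => z ^ (Q - 1) < dg G1 v) with hBs
  set N : V → ℕ := fun u => (Bs.filter (fun v => G1.Adj u v)).card with hN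
  set R : Finset V := univ.filter (fun u => s ≤ N u) with hR
  -- the graph without the large vertices
  obtain ⟨G3, hG3a⟩ : ∃ G3 : SimpleGraph V, ∀ u v, G3.Adj u v ↔
      (G1.Adj u v ∧ u ∉ Bs ∧ v ∉ Bs) := by
    refine ⟨{ Adj := fun u v => G1.Adj u v ∧ u ∉ Bs ∧ v ∉ Bs, symm := ?_, loopless := ?_ },
      fun u v => Iff.rfl⟩
    · constructor
      intro u v h
      exact ⟨h.1.symm, h.2.2, h.2.1⟩
    · constructor
      intro u h
      exact G1.loopless.irrefl u h.1
  have hG3 : G3 ≤ G1 := by
    intro u v h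
    exact ((hG3a u v).mp h).1
  have hins3 : Inside G3 S := by
    intro u v h
    exact hins u v (hG1 (hG3 h))
  have hdeg3 : ∀ v, dg G3 v ≤ z ^ (Q - 1) := by
    intro v
    by_cases hv : v ∈ Bs
    · have : dg G3 v = 0 := by
        unfold dg
        rw [card_eq_zero, filter_eq_empty_iff]
        intro w _ h
        exact ((hG3a v w).mp h).2.1 hv
      rw [this]
      exact Nat.zero_le _
    · have h1 := ST4_dg_mono hG3 v
      rw [hBs, mem_filter] at hv
      push Not at hv
      exact h1.trans (hv (mem_univ v))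
  have hB3 : (darts G3 : ℝ) ≤ B * (S.card : ℝ) := hB G3 X S (mono_G hC1 hG3) hdeg3 hins3
  -- darts G1 ≤ darts G3 + 2 ∑ N
  have hsplit : darts G1 ≤ darts G3 + 2 * ∑ u, N u := by
    have e1 : darts G1 = ∑ u, ∑ v, if G1.Adj u v then 1 else 0 := by
      unfold darts
      exact sum_congr rfl (fun u _ => ST4_dg_sum G1 u)
    have e3 : darts G3 = ∑ u, ∑ v, if G3.Adj u v then 1 else 0 := by
      unfold darts
      exact sum_congr rfl (fun u _ => ST4_dg_sum G3 u)
    have eN : ∑ u, N u = ∑ u, ∑ v, if (v ∈ Bs ∧ G1.Adj u v) then 1 else 0 := by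
      apply sum_congr rfl
      intro u _
      rw [← card_filter, hN]
      apply congrArg Finset.card
      ext v
      simp only [mem_filter, mem_univ, true_and]
    have eN' : ∑ u, N u = ∑ u, ∑ v, if (u ∈ Bs ∧ G1.Adj u v) then 1 else 0 := by
      rw [eN, sum_comm]
      apply sum_congr rfl
      intro u _
      apply sum_congr rfl
      intro v _
      simp only [G1.adj_comm]
    calc darts G1 = ∑ u, ∑ v, (if G1.Adj u v then 1 else 0) := e1
      _ ≤ ∑ u, ∑ v, ((if G3.Adj u v then 1 else 0) + (if (v ∈ Bs ∧ G1.Adj u v) then 1 else 0)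
            + (if (u ∈ Bs ∧ G1.Adj u v) then 1 else 0)) := by
          apply sum_le_sum
          intro u _
          apply sum_le_sum
          intro v _
          rw [if_congr (hG3a u v) rfl rfl]
          by_cases h1 : G1.Adj u v <;> by_cases h2 : u ∈ Bs <;> by_cases h3 : v ∈ Bs <;>
            simp [h1, h2, h3]
      _ = darts G3 + ∑ u, N u + ∑ u, N u := by
          rw [e3]
          nth_rw 1 [eN]
          rw [eN']
          simp only [sum_add_distrib]
      _ = darts G3 + 2 * ∑ u, N u := by ring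
  -- split N
  have hNsplit : ∑ u, N u ≤ s * S.card + ∑ u ∈ R, N u := by
    rw [← sum_filter_add_sum_filter_not univ (fun u => s ≤ N u)]
    rw [add_comm]
    apply Nat.add_le_add_right
    calc ∑ u ∈ univ.filter (fun u => ¬ s ≤ N u), N u
        ≤ ∑ u ∈ univ.filter (fun u => ¬ s ≤ N u), (if u ∈ S then s else 0) := by
          apply sum_le_sum
          intro u hu
          simp only [mem_filter, mem_univ, true_and] at hu
          by_cases hS : u ∈ S
          · rw [if_pos hS]
            omega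
          · rw [if_neg hS]
            rw [Nat.le_zero, hN]
            simp only
            rw [card_eq_zero, filter_eq_empty_iff]
            intro w _ h
            exact hS (hins u w (hG1 h))
      _ ≤ ∑ u, (if u ∈ S then s else 0) := sum_le_sum_of_subset (filter_subset _ _)
      _ = s * S.card := by
          rw [← sum_filter]
          simp [mul_comm]
  -- the rich vertices
  have hRi : ∀ i, (R.filter (fun u => c u = i)).card ≤ s * z ^ (2 * s) := by
    intro i
    have hZ := ST4_class (by omega : 1 ≤ Q) hclass i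
    have hf := few_rich hK hs.ge hC1
      (univ.filter (fun v => z ^ (Q - 1) < dg G1 v ∧ c v = i)) (R.filter (fun u => c u = i))
      (by
        intro w hw
        rw [mem_filter, hR, mem_filter] at hw
        refine hw.1.2.trans ?_
        rw [hN]
        simp only
        apply card_le_card
        intro v hv
        rw [mem_filter, hBs, mem_filter] at hv
        simp only [mem_filter, mem_univ, true_and]
        refine ⟨⟨hv.1.2, ?_⟩, hv.2⟩
        rw [← hcadj w v hv.2]
        exact hw.2)
    calc _ ≤ _ := hf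
      _ ≤ s * (z ^ 2) ^ s := Nat.mul_le_mul_left _ (Nat.pow_le_pow_left hZ s)
      _ = s * z ^ (2 * s) := by rw [← pow_mul]
  have hT : ∑ u ∈ R, N u ≤ ∑ v ∈ Bs, s * z ^ (2 * s) := by
    calc ∑ u ∈ R, N u = ∑ u ∈ R, ∑ v ∈ Bs, (if G1.Adj u v then 1 else 0) := by
          apply sum_congr rfl
          intro u _
          rw [hN]
          simp only
          rw [card_filter]
      _ = ∑ v ∈ Bs, ∑ u ∈ R, (if G1.Adj u v then 1 else 0) := sum_comm
      _ ≤ ∑ v ∈ Bs, s * z ^ (2 * s) := by
          apply sum_le_sum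
          intro v _
          rw [← card_filter]
          refine le_trans ?_ (hRi (c v))
          apply card_le_card
          intro u hu
          rw [mem_filter] at hu ⊢
          exact ⟨hu.1, hcadj u v hu.2⟩
  have hT2 : z ^ 3 * ∑ u ∈ R, N u ≤ s * darts G1 := by
    calc z ^ 3 * ∑ u ∈ R, N u ≤ z ^ 3 * ∑ v ∈ Bs, s * z ^ (2 * s) :=
          Nat.mul_le_mul_left _ hT
      _ = ∑ v ∈ Bs, s * z ^ (Q - 1) := by
          rw [mul_sum]
          apply sum_congr rfl
          intro v _
          have : Q - 1 = 2 * s + 3 := by omega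
          rw [this, pow_add]
          ring
      _ ≤ ∑ v ∈ Bs, s * dg G1 v := by
          apply sum_le_sum
          intro v hv
          rw [hBs, mem_filter] at hv
          exact Nat.mul_le_mul_left _ hv.2.le
      _ = s * ∑ v ∈ Bs, dg G1 v := by rw [mul_sum]
      _ ≤ s * darts G1 := by
          apply Nat.mul_le_mul_left
          unfold darts
          exact sum_le_sum_of_subset (subset_univ _)
  have hT3 : 80 * Q * ∑ u ∈ R, N u ≤ darts G1 := by
    have h1 : (80 * s * Q) * ∑ u ∈ R, N u ≤ s * darts G1 := by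
      refine le_trans (Nat.mul_le_mul_right _ ?_) hT2
      refine hz.trans ?_
      calc z = z ^ 1 := (pow_one z).symm
        _ ≤ z ^ 3 := Nat.pow_le_pow_right hzpos (by norm_num)
    have h2 : s * (80 * Q * ∑ u ∈ R, N u) ≤ s * darts G1 := by
      calc _ = (80 * s * Q) * ∑ u ∈ R, N u := by ring
        _ ≤ _ := h1
    exact le_of_mul_le_mul_left h2 (by omega)
  have hG1le : (darts G1 : ℝ) ≤ darts G := by
    have : darts G1 ≤ darts G := by
      unfold darts
      exact sum_le_sum (fun v _ => ST4_dg_mono hG1 v)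
    exact_mod_cast this
  -- assembly
  set T : ℕ := ∑ u ∈ R, N u with hTdef
  have hT3r : 80 * (Q : ℝ) * (T : ℝ) ≤ (darts G1 : ℝ) := by exact_mod_cast hT3
  have hsplitr : (darts G1 : ℝ) ≤ darts G3 + 2 * ((s : ℝ) * S.card + T) := by
    have : darts G1 ≤ darts G3 + 2 * (s * S.card + T) := by omega
    exact_mod_cast this
  have h2T : 2 * (T : ℝ) ≤ δ * darts G := by
    have h1 : 2 * (T : ℝ) ≤ (darts G1 : ℝ) / (40 * (Q : ℝ)) := by
      rw [le_div_iff₀ (by positivity)]
      linarith
    have h2 : (darts G1 : ℝ) / (40 * (Q : ℝ)) ≤ δ * darts G := by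
      rw [hδ, div_eq_inv_mul, one_div]
      exact mul_le_mul_of_nonneg_left hG1le (by positivity)
    linarith
  have hmain : (1 - 5 * δ) * darts G ≤ (2 * (s : ℝ) + B) * S.card := by
    nlinarith
  have h5 : 5 * δ = 1 / (8 * (Q : ℝ)) := by
    rw [hδ]
    field_simp
    norm_num
  rw [h5] at hmain
  have hpos : 0 < 1 - 1 / (8 * (Q : ℝ)) := by
    have : 1 / (8 * (Q : ℝ)) < 1 := by
      rw [div_lt_one (by positivity)]
      linarith
    linarith
  rw [div_mul_eq_mul_div, le_div_iff₀ hpos]
  linarith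

end NGR
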