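import Pool.Agent.NGR.Cutl
import Pool.Agent.NGR.Par
import Pool.Agent.NGR.St4

open Finset
open scoped Classical

noncomputable section

namespace NGR

variable {V : Type} [Fintype V]

private theorem st4i_triv {K lam Δ : ℕ} (B : ℝ) (hB : (Δ : ℝ) ≤ B) :
    DensD V K lam Δ B := by
  intro G X S hG hd hS
  have h1 : darts G ≤ Δ * S.card := by
    unfold darts
    have h2 : ∑ v, dg G v = ∑ v ∈ S, dg G v := by
      symm
      apply Finset.sum_subset (subset_univ _)
      intro v _ hv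
      unfold dg
      rw [card_eq_zero, filter_eq_empty_iff]
      intro w _ hw
      exact hv (hS v w hw)
    rw [h2]
    calc ∑ v ∈ S, dg G v ≤ ∑ v ∈ S, Δ := Finset.sum_le_sum (fun v _ => hd v)
      _ = Δ * S.card := by rw [sum_const, smul_eq_mul, mul_comm]
  calc (darts G : ℝ) ≤ (Δ : ℝ) * (S.card : ℝ) := by exact_mod_cast h1
    _ ≤ B * (S.card : ℝ) := by gcongr

private theorem st4i_mono {K lam Δ Δ' : ℕ} {B B' : ℝ} (hΔ : Δ' ≤ Δ) (hB : B ≤ B')
    (h : DensD V K lam Δ B) : DensD V K lam Δ' B' := by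
  intro G X S hG hd hS
  calc (darts G : ℝ) ≤ B * (S.card : ℝ) := h G X S hG (fun v => (hd v).trans hΔ) hS
    _ ≤ B' * (S.card : ℝ) := by gcongr

/-- arithmetic of the induction step -/
private theorem st4i_arith (A s Q L b : ℝ) (hA : 0 < A) (hQ : 1 ≤ Q) (hs : 2 * s ≤ A)
    (hL : 4 * Q ≤ L) (hb : b ≤ (1 - 1 / Q) * L + 1) :
    (2 * s + A * (1 + b)) / (1 - 1 / (8 * Q)) ≤ A * (1 + L) := by
  have hQ0 : 0 < Q := by linarith
  have h8 : 1 / (8 * Q) ≤ 1 / 8 := by
    apply one_div_le_one_div_of_le (by norm_num)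
    linarith
  rw [div_le_iff₀ (by linarith)]
  have h1 : A * (1 + b) ≤ A * (1 + ((1 - 1 / Q) * L + 1)) := by gcongr
  have h2 : 4 ≤ L / Q := by rw [le_div_iff₀ hQ0]; exact hL
  have h3 : A * (1 + L) * (1 - 1 / (8 * Q)) =
      A + A * L - A * (1 / (8 * Q)) - A * (L / Q) / 8 := by
    field_simp
    ring
  have h4 : A * (1 + ((1 - 1 / Q) * L + 1)) = 2 * A + A * L - A * (L / Q) := by
    field_simp
    ring
  rw [h3]
  rw [h4] at h1
  have h5 : A * (1 / (8 * Q)) ≤ A * (1 / 8) := by gcongr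
  have h6 : A * 4 ≤ A * (L / Q) := by gcongr
  linarith

private theorem st4i_core (K : ℕ) (hK : 1 ≤ K) (C0 : ℕ)
    (hC0 : ∀ lam Q z j M : ℕ, 1 ≤ lam → 1 ≤ Q →
    C0 * (lam * Q) ^ C0 ≤ z → 2 ^ j * z ^ (Q + 1) ≤ M → M < 2 ^ (j + 1) * z ^ (Q + 1) →
    ∃ (l : ℕ) (e0 : ℝ), 0 ≤ e0 ∧
      (M : ℝ) ^ 2 * (1 - (1 / (40 * (Q : ℝ) * (j + 1) * (j + 2))) ^ 2 / 4) ^ l ≤ 1 / 4 ∧
      (lam : ℝ) * (((z ^ Q : ℕ) : ℝ) / M) ≤ e0 ^ K ∧
      144 * ((l : ℝ) + 1) ^ 2 * (((z ^ Q : ℕ) : ℝ) / M + e0) < 1)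
    (lam s Q zs : ℕ) (hlam : 1 ≤ lam) (hs : s = sK K lam) (hQ : Q = 2 * s + 4)
    (hzs : zs = C0 * (lam * Q) ^ C0 + 80 * s * Q + 10) :
    ∀ Δ : ℕ, 1 ≤ Δ → DensD V K lam Δ (((zs ^ Q : ℕ) : ℝ) * (1 + Real.log Δ)) := by
  have hs1 : 144 ≤ s := by rw [hs]; unfold sK; omega
  have hQ1 : 1 ≤ Q := by omega
  have hzs0 : 1 ≤ zs := by omega
  have hzsQ : 2 * Q ≤ zs := by
    have : 2 * Q ≤ 80 * s * Q := Nat.mul_le_mul_right _ (by omega)
    omega
  have hzs2 : 2 * s ≤ zs := by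
    have : 2 * s ≤ 80 * s * Q := by nlinarith
    omega
  have hzs100 : 100 ≤ zs := by
    have : 80 * 144 * 1 ≤ 80 * s * Q := by
      apply Nat.mul_le_mul _ hQ1
      omega
    omega
  have hzsP : zs ≤ zs ^ Q := Nat.le_self_pow (by omega) _
  intro Δ
  induction Δ using Nat.strong_induction_on with
  | _ Δ ih =>
    intro hΔ
    have hlogΔ : 0 ≤ Real.log Δ := Real.log_natCast_nonneg Δ
    have hA1 : (1 : ℝ) ≤ ((zs ^ Q : ℕ) : ℝ) := by exact_mod_cast hzs0.trans hzsP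
    by_cases hcase : Δ ≤ zs ^ Q
    · apply st4i_triv
      have h1 : (Δ : ℝ) ≤ ((zs ^ Q : ℕ) : ℝ) := by exact_mod_cast hcase
      nlinarith
    · push Not at hcase
      have hex : ∃ z : ℕ, Δ ≤ z ^ Q := ⟨Δ, Nat.le_self_pow (by omega) _⟩
      obtain ⟨z, hz1, hz2⟩ : ∃ z : ℕ, Δ ≤ z ^ Q ∧ ∀ y < z, y ^ Q < Δ :=
        ⟨Nat.find hex, Nat.find_spec hex, fun y hy => not_le.mp (Nat.find_min hex hy)⟩
      have hzz : zs < z := by
        by_contra hc
        push Not at hc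
        have : z ^ Q ≤ zs ^ Q := Nat.pow_le_pow_left hc _
        omega
      have hz0 : (0 : ℝ) < (z : ℝ) := by
        have : 0 < z := by omega
        exact_mod_cast this
      have hzr : (2 : ℝ) * Q ≤ (z : ℝ) := by
        have : 2 * Q ≤ z := by omega
        exact_mod_cast this
      have hQr : (1 : ℝ) ≤ (Q : ℝ) := by exact_mod_cast hQ1
      -- (z-1)^Q ≥ z^Q / 2
      have hb : ((z : ℝ)) ^ Q / 2 < (Δ : ℝ) := by
        have h1 : (z - 1) ^ Q < Δ := hz2 (z - 1) (by omega)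
        have h2 : ((z : ℝ) - 1) ^ Q < (Δ : ℝ) := by
          have h3 : (((z - 1 : ℕ) : ℝ)) ^ Q < (Δ : ℝ) := by exact_mod_cast h1
          rwa [Nat.cast_sub (by omega), Nat.cast_one] at h3
        refine lt_of_le_of_lt ?_ h2
        have h4 : (1 : ℝ) + (Q : ℝ) * (-(1 / (z : ℝ))) ≤ (1 + (-(1 / (z : ℝ)))) ^ Q := by
          apply one_add_mul_le_pow
          have : 1 / (z : ℝ) ≤ 1 := by
            rw [div_le_one hz0]; linarith
          linarith
        have h5 : (Q : ℝ) * (1 / (z : ℝ)) ≤ 1 / 2 := by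
          rw [mul_one_div, div_le_div_iff₀ hz0 (by norm_num)]
          linarith
        have h6 : ((z : ℝ) - 1) ^ Q = (z : ℝ) ^ Q * (1 + (-(1 / (z : ℝ)))) ^ Q := by
          rw [← mul_pow]
          congr 1
          field_simp
          ring
        rw [h6]
        have h7 : (1 : ℝ) / 2 ≤ (1 + (-(1 / (z : ℝ)))) ^ Q := by linarith
        have h8 : (0 : ℝ) < (z : ℝ) ^ Q := by positivity
        nlinarith
      have hΔr : (0 : ℝ) < (Δ : ℝ) := by exact_mod_cast hΔ
      have hlog1 : (Q : ℝ) * Real.log z ≤ Real.log Δ + 1 := by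
        have h1 : Real.log ((z : ℝ) ^ Q / 2) ≤ Real.log Δ :=
          Real.log_le_log (by positivity) hb.le
        rw [Real.log_div (by positivity) (by norm_num), Real.log_pow] at h1
        have h3 : Real.log 2 ≤ 1 := by
          have := Real.log_le_sub_one_of_pos (show (0 : ℝ) < 2 by norm_num)
          linarith
        linarith
      have hz4 : 4 * (Q : ℝ) ≤ Real.log Δ := by
        have h1 : (zs : ℝ) ^ Q ≤ (Δ : ℝ) := by exact_mod_cast hcase.le
        have h100 : (100 : ℝ) ≤ (zs : ℝ) := by exact_mod_cast hzs100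
        have h2 : Real.log ((zs : ℝ) ^ Q) ≤ Real.log Δ :=
          Real.log_le_log (by positivity) h1
        rw [Real.log_pow] at h2
        have h3 : 4 ≤ Real.log (zs : ℝ) := by
          rw [Real.le_log_iff_exp_le (by linarith)]
          have h5 : Real.exp 4 = Real.exp 1 ^ 4 := by
            rw [← Real.exp_nat_mul]; norm_num
          have h6 := Real.exp_one_lt_d9
          have h7 : Real.exp 1 ^ 4 ≤ 3 ^ 4 := by
            apply pow_le_pow_left₀ (Real.exp_pos 1).le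
            linarith
          rw [h5]
          linarith
        nlinarith
      -- the induction hypothesis
      have hlt : z ^ (Q - 1) < Δ := by
        have h1 : (z : ℝ) ^ (Q - 1) < (Δ : ℝ) := by
          refine lt_of_le_of_lt ?_ hb
          have h2 : (z : ℝ) ^ Q = (z : ℝ) ^ (Q - 1) * z := by
            rw [← pow_succ]; congr 1; omega
          rw [h2]
          have h3 : (0 : ℝ) < (z : ℝ) ^ (Q - 1) := by positivity
          nlinarith
        exact_mod_cast h1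
      have hge1 : 1 ≤ z ^ (Q - 1) := Nat.one_le_pow _ _ (by omega)
      have hIH := ih (z ^ (Q - 1)) hlt hge1
      have hlogz : 0 ≤ Real.log ((z ^ (Q - 1) : ℕ) : ℝ) := Real.log_natCast_nonneg _
      have hstep := st4 (V := V) (K := K) (lam := lam) (s := s) (Q := Q) (z := z) hK hlam hs hQ
        (by omega) (by
          intro G X hG hd j hj1 hj2
          have hM : 0 < darts G := lt_of_lt_of_le (by
            have : 0 < z := by omega
            positivity) hj1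
          obtain ⟨l, e0, he0, hmix, he, hsm⟩ := hC0 lam Q z j (darts G) hlam hQ1 (by omega) hj1 hj2
          have hφ : (1 / (40 * (Q : ℝ))) / (((j : ℝ) + 1) * (j + 2)) =
              1 / (40 * (Q : ℝ) * (j + 1) * (j + 2)) := by
            rw [div_div]
            congr 1
            ring
          rw [hφ]
          have hden : (1 : ℝ) ≤ 40 * (Q : ℝ) * (j + 1) * (j + 2) := by
            have hj0 : (0 : ℝ) ≤ (j : ℝ) := by positivity
            have h1 : (1 : ℝ) ≤ (Q : ℝ) * ((j : ℝ) + 1) := by nlinarith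
            have h2 : (2 : ℝ) ≤ (Q : ℝ) * ((j : ℝ) + 1) * ((j : ℝ) + 2) := by nlinarith
            linarith
          exact cut_lemma hK hG (z ^ Q) hd hM _ e0 l (by positivity)
            (by rw [div_le_one (by linarith)]; exact hden) hmix he0 he hsm)
        (((zs ^ Q : ℕ) : ℝ) * (1 + Real.log ((z ^ (Q - 1) : ℕ) : ℝ))) (by positivity) hIH
      refine st4i_mono hz1 ?_ hstep
      apply st4i_arith
      · linarith
      · exact hQr
      · have : 2 * s ≤ zs ^ Q := by omega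
        exact_mod_cast this
      · exact hz4
      · push_cast
        rw [Real.log_pow, Nat.cast_sub hQ1, Nat.cast_one]
        have hQ0 : (0 : ℝ) < (Q : ℝ) := by linarith
        have h1 : Real.log z ≤ (Real.log Δ + 1) / Q := by
          rw [le_div_iff₀ hQ0]; linarith
        have h2 : ((Q : ℝ) - 1) * Real.log z ≤ ((Q : ℝ) - 1) * ((Real.log Δ + 1) / Q) := by
          apply mul_le_mul_of_nonneg_left h1
          linarith
        have h3 : ((Q : ℝ) - 1) * ((Real.log Δ + 1) / Q) =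
            (1 - 1 / (Q : ℝ)) * Real.log Δ + (1 - 1 / (Q : ℝ)) := by
          field_simp
        have h4 : 0 ≤ 1 / (Q : ℝ) := by positivity
        linarith

/-- ST4I: logarithmic bound for bounded degree. -/
theorem st4i (K : ℕ) (hK : 1 ≤ K) : ∃ C : ℕ, ∀ lam : ℕ, 1 ≤ lam → ∀ (V : Type) [Fintype V],
    ∀ Δ : ℕ, 1 ≤ Δ → DensD V K lam Δ
      (Real.exp ((C : ℝ) * (lam : ℝ) ^ C) * (1 + Real.log Δ)) := by
  obtain ⟨C0, hC0⟩ := par K hK
  set c1 : ℕ := 144 + 72 ^ K with hc1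
  set c2 : ℕ := 2 * c1 + 4 with hc2
  set c3 : ℕ := c2 * (C0 * c2 ^ C0 + 80 * c1 * c2 + 10) with hc3
  refine ⟨c3 + (2 * C0 + 3), ?_⟩
  intro lam hlam V _ Δ hΔ
  set s : ℕ := sK K lam with hs
  set Q : ℕ := 2 * s + 4 with hQ
  set zs : ℕ := C0 * (lam * Q) ^ C0 + 80 * s * Q + 10 with hzs
  have h := st4i_core (V := V) K hK C0 hC0 lam s Q zs hlam hs hQ hzs Δ hΔ
  have hs1 : s ≤ c1 * lam := by
    rw [hs, hc1]
    unfold sK
    nlinarith
  have hQ1 : Q ≤ c2 * lam := by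
    rw [hQ, hc2]
    nlinarith
  have hzs1 : zs ≤ (C0 * c2 ^ C0 + 80 * c1 * c2 + 10) * lam ^ (2 * C0 + 2) := by
    have h1 : C0 * (lam * Q) ^ C0 ≤ C0 * c2 ^ C0 * lam ^ (2 * C0 + 2) := by
      calc C0 * (lam * Q) ^ C0 ≤ C0 * (lam * (c2 * lam)) ^ C0 := by gcongr
        _ = C0 * c2 ^ C0 * lam ^ (2 * C0) := by
            rw [show lam * (c2 * lam) = c2 * lam ^ 2 by ring, mul_pow, ← pow_mul]
            ring
        _ ≤ C0 * c2 ^ C0 * lam ^ (2 * C0 + 2) := by
            gcongr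
            omega
    have h2 : 80 * s * Q ≤ 80 * c1 * c2 * lam ^ (2 * C0 + 2) := by
      calc 80 * s * Q ≤ 80 * (c1 * lam) * (c2 * lam) := by gcongr
        _ = 80 * c1 * c2 * lam ^ 2 := by ring
        _ ≤ 80 * c1 * c2 * lam ^ (2 * C0 + 2) := by
            gcongr
            omega
    have h3 : 10 ≤ 10 * lam ^ (2 * C0 + 2) := by
      have := Nat.one_le_pow (2 * C0 + 2) lam hlam
      omega
    calc zs ≤ C0 * c2 ^ C0 * lam ^ (2 * C0 + 2) + 80 * c1 * c2 * lam ^ (2 * C0 + 2) +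
          10 * lam ^ (2 * C0 + 2) := by rw [hzs]; gcongr
      _ = _ := by ring
  have hQz : Q * zs ≤ (c3 + (2 * C0 + 3)) * lam ^ (c3 + (2 * C0 + 3)) := by
    calc Q * zs ≤ (c2 * lam) * ((C0 * c2 ^ C0 + 80 * c1 * c2 + 10) * lam ^ (2 * C0 + 2)) := by
          gcongr
      _ = c3 * lam ^ (2 * C0 + 3) := by rw [hc3]; ring
      _ ≤ (c3 + (2 * C0 + 3)) * lam ^ (c3 + (2 * C0 + 3)) := by
          exact Nat.mul_le_mul (Nat.le_add_right _ _)
            (Nat.pow_le_pow_right hlam (Nat.le_add_left _ _))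
  refine st4i_mono le_rfl ?_ h
  have hlogΔ : 0 ≤ Real.log Δ := Real.log_natCast_nonneg Δ
  gcongr
  have h1 : (zs : ℝ) ≤ Real.exp zs := by
    have := Real.add_one_le_exp (zs : ℝ)
    linarith
  calc ((zs ^ Q : ℕ) : ℝ) = (zs : ℝ) ^ Q := by push_cast; rfl
    _ ≤ (Real.exp zs) ^ Q := by gcongr
    _ = Real.exp ((Q : ℝ) * zs) := by rw [← Real.exp_nat_mul]
    _ ≤ _ := by
        apply Real.exp_le_exp.mpr
        exact_mod_cast hQz

end NGR
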