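import Pool.Agent.NGR.St5s

open Finset
open scoped Classical

noncomputable section

namespace NGR

variable {V : Type} [Fintype V]

/-- the graph formed by a set of pairs -/
def pG (P : Finset (V × V)) : SimpleGraph V where
  Adj u v := u ≠ v ∧ ((u, v) ∈ P ∨ (v, u) ∈ P)
  symm := ⟨fun _ _ h => ⟨h.1.symm, h.2.symm⟩⟩
  loopless := ⟨fun _ h => h.1 rfl⟩

omit [Fintype V] in
theorem pG_le {G : SimpleGraph V} (P : Finset (V × V)) (hP : ∀ q ∈ P, G.Adj q.1 q.2) :
    pG P ≤ G := by
  intro u v h
  rcases h.2 with h' | h'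
  · exact hP _ h'
  · exact (hP _ h').symm

theorem dg_le_of_le {G G' : SimpleGraph V} (hle : G' ≤ G) (v : V) : dg G' v ≤ dg G v := by
  apply card_le_card
  intro w hw
  simp only [mem_filter, mem_univ, true_and] at hw ⊢
  exact hle hw

theorem darts_eq_card (G : SimpleGraph V) :
    darts G = (univ.filter (fun q : V × V => G.Adj q.1 q.2)).card := by
  unfold darts dg
  simp only [card_filter]
  rw [← univ_product_univ, sum_product]

theorem pG_darts {G : SimpleGraph V} (P : Finset (V × V))
    (hP : ∀ q ∈ P, key G q.1 < key G q.2) : 2 * P.card ≤ darts (pG P) := by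
  rw [darts_eq_card]
  have hsw : (P.image Prod.swap).card = P.card :=
    card_image_of_injective _ Prod.swap_injective
  have hdis : Disjoint P (P.image Prod.swap) := by
    rw [disjoint_left]
    intro q hq hq'
    rw [mem_image] at hq'
    obtain ⟨r, hr, rfl⟩ := hq'
    have h1 := hP _ hq
    have h2 := hP _ hr
    simp only [Prod.fst_swap, Prod.snd_swap] at h1
    omega
  have h2 : 2 * P.card = (P ∪ P.image Prod.swap).card := by
    rw [card_union_of_disjoint hdis, hsw]
    omega
  rw [h2]
  apply card_le_card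
  intro q hq
  rw [mem_union] at hq
  simp only [mem_filter, mem_univ, true_and]
  have hne : ∀ q : V × V, key G q.1 < key G q.2 → q.1 ≠ q.2 := by
    intro q h e
    rw [e] at h
    exact lt_irrefl _ h
  rcases hq with hq | hq
  · exact ⟨hne q (hP q hq), Or.inl hq⟩
  · rw [mem_image] at hq
    obtain ⟨r, hr, rfl⟩ := hq
    exact ⟨(hne r (hP r hr)).symm, Or.inr hr⟩

omit [Fintype V] in
theorem pG_inside (P : Finset (V × V)) (S : Finset V) (hS : ∀ q ∈ P, q.1 ∈ S ∧ q.2 ∈ S) :
    Inside (pG P) S := by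
  intro u v h
  rcases h.2 with h' | h'
  · exact (hS _ h').1
  · exact (hS _ h').2

/-- density bound for sets of pairs -/
theorem pairs_dens {K lam lam' : ℕ} (hle : lam ≤ lam') {D : ℝ} (hD : Dens V K lam' D)
    {G : SimpleGraph V} {X : V → V → V → V → Prop} (h : InC K lam G X)
    (P : Finset (V × V)) (hP : ∀ q ∈ P, G.Adj q.1 q.2 ∧ key G q.1 < key G q.2)
    (S : Finset V) (hS : ∀ q ∈ P, q.1 ∈ S ∧ q.2 ∈ S) :
    2 * (P.card : ℝ) ≤ D * (S.card : ℝ) := by
  have h1 : InC K lam' (pG P) X :=
    mono_lam (mono_G h (pG_le P (fun q hq => (hP q hq).1))) hle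
  have h2 := hD (pG P) X S h1 (pG_inside P S hS)
  have h3 := pG_darts P (fun q hq => (hP q hq).2)
  have h4 : ((2 * P.card : ℕ) : ℝ) ≤ (darts (pG P) : ℝ) := by exact_mod_cast h3
  push_cast at h4
  linarith

theorem card_big {G : SimpleGraph V} (x : ℕ) (U : Finset V) (hU : ∀ u ∈ U, x ≤ dg G u) :
    x * U.card ≤ darts G := by
  calc x * U.card = ∑ _u ∈ U, x := by rw [sum_const, smul_eq_mul, mul_comm]
    _ ≤ ∑ u ∈ U, dg G u := sum_le_sum hU
    _ ≤ ∑ u, dg G u := sum_le_univ_sum_of_nonneg (fun _ => Nat.zero_le _)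
    _ = darts G := rfl

theorem exists_rank {A : Type} (T : Finset A) :
    ∃ f : A → ℕ, (∀ a ∈ T, f a < T.card) ∧ ∀ a ∈ T, ∀ b ∈ T, f a = f b → a = b := by
  refine ⟨fun a => if h : a ∈ T then ((T.equivFin ⟨a, h⟩ : Fin T.card) : ℕ) else 0, ?_, ?_⟩
  · intro a ha
    simp only [ha, dif_pos]
    exact (T.equivFin ⟨a, ha⟩).2
  · intro a ha b hb hab
    simp only [ha, hb, dif_pos] at hab
    have := T.equivFin.injective (Fin.ext hab)
    exact congrArg Subtype.val this

/-- ST5C: the bound for one degree class. -/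
theorem st5_class {K lam s x y : ℕ} (hK : 1 ≤ K) (hlam : 1 ≤ lam) (hs : s = sK K lam)
    (D : ℝ) (hD1 : 1 ≤ D) (hD : Dens V K (4 ^ K * lam) D) {G : SimpleGraph V}
    {X : V → V → V → V → Prop} (h : InC K lam G X) (hy : 1 ≤ y) (hDy : D ≤ y)
    (hx : x = y ^ (4 * s)) :
    ((cls G s x).card : ℝ) ≤
      ((2 : ℝ) ^ (4 * s) * D + 2 * s) * (darts G : ℝ) / (y : ℝ) := by
  have hle : lam ≤ 4 ^ K * lam := Nat.le_mul_of_pos_left lam (pow_pos (by norm_num) K)
  have hs1 : 1 ≤ s := by
    rw [hs]; unfold sK; omega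
  have hxy : y ≤ x := by
    rw [hx]
    exact Nat.le_self_pow (by omega) y
  have hx1 : 1 ≤ x := le_trans hy hxy
  have hyR : (1 : ℝ) ≤ (y : ℝ) := by exact_mod_cast hy
  have hxR : (1 : ℝ) ≤ (x : ℝ) := by exact_mod_cast hx1
  have hxyR : (y : ℝ) ≤ (x : ℝ) := by exact_mod_cast hxy
  have hM0 : (0 : ℝ) ≤ (darts G : ℝ) := Nat.cast_nonneg _
  set C := cls G s x with hC
  have hCP : ∀ q ∈ C, G.Adj q.1 q.2 ∧ key G q.1 < key G q.2 ∧ x ≤ dg G q.2 ∧
      dg G q.2 < 2 ^ (4 * s) * x ∧ s ≤ (upn G q.1 q.2).card := by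
    intro q hq
    rw [hC] at hq
    unfold cls at hq
    simpa only [mem_filter, mem_univ, true_and] using hq
  set Vx : Finset V := univ.filter (fun v => x ≤ dg G v) with hVx
  have hVxc : (x : ℝ) * (Vx.card : ℝ) ≤ (darts G : ℝ) := by
    have := card_big (G := G) x Vx (by intro u hu; simpa [hVx] using hu)
    exact_mod_cast this
  have hVxd : (Vx.card : ℝ) ≤ (darts G : ℝ) / (x : ℝ) := by
    rw [le_div_iff₀ (by linarith)]
    linarith
  -- the sets of second coordinates
  set T : V → Finset V := fun w => univ.filter (fun u => (w, u) ∈ C) with hT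
  have hTm : ∀ w u, u ∈ T w ↔ (w, u) ∈ C := by
    intro w u
    simp [hT]
  set Ca := C.filter (fun q => x ≤ dg G q.1) with hCa
  set Cb := C.filter (fun q => dg G q.1 < x ∧ y ≤ (T q.1).card) with hCb
  set Cc := C.filter (fun q => dg G q.1 < x ∧ (T q.1).card < y) with hCc
  have hcard : (C.card : ℝ) ≤ (Ca.card : ℝ) + (Cb.card : ℝ) + (Cc.card : ℝ) := by
    have h1 : C ⊆ Ca ∪ Cb ∪ Cc := by
      intro q hq
      simp only [hCa, hCb, hCc, mem_union, mem_filter]
      by_cases h1 : x ≤ dg G q.1
      · exact Or.inl (Or.inl ⟨hq, h1⟩)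
      · by_cases h2 : y ≤ (T q.1).card
        · exact Or.inl (Or.inr ⟨hq, by omega, h2⟩)
        · exact Or.inr ⟨hq, by omega, by omega⟩
    have h2 : C.card ≤ Ca.card + Cb.card + Cc.card :=
      le_trans (card_le_card h1) (le_trans (card_union_le _ _)
        (Nat.add_le_add_right (card_union_le _ _) _))
    exact_mod_cast h2
  -- part (a)
  have ha : 2 * (Ca.card : ℝ) ≤ D * ((darts G : ℝ) / (x : ℝ)) := by
    have h1 := pairs_dens hle hD h Ca
      (by
        intro q hq
        rw [hCa, mem_filter] at hq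
        exact ⟨(hCP q hq.1).1, (hCP q hq.1).2.1⟩) Vx
      (by
        intro q hq
        rw [hCa, mem_filter] at hq
        refine ⟨?_, ?_⟩
        · simp only [hVx, mem_filter, mem_univ, true_and]
          exact hq.2
        · simp only [hVx, mem_filter, mem_univ, true_and]
          exact (hCP q hq.1).2.2.1)
    exact le_trans h1 (mul_le_mul_of_nonneg_left hVxd (by linarith))
  -- part (b)
  have hb : (Cb.card : ℝ) ≤ D * ((darts G : ℝ) / (x : ℝ)) := by
    set Wh : Finset V := univ.filter (fun w => dg G w < x ∧ y ≤ (T w).card) with hWh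
    have h1 := pairs_dens hle hD h Cb
      (by
        intro q hq
        rw [hCb, mem_filter] at hq
        exact ⟨(hCP q hq.1).1, (hCP q hq.1).2.1⟩) (Wh ∪ Vx)
      (by
        intro q hq
        rw [hCb, mem_filter] at hq
        refine ⟨?_, ?_⟩
        · rw [mem_union]
          left
          simp only [hWh, mem_filter, mem_univ, true_and]
          exact hq.2
        · rw [mem_union]
          right
          simp only [hVx, mem_filter, mem_univ, true_and]
          exact (hCP q hq.1).2.2.1)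
    have h2 : (((Wh ∪ Vx).card : ℕ) : ℝ) ≤ (Wh.card : ℝ) + (Vx.card : ℝ) := by
      exact_mod_cast card_union_le Wh Vx
    have h3 : y * Wh.card ≤ Cb.card := by
      have e1 : Cb.card = ∑ w ∈ Wh, (T w).card := by
        rw [card_eq_sum_card_fiberwise (f := Prod.fst) (t := Wh)]
        · apply sum_congr rfl
          intro w hw
          refine card_bij' (fun q _ => q.2) (fun u _ => (w, u)) ?_ ?_ ?_ ?_
          · intro q hq
            simp only [hCb, mem_filter] at hq
            rw [hTm, ← hq.2]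
            exact hq.1.1
          · intro u hu
            rw [hTm] at hu
            simp only [hWh, mem_filter, mem_univ, true_and] at hw
            simp only [hCb, mem_filter]
            exact ⟨⟨hu, hw⟩, trivial⟩
          · intro q hq
            simp only [mem_filter] at hq
            rw [← hq.2]
          · intro u hu
            rfl
        · intro q hq
          have hq' : q ∈ Cb := hq
          rw [hCb, mem_filter] at hq'
          rw [mem_coe, hWh, mem_filter]
          exact ⟨mem_univ _, hq'.2⟩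
      rw [e1]
      calc y * Wh.card = ∑ _w ∈ Wh, y := by rw [sum_const, smul_eq_mul, mul_comm]
        _ ≤ ∑ w ∈ Wh, (T w).card := by
          apply sum_le_sum
          intro w hw
          simp only [hWh, mem_filter, mem_univ, true_and] at hw
          exact hw.2
    have h3R : (y : ℝ) * (Wh.card : ℝ) ≤ (Cb.card : ℝ) := by exact_mod_cast h3
    have h4 : D * (Wh.card : ℝ) ≤ (Cb.card : ℝ) :=
      le_trans (mul_le_mul_of_nonneg_right hDy (Nat.cast_nonneg _)) h3R
    have h5 : D * (Vx.card : ℝ) ≤ D * ((darts G : ℝ) / (x : ℝ)) :=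
      mul_le_mul_of_nonneg_left hVxd (by linarith)
    have h6 : D * (((Wh ∪ Vx).card : ℕ) : ℝ) ≤ D * ((Wh.card : ℝ) + (Vx.card : ℝ)) :=
      mul_le_mul_of_nonneg_left h2 (by linarith)
    nlinarith
  -- part (c)
  have hc : (Cc.card : ℝ) ≤ ((2 : ℝ) ^ (4 * s - 1) * D + 2 * s) * (darts G : ℝ) / (y : ℝ) := by
    choose f hf1 hf2 using fun w => exists_rank (T w)
    set L : ℕ → V → Finset V := fun j u => univ.filter (fun w => (w, u) ∈ Cc ∧ f w u = j)
      with hL
    have hCcT : ∀ w u, (w, u) ∈ Cc → u ∈ T w := by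
      intro w u hq
      rw [hTm]
      rw [hCc, mem_filter] at hq
      exact hq.1
    have hstar : ∀ j, (∑ u, ((L j u).card : ℝ)) ≤
        ((2 : ℝ) ^ (4 * s - 1) * D + 2 * s) * (darts G : ℝ) / (y : ℝ) ^ 2 := by
      intro j
      apply st5_star hK hlam hs D hD1 hD h hy hx (L j)
      · intro u u' huu
        rw [disjoint_left]
        intro w hw hw'
        simp only [hL, mem_filter, mem_univ, true_and] at hw hw'
        exact huu (hf2 w u (hCcT _ _ hw.1) u' (hCcT _ _ hw'.1) (hw.2.trans hw'.2.symm))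
      · intro u w hw
        simp only [hL, hCc, mem_filter, mem_univ, true_and] at hw
        have h1 := hCP _ hw.1.1
        exact ⟨h1.2.2.1, h1.2.2.2.1, hw.1.2.1, h1.1, h1.2.2.2.2⟩
    have hsum : (Cc.card : ℝ) = ∑ j ∈ range y, ∑ u, ((L j u).card : ℝ) := by
      have e1 : Cc.card = ∑ j ∈ range y, ∑ u, (L j u).card := by
        rw [card_eq_sum_card_fiberwise (f := fun q : V × V => (f q.1 q.2, q.2))
          (t := range y ×ˢ univ)]
        · rw [sum_product]
          apply sum_congr rfl
          intro j _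
          apply sum_congr rfl
          intro u _
          refine card_bij' (fun q _ => q.1) (fun w _ => (w, u)) ?_ ?_ ?_ ?_
          · intro q hq
            simp only [mem_filter, Prod.mk.injEq] at hq
            simp only [hL, mem_filter, mem_univ, true_and]
            obtain ⟨hq1, hq2, hq3⟩ := hq
            subst hq3
            exact ⟨hq1, hq2⟩
          · intro w hw
            simp only [hL, mem_filter, mem_univ, true_and] at hw
            simp only [mem_filter]
            exact ⟨hw.1, by rw [hw.2]⟩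
          · intro q hq
            simp only [mem_filter, Prod.mk.injEq] at hq
            obtain ⟨hq1, hq2, hq3⟩ := hq
            subst hq3
            rfl
          · intro w hw
            rfl
        · intro q hq
          have hq' : q ∈ Cc := hq
          have hq2 : q.2 ∈ T q.1 := hCcT q.1 q.2 hq'
          have hq3 := hf1 q.1 q.2 hq2
          rw [hCc, mem_filter] at hq'
          simp only [coe_product, coe_range, coe_univ, Set.mem_prod, Set.mem_Iio, Set.mem_univ,
            and_true]
          omega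
      rw [e1]
      push_cast
      rfl
    rw [hsum]
    calc ∑ j ∈ range y, ∑ u, ((L j u).card : ℝ)
        ≤ ∑ _j ∈ range y, ((2 : ℝ) ^ (4 * s - 1) * D + 2 * s) * (darts G : ℝ) / (y : ℝ) ^ 2 :=
          sum_le_sum (fun j _ => hstar j)
      _ = (y : ℝ) * (((2 : ℝ) ^ (4 * s - 1) * D + 2 * s) * (darts G : ℝ) / (y : ℝ) ^ 2) := by
          rw [sum_const, card_range, nsmul_eq_mul]
      _ = ((2 : ℝ) ^ (4 * s - 1) * D + 2 * s) * (darts G : ℝ) / (y : ℝ) := by
          have : (y : ℝ) ≠ 0 := by linarith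
          field_simp
  -- conclusion
  have hMx : (darts G : ℝ) / (x : ℝ) ≤ (darts G : ℝ) / (y : ℝ) :=
    div_le_div_of_nonneg_left hM0 (by linarith) hxyR
  have hpow : (2 : ℝ) ^ (4 * s) = 2 * (2 : ℝ) ^ (4 * s - 1) := by
    rw [← pow_succ']
    congr 1
    omega
  have hpow1 : (2 : ℝ) ≤ (2 : ℝ) ^ (4 * s - 1) := by
    calc (2 : ℝ) = (2 : ℝ) ^ 1 := by norm_num
      _ ≤ (2 : ℝ) ^ (4 * s - 1) := pow_le_pow_right₀ (by norm_num) (by omega)
  set m := (darts G : ℝ) / (y : ℝ) with hm
  have hm0 : 0 ≤ m := div_nonneg hM0 (by linarith)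
  have hDm : D * ((darts G : ℝ) / (x : ℝ)) ≤ D * m :=
    mul_le_mul_of_nonneg_left hMx (by linarith)
  have hc' : (Cc.card : ℝ) ≤ ((2 : ℝ) ^ (4 * s - 1) * D + 2 * s) * m := by
    rw [hm, ← mul_div_assoc]
    exact hc
  have hgoal : ((2 : ℝ) ^ (4 * s) * D + 2 * s) * (darts G : ℝ) / (y : ℝ) =
      ((2 : ℝ) ^ (4 * s) * D + 2 * s) * m := by
    rw [hm, ← mul_div_assoc]
  rw [hgoal, hpow]
  have hDm0 : 0 ≤ D * m := mul_nonneg (by linarith) hm0
  nlinarith [mul_le_mul_of_nonneg_right hpow1 hDm0]

end NGR
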