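import Pool.Agent.NGR.Defs

open Finset
open scoped Classical

noncomputable section

namespace NGR

set_option linter.unusedSectionVars false

variable {V : Type} [Fintype V]

/-- the crossing relation on the contracted graph -/
def SUBD_X (H : SimpleGraph V) (X : V → V → V → V → Prop) (w : V → V → V)
    (u v u' v' : V) : Prop :=
  H.Adj u v ∧ H.Adj u' v' ∧ (u ≠ u' ∧ u ≠ v' ∧ v ≠ u' ∧ v ≠ v') ∧
  (X u (w u v) u' (w u' v') ∨ X u (w u v) (w u' v') v' ∨ X (w u v) v u' (w u' v') ∨
    X (w u v) v (w u' v') v')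

private lemma SUBD_cross {X : V → V → V → V → Prop} (hX : IsCross X) (H : SimpleGraph V)
    (w : V → V → V) (hsymm : ∀ u v, H.Adj u v → w u v = w v u) :
    IsCross (SUBD_X H X w) := by
  refine ⟨?_, ?_, ?_⟩
  · rintro u v u' v' ⟨h1, h2, ⟨h3, h4, h5, h6⟩, h7⟩
    refine ⟨h1.symm, h2, ⟨h5, h6, h3, h4⟩, ?_⟩
    rw [← hsymm u v h1]
    rcases h7 with h | h | h | h
    · exact Or.inr (Or.inr (Or.inl (hX.swap _ _ _ _ h)))
    · exact Or.inr (Or.inr (Or.inr (hX.swap _ _ _ _ h)))
    · exact Or.inl (hX.swap _ _ _ _ h)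
    · exact Or.inr (Or.inl (hX.swap _ _ _ _ h))
  · rintro u v u' v' ⟨h1, h2, ⟨h3, h4, h5, h6⟩, h7⟩
    refine ⟨h2, h1, ⟨h3.symm, h5.symm, h4.symm, h6.symm⟩, ?_⟩
    rcases h7 with h | h | h | h
    · exact Or.inl (hX.symm _ _ _ _ h)
    · exact Or.inr (Or.inr (Or.inl (hX.symm _ _ _ _ h)))
    · exact Or.inr (Or.inl (hX.symm _ _ _ _ h))
    · exact Or.inr (Or.inr (Or.inr (hX.symm _ _ _ _ h)))
  · rintro u v u' v' ⟨_, _, h, _⟩
    exact h

/-- the walk in the large graph -/
def SUBD_walk (H : SimpleGraph V) (w : V → V → V) (P : ℕ → V) (t : ℕ) : V :=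
  if t % 2 = 0 then P (t / 2) else
    if H.Adj (P (t / 2)) (P (t / 2 + 1)) then w (P (t / 2)) (P (t / 2 + 1)) else P (t / 2)

private lemma SUBD_even (H : SimpleGraph V) (w : V → V → V) (P : ℕ → V) (s : ℕ) :
    SUBD_walk H w P (2 * s) = P s := by
  unfold SUBD_walk
  have h1 : 2 * s % 2 = 0 := by omega
  have h2 : 2 * s / 2 = s := by omega
  rw [if_pos h1, h2]

private lemma SUBD_odd (H : SimpleGraph V) (w : V → V → V) (P : ℕ → V) (s : ℕ) :
    SUBD_walk H w P (2 * s + 1) =
      if H.Adj (P s) (P (s + 1)) then w (P s) (P (s + 1)) else P s := by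
  unfold SUBD_walk
  have h1 : ¬ ((2 * s + 1) % 2 = 0) := by omega
  have h2 : (2 * s + 1) / 2 = s := by omega
  rw [if_neg h1, h2]

private lemma SUBD_lazy {G H : SimpleGraph V} {w : V → V → V}
    (hsymm : ∀ u v, H.Adj u v → w u v = w v u)
    (hadj : ∀ u v, H.Adj u v → G.Adj u (w u v)) {l : ℕ} {P : ℕ → V} (hP : LazyWalk H l P) :
    LazyWalk G (2 * l) (SUBD_walk H w P) := by
  intro t ht
  rcases Nat.even_or_odd' t with ⟨s, rfl | rfl⟩
  · rw [SUBD_even, SUBD_odd]
    by_cases hs : H.Adj (P s) (P (s + 1))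
    · rw [if_pos hs]; exact Or.inr (hadj _ _ hs)
    · rw [if_neg hs]; exact Or.inl rfl
  · have e : 2 * s + 1 + 1 = 2 * (s + 1) := by ring
    rw [e, SUBD_even, SUBD_odd]
    by_cases hs : H.Adj (P s) (P (s + 1))
    · rw [if_pos hs]
      right
      rw [hsymm _ _ hs]
      exact (hadj _ _ hs.symm).symm
    · rw [if_neg hs]
      rcases hP s (by omega) with h | h
      · exact Or.inl h
      · exact absurd h hs

/-- a step along an edge of the large graph -/
private lemma SUBD_step {G H : SimpleGraph V} {w : V → V → V}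
    {l : ℕ} {P : ℕ → V} (hP : LazyWalk H l P) {t : ℕ} (ht : t < 2 * l)
    (hG : G.Adj (SUBD_walk H w P t) (SUBD_walk H w P (t + 1))) :
    ∃ s, s < l ∧ H.Adj (P s) (P (s + 1)) ∧
      ((SUBD_walk H w P t = P s ∧ SUBD_walk H w P (t + 1) = w (P s) (P (s + 1))) ∨
       (SUBD_walk H w P t = w (P s) (P (s + 1)) ∧ SUBD_walk H w P (t + 1) = P (s + 1))) := by
  rcases Nat.even_or_odd' t with ⟨s, rfl | rfl⟩
  · rw [SUBD_even, SUBD_odd] at hG
    by_cases hs : H.Adj (P s) (P (s + 1))
    · refine ⟨s, by omega, hs, Or.inl ⟨SUBD_even _ _ _ _, ?_⟩⟩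
      rw [SUBD_odd, if_pos hs]
    · rw [if_neg hs] at hG
      exact absurd rfl (G.ne_of_adj hG)
  · have e : 2 * s + 1 + 1 = 2 * (s + 1) := by ring
    rw [e, SUBD_even, SUBD_odd] at hG
    by_cases hs : H.Adj (P s) (P (s + 1))
    · refine ⟨s, by omega, hs, Or.inr ⟨?_, ?_⟩⟩
      · rw [SUBD_odd, if_pos hs]
      · rw [e, SUBD_even]
    · rw [if_neg hs] at hG
      rcases hP s (by omega) with h | h
      · exact absurd h.symm (G.ne_of_adj hG)
      · exact absurd h hs

/-- the vertices of the long walk -/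
private lemma SUBD_vert {H : SimpleGraph V} {w : V → V → V}
    {l : ℕ} (P : ℕ → V) {t : ℕ} (ht : t ≤ 2 * l) :
    (∃ s, s ≤ l ∧ SUBD_walk H w P t = P s) ∨
    (∃ s, s < l ∧ H.Adj (P s) (P (s + 1)) ∧ SUBD_walk H w P t = w (P s) (P (s + 1))) := by
  rcases Nat.even_or_odd' t with ⟨s, rfl | rfl⟩
  · exact Or.inl ⟨s, by omega, SUBD_even _ _ _ _⟩
  · rw [SUBD_odd]
    by_cases hs : H.Adj (P s) (P (s + 1))
    · rw [if_pos hs]; exact Or.inr ⟨s, by omega, hs, rfl⟩
    · rw [if_neg hs]; exact Or.inl ⟨s, by omega, rfl⟩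

/-- a walk that contains an isolated vertex is constant -/
private lemma SUBD_const {H : SimpleGraph V} {l : ℕ} {P : ℕ → V} (hP : LazyWalk H l P)
    {x : V} (hx : ∀ u, ¬ H.Adj x u) {s : ℕ} (hs : s ≤ l) (hPs : P s = x) : P 0 = x := by
  induction s with
  | zero => exact hPs
  | succ n ih =>
    refine ih (by omega) ?_
    rcases hP n (by omega) with h | h
    · rw [← h]; exact hPs
    · rw [hPs] at h
      exact absurd h.symm (hx _)

private lemma SUBD_const' {H : SimpleGraph V} {l : ℕ} {P : ℕ → V} (hP : LazyWalk H l P)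
    {x : V} (hx : ∀ u, ¬ H.Adj x u) (h0 : P 0 = x) {s : ℕ} (hs : s ≤ l) : P s = x := by
  induction s with
  | zero => exact h0
  | succ n ih =>
    have h1 := ih (by omega)
    rcases hP n (by omega) with h | h
    · rw [h]; exact h1
    · rw [h1] at h
      exact absurd h (hx _)

private lemma SUBD_vk {G : SimpleGraph V} {X : V → V → V → V → Prop}
    (hX : IsCross X) (hVK : VK G X) (H : SimpleGraph V) (w : V → V → V)
    (hsymm : ∀ u v, H.Adj u v → w u v = w v u)
    (hadj : ∀ u v, H.Adj u v → G.Adj u (w u v))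
    (hiso : ∀ u v u', H.Adj u v → ¬ H.Adj (w u v) u')
    (hinj : ∀ u v u' v', H.Adj u v → H.Adj u' v' → w u v = w u' v' →
      (u = u' ∧ v = v') ∨ (u = v' ∧ v = u')) :
    VK H (SUBD_X H X w) := by
  intro l a b P ha hb hP
  by_cases hisol : ∃ i, ∀ u, ¬ H.Adj (a i) u
  · obtain ⟨i, hi⟩ := hisol
    have hball : ∀ j, b j = a i := by
      intro j
      have := SUBD_const' (hP i j) hi (ha i j) (le_refl l)
      rw [hb i j] at this
      exact this
    refine ⟨0, 1, 0, 1, by decide, by decide, Or.inl ⟨l, l, le_refl _, le_refl _, ?_⟩⟩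
    rw [hb, hb, hball, hball]
  · push Not at hisol
    have hnon : ∀ i j s, s ≤ l → ∃ u, H.Adj (P i j s) u := by
      intro i j s hs
      by_contra hcon
      push Not at hcon
      have h0 := SUBD_const (hP i j) hcon hs rfl
      rw [ha i j] at h0
      obtain ⟨u, hu⟩ := hisol i
      rw [h0] at hu
      exact hcon u hu
    obtain ⟨i, i', j, j', hii, hjj, hM⟩ := hVK (2 * l) a b (fun i j => SUBD_walk H w (P i j))
      (by
        intro i j
        have := SUBD_even H w (P i j) 0
        rw [Nat.mul_zero] at this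
        show SUBD_walk H w (P i j) 0 = a i
        rw [this, ha])
      (by
        intro i j
        show SUBD_walk H w (P i j) (2 * l) = b j
        rw [SUBD_even, hb])
      (fun i j => SUBD_lazy hsymm hadj (hP i j))
    refine ⟨i, i', j, j', hii, hjj, ?_⟩
    rcases hM with ⟨t, t', ht, ht', hE⟩ | ⟨t, t', ht, ht', hG, hG', hXX⟩
    · rcases SUBD_vert (H := H) (w := w) (P i j) ht with ⟨s, hs, e⟩ | ⟨s, hs, hA, e⟩
      · rcases SUBD_vert (H := H) (w := w) (P i' j') ht' with ⟨s', hs', e'⟩ | ⟨s', hs', hA', e'⟩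
        · exact Or.inl ⟨s, s', hs, hs', by rw [← e, ← e', hE]⟩
        · exfalso
          obtain ⟨u, hu⟩ := hnon i j s hs
          rw [← e, hE, e'] at hu
          exact hiso _ _ _ hA' hu
      · rcases SUBD_vert (H := H) (w := w) (P i' j') ht' with ⟨s', hs', e'⟩ | ⟨s', hs', hA', e'⟩
        · exfalso
          obtain ⟨u, hu⟩ := hnon i' j' s' hs'
          rw [← e', ← hE, e] at hu
          exact hiso _ _ _ hA hu
        · have hw : w (P i j s) (P i j (s + 1)) = w (P i' j' s') (P i' j' (s' + 1)) := by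
            rw [← e, ← e', hE]
          rcases hinj _ _ _ _ hA hA' hw with ⟨h1, _⟩ | ⟨h1, _⟩
          · exact Or.inl ⟨s, s', by omega, by omega, h1⟩
          · exact Or.inl ⟨s, s' + 1, by omega, by omega, h1⟩
    · obtain ⟨s, hs, hA, hc⟩ := SUBD_step (w := w) (hP i j) ht hG
      obtain ⟨s', hs', hA', hc'⟩ := SUBD_step (w := w) (hP i' j') ht' hG'
      by_cases h1 : P i j s = P i' j' s'
      · exact Or.inl ⟨s, s', by omega, by omega, h1⟩
      by_cases h2 : P i j s = P i' j' (s' + 1)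
      · exact Or.inl ⟨s, s' + 1, by omega, by omega, h2⟩
      by_cases h3 : P i j (s + 1) = P i' j' s'
      · exact Or.inl ⟨s + 1, s', by omega, by omega, h3⟩
      by_cases h4 : P i j (s + 1) = P i' j' (s' + 1)
      · exact Or.inl ⟨s + 1, s' + 1, by omega, by omega, h4⟩
      refine Or.inr ⟨s, s', hs, hs', hA, hA', hA, hA', ⟨h1, h2, h3, h4⟩, ?_⟩
      rcases hc with ⟨c1, c2⟩ | ⟨c1, c2⟩ <;> rcases hc' with ⟨c3, c4⟩ | ⟨c3, c4⟩ <;>
        rw [c1, c2, c3, c4] at hXX
      · exact Or.inl hXX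
      · exact Or.inr (Or.inl hXX)
      · exact Or.inr (Or.inr (Or.inl hXX))
      · exact Or.inr (Or.inr (Or.inr hXX))

/-- one half of the weight on the darts of the large graph -/
def SUBD_q (H : SimpleGraph V) (w : V → V → V) (p : V → V → ℝ) (x y : V) : ℝ :=
  ∑ v, if H.Adj x v ∧ w x v = y then p x v else 0

private lemma SUBD_q_nonneg (H : SimpleGraph V) (w : V → V → V) {p : V → V → ℝ}
    (hp : ∀ u v, 0 ≤ p u v) (x y : V) : 0 ≤ SUBD_q H w p x y := by
  unfold SUBD_q
  refine Finset.sum_nonneg fun v _ => ?_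
  split_ifs
  · exact hp _ _
  · exact le_refl _

private lemma SUBD_q_row (H : SimpleGraph V) (w : V → V → V) {p : V → V → ℝ}
    (hp0 : ∀ u v, ¬ H.Adj u v → p u v = 0) (x : V) (f : V → ℝ) :
    ∑ y, SUBD_q H w p x y * f y = ∑ v, p x v * f (w x v) := by
  unfold SUBD_q
  simp_rw [Finset.sum_mul]
  rw [Finset.sum_comm]
  refine Finset.sum_congr rfl fun v _ => ?_
  rw [Finset.sum_eq_single (w x v)]
  · by_cases h : H.Adj x v
    · rw [if_pos ⟨h, rfl⟩]
    · rw [if_neg (fun hh => h hh.1), hp0 _ _ h]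
  · intro y _ hy
    rw [if_neg (fun hh => hy hh.2.symm), zero_mul]
  · intro h; exact absurd (Finset.mem_univ _) h

private lemma SUBD_q_row1 (H : SimpleGraph V) (w : V → V → V) {p : V → V → ℝ}
    (hp0 : ∀ u v, ¬ H.Adj u v → p u v = 0) (x : V) :
    ∑ y, SUBD_q H w p x y = ∑ v, p x v := by
  have := SUBD_q_row H w hp0 x (fun _ => 1)
  simpa using this

/-- the weight on the darts of the large graph -/
def SUBD_p (H : SimpleGraph V) (w : V → V → V) (p : V → V → ℝ) (x y : V) : ℝ :=
  (SUBD_q H w p x y + SUBD_q H w p y x) / 2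

private lemma SUBD_total (H : SimpleGraph V) (w : V → V → V) {p : V → V → ℝ}
    (hp0 : ∀ u v, ¬ H.Adj u v → p u v = 0) :
    ∑ x, ∑ y, SUBD_p H w p x y = ∑ x, ∑ y, p x y := by
  unfold SUBD_p
  simp_rw [← Finset.sum_div, Finset.sum_add_distrib]
  rw [Finset.sum_comm (f := fun x y => SUBD_q H w p y x)]
  simp_rw [SUBD_q_row1 H w hp0]
  ring

private lemma SUBD_rowsum (H : SimpleGraph V) (w : V → V → V) {p : V → V → ℝ}
    (hp : ∀ u v, 0 ≤ p u v) (hps : ∀ u v, p u v = p v u)
    (hp0 : ∀ u v, ¬ H.Adj u v → p u v = 0)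
    (hiso : ∀ u v u', H.Adj u v → ¬ H.Adj (w u v) u')
    (hinj : ∀ u v u' v', H.Adj u v → H.Adj u' v' → w u v = w u' v' →
      (u = u' ∧ v = v') ∨ (u = v' ∧ v = u'))
    {η : ℝ} (hη : 0 ≤ η) (hrow : ∀ u, ∑ v, p u v ≤ η) (x : V) :
    ∑ y, SUBD_p H w p x y ≤ η := by
  unfold SUBD_p
  rw [← Finset.sum_div, Finset.sum_add_distrib, SUBD_q_row1 H w hp0]
  by_cases hx : ∃ u v, H.Adj u v ∧ w u v = x
  · obtain ⟨u, v, huv, hw⟩ := hx
    have h1 : ∑ y, p x y = 0 := by
      refine Finset.sum_eq_zero fun y _ => hp0 _ _ ?_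
      rw [← hw]; exact hiso _ _ _ huv
    have hpuv : p u v ≤ η :=
      le_trans (Finset.single_le_sum (f := fun v => p u v) (fun v _ => hp u v)
        (Finset.mem_univ v)) (hrow u)
    have h2 : ∑ y, SUBD_q H w p y x ≤ p u v + p u v := by
      have h3 : ∀ y, SUBD_q H w p y x ≤
          (if y = u then p u v else 0) + (if y = v then p u v else 0) := by
        intro y
        unfold SUBD_q
        have h4 : ∀ z, (if H.Adj y z ∧ w y z = x then p y z else 0) ≤
            (if z = v then (if y = u then p u v else 0) else 0) +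
            (if z = u then (if y = v then p u v else 0) else 0) := by
          intro z
          have hnn : 0 ≤ (if z = v then (if y = u then p u v else 0) else 0) := by
            split_ifs
            · exact hp _ _
            · exact le_refl _
            · exact le_refl _
          have hnn' : 0 ≤ (if z = u then (if y = v then p u v else 0) else 0) := by
            split_ifs
            · exact hp _ _
            · exact le_refl _
            · exact le_refl _
          by_cases hc : H.Adj y z ∧ w y z = x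
          · rw [if_pos hc]
            rcases hinj _ _ _ _ huv hc.1 (by rw [hw, hc.2]) with ⟨e1, e2⟩ | ⟨e1, e2⟩
            · subst e1; subst e2
              rw [if_pos rfl, if_pos rfl]
              linarith
            · subst e1; subst e2
              rw [if_pos (rfl : u = u), if_pos (rfl : v = v), hps v u]
              linarith
          · rw [if_neg hc]
            linarith
        refine le_trans (Finset.sum_le_sum fun z _ => h4 z) ?_
        rw [Finset.sum_add_distrib]
        simp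
      refine le_trans (Finset.sum_le_sum fun y _ => h3 y) ?_
      rw [Finset.sum_add_distrib]
      simp
    rw [h1]
    linarith
  · have h2 : ∑ y, SUBD_q H w p y x = 0 := by
      refine Finset.sum_eq_zero fun y _ => ?_
      unfold SUBD_q
      refine Finset.sum_eq_zero fun z _ => ?_
      rw [if_neg]
      rintro ⟨h, h'⟩
      exact hx ⟨y, z, h, h'⟩
    rw [h2]
    have := hrow x
    linarith

/-- the crossing sum in the large graph, in terms of the halves -/
private lemma SUBD_crossG {X : V → V → V → V → Prop} (hX : IsCross X) (q : V → V → ℝ) :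
    (∑ u, ∑ v, ∑ u', ∑ v', if X u v u' v' then
      ((q u v + q v u) / 2) * ((q u' v' + q v' u') / 2) else 0) =
    ∑ u, ∑ v, ∑ u', ∑ v', if X u v u' v' then q u v * q u' v' else 0 := by
  have swap1 : ∀ u v u' v', X u v u' v' ↔ X v u u' v' := fun u v u' v' =>
    ⟨hX.swap _ _ _ _, hX.swap _ _ _ _⟩
  have swap2 : ∀ u v u' v', X u v u' v' ↔ X u v v' u' := fun u v u' v' =>
    ⟨fun h => hX.symm _ _ _ _ (hX.swap _ _ _ _ (hX.symm _ _ _ _ h)),
     fun h => hX.symm _ _ _ _ (hX.swap _ _ _ _ (hX.symm _ _ _ _ h))⟩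
  have key : ∀ f g : V → V → ℝ,
      (∑ u, ∑ v, ∑ u', ∑ v', if X u v u' v' then f v u * g u' v' else 0) =
      ∑ u, ∑ v, ∑ u', ∑ v', if X u v u' v' then f u v * g u' v' else 0 := by
    intro f g
    rw [Finset.sum_comm]
    refine Finset.sum_congr rfl fun u _ => Finset.sum_congr rfl fun v _ =>
      Finset.sum_congr rfl fun u' _ => Finset.sum_congr rfl fun v' _ => ?_
    rw [if_congr (swap1 v u u' v') rfl rfl]
  have key2 : ∀ f g : V → V → ℝ,
      (∑ u, ∑ v, ∑ u', ∑ v', if X u v u' v' then f u v * g v' u' else 0) =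
      ∑ u, ∑ v, ∑ u', ∑ v', if X u v u' v' then f u v * g u' v' else 0 := by
    intro f g
    refine Finset.sum_congr rfl fun u _ => Finset.sum_congr rfl fun v _ => ?_
    rw [Finset.sum_comm]
    refine Finset.sum_congr rfl fun u' _ => Finset.sum_congr rfl fun v' _ => ?_
    rw [if_congr (swap2 u v v' u') rfl rfl]
  have e : ∀ u v u' v', (if X u v u' v' then
      ((q u v + q v u) / 2) * ((q u' v' + q v' u') / 2) else 0) =
      1 / 4 * ((if X u v u' v' then q u v * q u' v' else 0) +
        (if X u v u' v' then q v u * q u' v' else 0) +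
        (if X u v u' v' then q u v * q v' u' else 0) +
        (if X u v u' v' then q v u * q v' u' else 0)) := by
    intro u v u' v'
    split_ifs
    · ring
    · ring
  simp_rw [e, ← Finset.mul_sum, Finset.sum_add_distrib]
  rw [key q q, key2 q q, key q (fun a b => q b a), key2 q q]
  ring

private lemma SUBD_crossH {X : V → V → V → V → Prop} (H : SimpleGraph V)
    (w : V → V → V) {p : V → V → ℝ} (hp0 : ∀ u v, ¬ H.Adj u v → p u v = 0) :
    (∑ u, ∑ v, ∑ u', ∑ v', if X u v u' v' then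
      SUBD_q H w p u v * SUBD_q H w p u' v' else 0) =
    ∑ u, ∑ v, ∑ u', ∑ v', if X u (w u v) u' (w u' v') then p u v * p u' v' else 0 := by
  refine Finset.sum_congr rfl fun u _ => ?_
  have h1 : ∀ v, (∑ u', ∑ v', if X u v u' v' then
      SUBD_q H w p u v * SUBD_q H w p u' v' else 0) =
      SUBD_q H w p u v * (∑ u', ∑ v', SUBD_q H w p u' v' * (if X u v u' v' then 1 else 0)) := by
    intro v
    simp_rw [Finset.mul_sum]
    refine Finset.sum_congr rfl fun u' _ => Finset.sum_congr rfl fun v' _ => ?_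
    split_ifs
    · ring
    · ring
  simp_rw [h1]
  rw [SUBD_q_row H w hp0 u
    (fun v => ∑ u', ∑ v', SUBD_q H w p u' v' * (if X u v u' v' then 1 else 0))]
  refine Finset.sum_congr rfl fun v _ => ?_
  rw [Finset.mul_sum]
  refine Finset.sum_congr rfl fun u' _ => ?_
  rw [SUBD_q_row H w hp0 u' (fun v' => if X u (w u v) u' v' then 1 else 0), Finset.mul_sum]
  refine Finset.sum_congr rfl fun v' _ => ?_
  split_ifs
  · ring
  · ring

private lemma SUBD_nl {K lam : ℕ} {G : SimpleGraph V} {X : V → V → V → V → Prop}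
    (hX : IsCross X) (hNL : NL K (lam : ℝ) G X) (H : SimpleGraph V) (w : V → V → V)
    (hsymm : ∀ u v, H.Adj u v → w u v = w v u)
    (hadj : ∀ u v, H.Adj u v → G.Adj u (w u v))
    (hiso : ∀ u v u', H.Adj u v → ¬ H.Adj (w u v) u')
    (hinj : ∀ u v u' v', H.Adj u v → H.Adj u' v' → w u v = w u' v' →
      (u = u' ∧ v = v') ∨ (u = v' ∧ v = u')) :
    NL K ((4 ^ K * lam : ℕ) : ℝ) H (SUBD_X H X w) := by
  intro p η hη hp hps hp0 htot hrow
  have h1 := hNL (SUBD_p H w p) η hη
    (fun u v => by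
      unfold SUBD_p
      have := SUBD_q_nonneg H w hp u v
      have := SUBD_q_nonneg H w hp v u
      linarith)
    (fun u v => by unfold SUBD_p; ring)
    (fun u v huv => by
      unfold SUBD_p SUBD_q
      rw [Finset.sum_eq_zero, Finset.sum_eq_zero]
      · norm_num
      · intro z _
        rw [if_neg]
        rintro ⟨a1, a2⟩
        exact huv (by rw [← a2]; exact (hadj _ _ a1).symm)
      · intro z _
        rw [if_neg]
        rintro ⟨a1, a2⟩
        exact huv (by rw [← a2]; exact hadj _ _ a1))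
    (by rw [SUBD_total H w hp0]; exact htot)
    (SUBD_rowsum H w hp hps hp0 hiso hinj hη hrow)
  have h2 : (∑ u, ∑ v, ∑ u', ∑ v', if X u v u' v' then SUBD_p H w p u v * SUBD_p H w p u' v'
      else 0) = ∑ u, ∑ v, ∑ u', ∑ v',
        if X u (w u v) u' (w u' v') then p u v * p u' v' else 0 := by
    rw [← SUBD_crossH H w hp0, ← SUBD_crossG hX (SUBD_q H w p)]
    rfl
  set A : V → V → V → V → ℝ := fun u v u' v' =>
    if X u (w u v) u' (w u' v') then p u v * p u' v' else 0 with hA
  have hAnn : ∀ u v u' v', 0 ≤ A u v u' v' := by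
    intro u v u' v'
    simp only [hA]
    split_ifs
    · exact mul_nonneg (hp _ _) (hp _ _)
    · exact le_refl _
  have h3 : ∀ u v u' v', (if SUBD_X H X w u v u' v' then p u v * p u' v' else 0) ≤
      A u v u' v' + A u v v' u' + A v u u' v' + A v u v' u' := by
    intro u v u' v'
    have n1 := hAnn u v u' v'
    have n2 := hAnn u v v' u'
    have n3 := hAnn v u u' v'
    have n4 := hAnn v u v' u'
    by_cases hc : SUBD_X H X w u v u' v'
    · rw [if_pos hc]
      obtain ⟨a1, a2, _, a4⟩ := hc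
      rcases a4 with h | h | h | h
      · have : A u v u' v' = p u v * p u' v' := by
          simp only [hA]; rw [if_pos h]
        linarith
      · have : A u v v' u' = p u v * p u' v' := by
          simp only [hA]
          rw [if_pos, hps v' u']
          rw [← hsymm _ _ a2]
          exact hX.symm _ _ _ _ (hX.swap _ _ _ _ (hX.symm _ _ _ _ h))
        linarith
      · have : A v u u' v' = p u v * p u' v' := by
          simp only [hA]
          rw [if_pos, hps v u]
          rw [← hsymm _ _ a1]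
          exact hX.swap _ _ _ _ h
        linarith
      · have : A v u v' u' = p u v * p u' v' := by
          simp only [hA]
          rw [if_pos, hps v u, hps v' u']
          rw [← hsymm _ _ a1, ← hsymm _ _ a2]
          exact hX.symm _ _ _ _ (hX.swap _ _ _ _ (hX.symm _ _ _ _ (hX.swap _ _ _ _ h)))
        linarith
    · rw [if_neg hc]
      linarith
  have h4 : (∑ u, ∑ v, ∑ u', ∑ v', if SUBD_X H X w u v u' v' then p u v * p u' v' else 0) ≤
      4 * ∑ u, ∑ v, ∑ u', ∑ v', A u v u' v' := by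
    refine le_trans (Finset.sum_le_sum fun u _ => Finset.sum_le_sum fun v _ =>
      Finset.sum_le_sum fun u' _ => Finset.sum_le_sum fun v' _ => h3 u v u' v') ?_
    simp_rw [Finset.sum_add_distrib]
    have c1 : (∑ u, ∑ v, ∑ u', ∑ v', A u v v' u') = ∑ u, ∑ v, ∑ u', ∑ v', A u v u' v' :=
      Finset.sum_congr rfl fun u _ => Finset.sum_congr rfl fun v _ => Finset.sum_comm
    have c2 : (∑ u, ∑ v, ∑ u', ∑ v', A v u u' v') = ∑ u, ∑ v, ∑ u', ∑ v', A u v u' v' :=
      Finset.sum_comm
    have c3 : (∑ u, ∑ v, ∑ u', ∑ v', A v u v' u') = ∑ u, ∑ v, ∑ u', ∑ v', A u v u' v' := by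
      rw [Finset.sum_comm]
      exact Finset.sum_congr rfl fun u _ => Finset.sum_congr rfl fun v _ => Finset.sum_comm
    rw [c1, c2, c3]
    linarith
  have h5 : 0 ≤ ∑ u, ∑ v, ∑ u', ∑ v', if SUBD_X H X w u v u' v' then p u v * p u' v' else 0 := by
    refine Finset.sum_nonneg fun u _ => Finset.sum_nonneg fun v _ =>
      Finset.sum_nonneg fun u' _ => Finset.sum_nonneg fun v' _ => ?_
    split_ifs
    · exact mul_nonneg (hp _ _) (hp _ _)
    · exact le_refl _
  rw [h2] at h1
  calc _ ≤ (4 * ∑ u, ∑ v, ∑ u', ∑ v', A u v u' v') ^ K := pow_le_pow_left₀ h5 h4 K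
    _ = 4 ^ K * (∑ u, ∑ v, ∑ u', ∑ v', A u v u' v') ^ K := mul_pow _ _ _
    _ ≤ 4 ^ K * ((lam : ℝ) * η) := mul_le_mul_of_nonneg_left h1 (by positivity)
    _ = ((4 ^ K * lam : ℕ) : ℝ) * η := by push_cast; ring

/-- SUBD: closure under subdivision minors. -/
theorem subd {K lam : ℕ} {G : SimpleGraph V} {X : V → V → V → V → Prop}
    (h : InC K lam G X) (H : SimpleGraph V) (w : V → V → V)
    (hsymm : ∀ u v, H.Adj u v → w u v = w v u)
    (hadj : ∀ u v, H.Adj u v → G.Adj u (w u v))
    (hiso : ∀ u v u', H.Adj u v → ¬ H.Adj (w u v) u')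
    (hinj : ∀ u v u' v', H.Adj u v → H.Adj u' v' → w u v = w u' v' →
      (u = u' ∧ v = v') ∨ (u = v' ∧ v = u')) :
    ∃ X' : V → V → V → V → Prop, InC K (4 ^ K * lam) H X' :=
  ⟨SUBD_X H X w, SUBD_cross h.cross H w hsymm,
    SUBD_vk h.cross h.vk H w hsymm hadj hiso hinj,
    SUBD_nl h.cross h.nl H w hsymm hadj hiso hinj⟩

end NGR
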