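import Pool.Agent.NGR.Mono
import Pool.Agent.NGR.Kss
import Pool.Agent.NGR.Subd

open Finset
open scoped Classical

noncomputable section

namespace NGR

variable {V : Type} [Fintype V]

/-- The graph of the matched pairs, with its middle vertices. -/
private theorem st5s_graph {G : SimpleGraph V} (M : V → Finset (V × V))
    (hlt : ∀ a, ∀ m ∈ M a, key G a < key G m.2)
    (hM3 : ∀ a, ∀ m ∈ M a, ∀ n ∈ M a, m.2 = n.2 → m = n) :
    ∃ (H : SimpleGraph V) (mid : V → V → V),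
      (∀ a b, H.Adj a b ↔ (∃ w, (w, b) ∈ M a) ∨ (∃ w, (w, a) ∈ M b)) ∧
      (∀ a b w, (w, b) ∈ M a → mid a b = w ∧ mid b a = w) := by
  refine ⟨SimpleGraph.mk' ⟨fun a b => decide ((∃ w, (w, b) ∈ M a) ∨ (∃ w, (w, a) ∈ M b)), ?_, ?_⟩,
    fun a b => if h : ∃ w, (w, b) ∈ M a then h.choose else
      if h' : ∃ w, (w, a) ∈ M b then h'.choose else a, ?_, ?_⟩
  · intro a b
    rw [decide_eq_decide]
    exact or_comm
  · intro a
    simp only [decide_eq_true_eq, or_self]
    rintro ⟨w, hw⟩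
    exact lt_irrefl _ (hlt a _ hw)
  · intro a b
    simp
  · intro a b w hw
    have huniq : ∀ w', (w', b) ∈ M a → w' = w := fun w' hw' =>
      congrArg Prod.fst (hM3 a _ hw' _ hw rfl)
    have h1 : ∃ w, (w, b) ∈ M a := ⟨w, hw⟩
    have h2 : ¬ ∃ w, (w, a) ∈ M b := by
      rintro ⟨w', hw'⟩
      exact lt_asymm (hlt a _ hw) (hlt b _ hw')
    constructor
    · show dite _ _ _ = w
      rw [dif_pos h1]
      exact huniq _ h1.choose_spec
    · show dite _ _ _ = w
      rw [dif_neg h2, dif_pos h1]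
      exact huniq _ h1.choose_spec

/-- ST5S: the star bound. -/
theorem st5_star {K lam s x y : ℕ} (hK : 1 ≤ K) (hlam : 1 ≤ lam) (hs : s = sK K lam)
    (D : ℝ) (hD1 : 1 ≤ D) (hD : Dens V K (4 ^ K * lam) D) {G : SimpleGraph V}
    {X : V → V → V → V → Prop} (h : InC K lam G X) (hy : 1 ≤ y) (hx : x = y ^ (4 * s))
    (L : V → Finset V) (hLd : ∀ u u', u ≠ u' → Disjoint (L u) (L u'))
    (hL : ∀ u, ∀ w ∈ L u, x ≤ dg G u ∧ dg G u < 2 ^ (4 * s) * x ∧ dg G w < x ∧
      G.Adj w u ∧ s ≤ (upn G w u).card) :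
    (∑ u, ((L u).card : ℝ)) ≤
      ((2 : ℝ) ^ (4 * s - 1) * D + 2 * s) * (darts G : ℝ) / (y : ℝ) ^ 2 := by
  have hs1 : 1 ≤ s := by rw [hs]; unfold sK; omega
  have hx1 : 1 ≤ x := by rw [hx]; exact Nat.one_le_pow _ _ hy
  -- the matchings
  have hm : ∀ u : V, ∃ M : Finset (V × V), (∀ m ∈ M, m.1 ∈ L u ∧ m.2 ∈ upn G m.1 u) ∧
      (∀ m ∈ M, ∀ n ∈ M, m.1 = n.1 → m = n) ∧ (∀ m ∈ M, ∀ n ∈ M, m.2 = n.2 → m = n) ∧
      (∀ a b, (a ∈ L u ∧ b ∈ upn G a u) → (∃ m ∈ M, m.1 = a) ∨ (∃ m ∈ M, m.2 = b)) :=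
    fun u => max_match (fun w c => w ∈ L u ∧ c ∈ upn G w u)
  choose M hM1 hM2 hM3 hM4 using hm
  have hup : ∀ a, ∀ m ∈ M a, G.Adj m.1 m.2 ∧ key G a < key G m.2 := by
    intro a m hma
    have := (hM1 a m hma).2
    simpa [upn] using this
  obtain ⟨H, mid, hH, hmid⟩ := st5s_graph (G := G) M (fun a m hma => (hup a m hma).2) hM3
  -- degrees of the vertices of `H`
  have hdeg : ∀ a b w, (w, b) ∈ M a → x ≤ dg G a ∧ x ≤ dg G b ∧ dg G w < x := by
    intro a b w hw
    have h1 := hL a w (hM1 a _ hw).1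
    have h2 := key_mono G (hup a _ hw).2
    exact ⟨h1.1, h1.1.trans h2, h1.2.2.1⟩
  have hHdeg : ∀ a b, H.Adj a b → x ≤ dg G a := by
    intro a b hab
    rcases (hH a b).1 hab with ⟨w, hw⟩ | ⟨w, hw⟩
    · exact (hdeg _ _ _ hw).1
    · exact (hdeg _ _ _ hw).2.1
  obtain ⟨X', hX'⟩ := subd h H mid
    (by
      intro u v huv
      rcases (hH u v).1 huv with ⟨w, hw⟩ | ⟨w, hw⟩
      · rw [(hmid _ _ _ hw).1, (hmid _ _ _ hw).2]
      · rw [(hmid _ _ _ hw).1, (hmid _ _ _ hw).2])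
    (by
      intro u v huv
      rcases (hH u v).1 huv with ⟨w, hw⟩ | ⟨w, hw⟩
      · rw [(hmid _ _ _ hw).1]
        exact (hL u w (hM1 u _ hw).1).2.2.2.1.symm
      · rw [(hmid _ _ _ hw).2]
        exact (hup v _ hw).1.symm)
    (by
      intro u v u' huv hmu
      have h1 := hHdeg _ _ hmu
      rcases (hH u v).1 huv with ⟨w, hw⟩ | ⟨w, hw⟩
      · rw [(hmid _ _ _ hw).1] at h1
        exact absurd h1 (not_le.2 (hdeg _ _ _ hw).2.2)
      · rw [(hmid _ _ _ hw).2] at h1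
        exact absurd h1 (not_le.2 (hdeg _ _ _ hw).2.2))
    (by
      -- the middle vertex determines the pair
      have hdet : ∀ a b a' b' w, (w, b) ∈ M a → (w, b') ∈ M a' → a = a' ∧ b = b' := by
        intro a b a' b' w h1 h2
        have haa : a = a' := by
          by_contra hne
          exact Finset.disjoint_left.1 (hLd a a' hne) (hM1 a _ h1).1 (hM1 a' _ h2).1
        subst haa
        exact ⟨rfl, congrArg Prod.snd (hM2 a _ h1 _ h2 rfl)⟩
      intro u v u' v' huv huv' hw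
      rcases (hH u v).1 huv with ⟨w, h1⟩ | ⟨w, h1⟩ <;>
        rcases (hH u' v').1 huv' with ⟨w', h2⟩ | ⟨w', h2⟩
      · rw [(hmid _ _ _ h1).1, (hmid _ _ _ h2).1] at hw
        subst hw
        obtain ⟨e1, e2⟩ := hdet _ _ _ _ _ h1 h2
        exact Or.inl ⟨e1, e2⟩
      · rw [(hmid _ _ _ h1).1, (hmid _ _ _ h2).2] at hw
        subst hw
        obtain ⟨e1, e2⟩ := hdet _ _ _ _ _ h1 h2
        exact Or.inr ⟨e1, e2⟩
      · rw [(hmid _ _ _ h1).2, (hmid _ _ _ h2).1] at hw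
        subst hw
        obtain ⟨e1, e2⟩ := hdet _ _ _ _ _ h1 h2
        exact Or.inr ⟨e2, e1⟩
      · rw [(hmid _ _ _ h1).2, (hmid _ _ _ h2).2] at hw
        subst hw
        obtain ⟨e1, e2⟩ := hdet _ _ _ _ _ h1 h2
        exact Or.inl ⟨e2, e1⟩)
  set Vx : Finset V := univ.filter (fun v => x ≤ dg G v) with hVx
  have hdens : (darts H : ℝ) ≤ D * (Vx.card : ℝ) := by
    refine hD H X' Vx hX' ?_
    intro u v huv
    rw [hVx, mem_filter]
    exact ⟨mem_univ _, hHdeg u v huv⟩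
  -- the volume of `Vx`
  have hvol : Vx.card * x ≤ darts G := by
    calc Vx.card * x = ∑ _v ∈ Vx, x := by rw [sum_const, smul_eq_mul]
      _ ≤ ∑ v ∈ Vx, dg G v := sum_le_sum fun v hv => (mem_filter.1 hv).2
      _ ≤ ∑ v, dg G v := sum_le_sum_of_subset (subset_univ _)
  -- number of matched pairs
  set nu : V → ℕ := fun u => (M u).card with hnu
  set Np : V → Finset V := fun u => (M u).image Prod.snd with hNp
  have hNpc : ∀ u, (Np u).card = nu u := fun u =>
    card_image_of_injOn fun m hm n hn e => hM3 u m hm n hn e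
  have hNpm : ∀ u b, b ∈ Np u ↔ ∃ w, (w, b) ∈ M u := by
    intro u b
    simp only [hNp, mem_image]
    constructor
    · rintro ⟨⟨w, c⟩, hw, rfl⟩
      exact ⟨w, hw⟩
    · rintro ⟨w, hw⟩
      exact ⟨(w, b), hw, rfl⟩
  have hsumnu : 2 * ∑ u, nu u ≤ darts H := by
    have e1 : ∀ v, nu v + (univ.filter (fun b => v ∈ Np b)).card ≤ dg H v := by
      intro v
      rw [← hNpc v, ← card_union_of_disjoint]
      · refine card_le_card fun b hb => ?_
        rw [mem_filter]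
        refine ⟨mem_univ _, (hH v b).2 ?_⟩
        rcases mem_union.1 hb with hb | hb
        · exact Or.inl ((hNpm v b).1 hb)
        · exact Or.inr ((hNpm b v).1 (mem_filter.1 hb).2)
      · rw [Finset.disjoint_left]
        intro b hb hb'
        obtain ⟨w, hw⟩ := (hNpm v b).1 hb
        obtain ⟨w', hw'⟩ := (hNpm b v).1 (mem_filter.1 hb').2
        exact lt_asymm (hup v _ hw).2 (hup b _ hw').2
    have e2 : ∑ v, (univ.filter (fun b => v ∈ Np b)).card = ∑ u, nu u := by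
      simp only [card_filter]
      rw [sum_comm]
      refine sum_congr rfl fun b _ => ?_
      rw [← hNpc b, ← card_filter]
      congr 1
      ext v
      simp
    calc 2 * ∑ u, nu u = ∑ u, nu u + ∑ v, (univ.filter (fun b => v ∈ Np b)).card := by
          rw [e2]; ring
      _ = ∑ v, (nu v + (univ.filter (fun b => v ∈ Np b)).card) := sum_add_distrib.symm
      _ ≤ _ := sum_le_sum fun v _ => e1 v
  -- unmatched vertices
  have hLu : ∀ u, (L u).card ≤ nu u + s * nu u ^ s := by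
    intro u
    set W : Finset V := (L u).filter (fun w => ¬ ∃ m ∈ M u, m.1 = w) with hW
    have h1 : W.card ≤ s * nu u ^ s := by
      rw [← hNpc u]
      refine few_rich hK (le_of_eq hs.symm) h (Np u) W ?_
      intro w hw
      rw [hW, mem_filter] at hw
      refine (hL u w hw.1).2.2.2.2.trans (card_le_card fun c hc => ?_)
      have hc' : G.Adj w c ∧ key G u < key G c := by simpa [upn] using hc
      rw [mem_filter]
      refine ⟨?_, hc'.1⟩
      rcases hM4 u w c ⟨hw.1, hc⟩ with h2 | ⟨m, hm1, hm2⟩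
      · exact absurd h2 hw.2
      · exact mem_image.2 ⟨m, hm1, hm2⟩
    have h2 : ((L u).filter (fun w => ∃ m ∈ M u, m.1 = w)).card ≤ nu u := by
      calc _ ≤ ((M u).image Prod.fst).card := by
            refine card_le_card fun w hw => ?_
            obtain ⟨m, hm1, hm2⟩ := (mem_filter.1 hw).2
            exact mem_image.2 ⟨m, hm1, hm2⟩
        _ ≤ nu u := card_image_le
    have h3 := card_filter_add_card_filter_not (s := L u) (fun w => ∃ m ∈ M u, m.1 = w)
    rw [← hW] at h3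
    omega
  -- the two bounds for `L u`
  have hLdeg : ∀ u, (L u).card ≤ dg G u := by
    intro u
    refine card_le_card fun w hw => ?_
    rw [mem_filter]
    exact ⟨mem_univ _, (hL u w hw).2.2.2.1.symm⟩
  have hLsm : ∀ u, nu u < y ^ 2 → (L u).card ≤ 2 * s * y ^ (2 * s) := by
    intro u hu
    have h1 : nu u ^ s ≤ y ^ (2 * s) := by
      rw [pow_mul]
      exact Nat.pow_le_pow_left hu.le s
    have h2 : y ^ 2 ≤ y ^ (2 * s) := Nat.pow_le_pow_right hy (by omega)
    have h3 : y ^ (2 * s) ≤ s * y ^ (2 * s) := Nat.le_mul_of_pos_left _ hs1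
    calc (L u).card ≤ nu u + s * nu u ^ s := hLu u
      _ ≤ y ^ 2 + s * y ^ (2 * s) := add_le_add hu.le (Nat.mul_le_mul_left _ h1)
      _ ≤ 2 * s * y ^ (2 * s) := by nlinarith
  set Big : Finset V := Vx.filter (fun u => y ^ 2 ≤ nu u) with hBig
  have hBigc : 2 * (Big.card * y ^ 2) ≤ darts H := by
    refine le_trans (Nat.mul_le_mul_left 2 ?_) hsumnu
    calc Big.card * y ^ 2 = ∑ _u ∈ Big, y ^ 2 := by rw [sum_const, smul_eq_mul]
      _ ≤ ∑ u ∈ Big, nu u := sum_le_sum fun u hu => (mem_filter.1 hu).2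
      _ ≤ ∑ u, nu u := sum_le_sum_of_subset (subset_univ _)
  have hbound : ∑ u, (L u).card ≤ Big.card * (2 ^ (4 * s) * x) +
      Vx.card * (2 * s * y ^ (2 * s)) := by
    have e1 : ∀ u, (L u).card ≤ (if u ∈ Big then 2 ^ (4 * s) * x else 0) +
        (if u ∈ Vx then 2 * s * y ^ (2 * s) else 0) := by
      intro u
      rcases (L u).eq_empty_or_nonempty with he | ⟨w, hw⟩
      · rw [he]; simp
      · have h1 := hL u w hw
        have hu : u ∈ Vx := by rw [hVx, mem_filter]; exact ⟨mem_univ _, h1.1⟩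
        by_cases hb : y ^ 2 ≤ nu u
        · have hu' : u ∈ Big := by rw [hBig, mem_filter]; exact ⟨hu, hb⟩
          rw [if_pos hu']
          exact le_add_right ((hLdeg u).trans h1.2.1.le)
        · rw [if_pos hu]
          exact le_add_left (hLsm u (not_le.1 hb))
    calc ∑ u, (L u).card ≤ ∑ u, ((if u ∈ Big then 2 ^ (4 * s) * x else 0) +
        (if u ∈ Vx then 2 * s * y ^ (2 * s) else 0)) := sum_le_sum fun u _ => e1 u
      _ = _ := by
        rw [sum_add_distrib, ← sum_filter, ← sum_filter, sum_const, sum_const, smul_eq_mul,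
          smul_eq_mul]
        simp
  -- conclusion over the reals
  have hyR : (1 : ℝ) ≤ y := by exact_mod_cast hy
  have hy0 : (0 : ℝ) < y := by linarith
  have hxR : (0 : ℝ) < x := by exact_mod_cast hx1
  have hMR : (Vx.card : ℝ) * x ≤ darts G := by exact_mod_cast hvol
  have hBR : 2 * ((Big.card : ℝ) * y ^ 2) ≤ D * Vx.card := by
    refine le_trans ?_ hdens
    exact_mod_cast hBigc
  have hbR : (∑ u, ((L u).card : ℝ)) ≤ (Big.card : ℝ) * (2 ^ (4 * s) * x) +
      Vx.card * (2 * s * y ^ (2 * s)) := by exact_mod_cast hbound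
  refine hbR.trans ?_
  rw [le_div_iff₀ (by positivity)]
  have hp : (2 : ℝ) ^ (4 * s) = 2 * 2 ^ (4 * s - 1) := by
    rw [← pow_succ']
    congr 1
    omega
  have t1 : (Big.card : ℝ) * (2 ^ (4 * s) * x) * (y : ℝ) ^ 2 ≤
      (2 : ℝ) ^ (4 * s - 1) * D * darts G := by
    calc (Big.card : ℝ) * (2 ^ (4 * s) * x) * (y : ℝ) ^ 2
        = 2 ^ (4 * s - 1) * x * (2 * ((Big.card : ℝ) * y ^ 2)) := by rw [hp]; ring
      _ ≤ 2 ^ (4 * s - 1) * x * (D * Vx.card) :=
          mul_le_mul_of_nonneg_left hBR (by positivity)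
      _ = 2 ^ (4 * s - 1) * D * (Vx.card * x) := by ring
      _ ≤ _ := mul_le_mul_of_nonneg_left hMR (by positivity)
  have t2 : (Vx.card : ℝ) * (2 * (s : ℝ) * (y : ℝ) ^ (2 * s)) * (y : ℝ) ^ 2 ≤
      2 * (s : ℝ) * (darts G : ℝ) := by
    have hyy : (y : ℝ) ^ (2 * s) * (y : ℝ) ^ 2 ≤ (x : ℝ) := by
      rw [hx]
      push_cast
      rw [← pow_add]
      exact pow_le_pow_right₀ hyR (by omega)
    calc (Vx.card : ℝ) * (2 * (s : ℝ) * (y : ℝ) ^ (2 * s)) * (y : ℝ) ^ 2
        = 2 * (s : ℝ) * ((Vx.card : ℝ) * ((y : ℝ) ^ (2 * s) * (y : ℝ) ^ 2)) := by ring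
      _ ≤ 2 * (s : ℝ) * ((Vx.card : ℝ) * (x : ℝ)) := by
          refine mul_le_mul_of_nonneg_left ?_ (by positivity)
          exact mul_le_mul_of_nonneg_left hyy (by positivity)
      _ ≤ _ := mul_le_mul_of_nonneg_left hMR (by positivity)
  calc _ = (Big.card : ℝ) * (2 ^ (4 * s) * x) * (y : ℝ) ^ 2 +
        (Vx.card : ℝ) * (2 * s * y ^ (2 * s)) * (y : ℝ) ^ 2 := by ring
    _ ≤ (2 : ℝ) ^ (4 * s - 1) * D * darts G + 2 * s * darts G := add_le_add t1 t2
    _ = _ := by ring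

end NGR
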