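import Pool.Agent.NGR.Defs

/-! Topological graphs and natural grids. -/

open Finset

noncomputable section

namespace NGR

/-- A topological graph: a graph drawn in the plane `ℂ`; vertices are distinct points and the
edge `uv` is a Jordan arc joining its end points and passing through no other vertex. -/
structure TopGraph (V : Type) where
  G : SimpleGraph V
  pos : V → ℂ
  pos_inj : Function.Injective pos
  arc : Sym2 V → Set ℂ
  arc_spec : ∀ u v, G.Adj u v →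
    ∃ γ : Path (pos u) (pos v), Function.Injective γ ∧ Set.range γ = arc s(u, v)
  arc_avoid : ∀ u v w, G.Adj u v → pos w ∈ arc s(u, v) → w = u ∨ w = v

/-- Two edges cross: they share a point that is interior to both arcs. -/
def TopGraph.Cross {V : Type} (T : TopGraph V) (e f : Sym2 V) : Prop :=
  ∃ p, p ∈ T.arc e ∧ p ∈ T.arc f ∧ (∀ v ∈ e, p ≠ T.pos v) ∧ (∀ v ∈ f, p ≠ T.pos v)

/-- Natural `(k,l)`-grid: `k + l` pairwise non-adjacent edges, each of the `k` edges in `E₁`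
crosses each of the `l` edges in `E₂`. -/
def TopGraph.NaturalGrid {V : Type} (T : TopGraph V) (k l : ℕ) : Prop :=
  ∃ E₁ E₂ : Finset (Sym2 V), (E₁ : Set (Sym2 V)) ⊆ T.G.edgeSet ∧
    (E₂ : Set (Sym2 V)) ⊆ T.G.edgeSet ∧ Disjoint E₁ E₂ ∧ E₁.card = k ∧ E₂.card = l ∧
    (∀ e ∈ E₁, ∀ f ∈ E₂, T.Cross e f) ∧
    (∀ e f, (e ∈ E₁ ∨ e ∈ E₂) → (f ∈ E₁ ∨ f ∈ E₂) → e ≠ f → ∀ v, v ∈ e → v ∉ f)

/-- GEO: the crossing relation of a topological graph. -/
def TopGraph.X {V : Type} (T : TopGraph V) (u v u' v' : V) : Prop :=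
  u ≠ u' ∧ u ≠ v' ∧ v ≠ u' ∧ v ≠ v' ∧ T.G.Adj u v ∧ T.G.Adj u' v' ∧ T.Cross s(u, v) s(u', v')

end NGR
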